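import Pool.Agent.R270.NB.Stm

/-!
# NB-A: existence of good blocks for `p > 1`
-/

set_option autoImplicit false

namespace Pool.Agent.R270.NB

open Finset

namespace AX

/-- weighted convexity -/
theorem conv_ineq {p θ : ℝ} (hp : 1 ≤ p) (h0 : 0 < θ) (h1 : θ < 1) (x y : ℝ) :
    |x + y| ^ p ≤ (1 - θ) ^ (1 - p) * |x| ^ p + θ ^ (1 - p) * |y| ^ p := by
  have h1' : 0 < 1 - θ := by linarith
  have hc := (convexOn_rpow hp).2 (x := |x| / (1 - θ)) (by
      rw [Set.mem_Ici]; positivity) (y := |y| / θ) (by rw [Set.mem_Ici]; positivity)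
      h1'.le h0.le (by ring)
  simp only [smul_eq_mul] at hc
  have e1 : (1 - θ) * (|x| / (1 - θ)) + θ * (|y| / θ) = |x| + |y| := by
    field_simp
  have e2 : ∀ (u z : ℝ), 0 < u → 0 ≤ z → u * (z / u) ^ p = u ^ (1 - p) * z ^ p := by
    intro u z hu hz
    rw [Real.div_rpow hz hu.le, Real.rpow_sub hu, Real.rpow_one]
    ring
  rw [e1, e2 _ _ h1' (abs_nonneg x), e2 _ _ h0 (abs_nonneg y)] at hc
  refine le_trans ?_ hc
  exact Real.rpow_le_rpow (abs_nonneg _) (abs_add_le x y) (by linarith)

theorem half_ineq {p : ℝ} (hp : 1 ≤ p) (x y : ℝ) :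
    (2 : ℝ) ^ (1 - p) * |x + y| ^ p ≤ |x| ^ p + |y| ^ p := by
  have h := conv_ineq hp (θ := 1 / 2) (by norm_num) (by norm_num) x y
  have e : (1 - (1 / 2 : ℝ)) = 1 / 2 := by norm_num
  rw [e] at h
  have e2 : (2 : ℝ) ^ (1 - p) * (1 / 2 : ℝ) ^ (1 - p) = 1 := by
    rw [← Real.mul_rpow (by norm_num) (by norm_num)]
    norm_num
  have hpos : (0 : ℝ) < (2 : ℝ) ^ (1 - p) := Real.rpow_pos_of_pos (by norm_num) _
  calc (2 : ℝ) ^ (1 - p) * |x + y| ^ p
      ≤ (2 : ℝ) ^ (1 - p) * ((1 / 2 : ℝ) ^ (1 - p) * |x| ^ p + (1 / 2 : ℝ) ^ (1 - p) * |y| ^ p) :=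
        mul_le_mul_of_nonneg_left h hpos.le
    _ = ((2 : ℝ) ^ (1 - p) * (1 / 2 : ℝ) ^ (1 - p)) * (|x| ^ p + |y| ^ p) := by ring
    _ = |x| ^ p + |y| ^ p := by rw [e2, one_mul]

/-- the energy -/
noncomputable def NN (p a δ s μ : ℝ) : ℕ → (ℕ → ℝ) → ℝ
  | 0, c => s * |c 0| ^ p
  | K + 1, c => NN p a δ s μ K c + NN p a δ s μ K (fun n => c (2 ^ K + n)) +
      δ * a * s * μ ^ K * |∑ n ∈ range (2 ^ (K + 1)), c n| ^ p

theorem sum_split (K : ℕ) (c : ℕ → ℝ) : ∑ n ∈ range (2 ^ (K + 1)), c n =
    ∑ n ∈ range (2 ^ K), c n + ∑ n ∈ range (2 ^ K), c (2 ^ K + n) := by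
  rw [pow_succ, mul_two, Finset.sum_range_add]

variable {p a δ s μ : ℝ}

theorem NN_congr (K : ℕ) : ∀ (c c' : ℕ → ℝ), (∀ n, n < 2 ^ K → c n = c' n) →
    NN p a δ s μ K c = NN p a δ s μ K c' := by
  induction K with
  | zero => intro c c' h; simp only [NN]; rw [h 0 (by norm_num)]
  | succ K ih =>
    intro c c' h
    have h2 : 2 ^ (K + 1) = 2 ^ K + 2 ^ K := by ring
    simp only [NN]
    rw [ih c c' (fun n hn => h n (by omega)),
      ih (fun n => c (2 ^ K + n)) (fun n => c' (2 ^ K + n)) (fun n hn => h _ (by omega)),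
      Finset.sum_congr rfl (fun n hn => h n (Finset.mem_range.1 hn))]

theorem NN_nonneg (ha : 0 ≤ a) (hδ : 0 ≤ δ) (hs : 0 ≤ s) (hμ : 0 ≤ μ) (K : ℕ) :
    ∀ c : ℕ → ℝ, 0 ≤ NN p a δ s μ K c := by
  induction K with
  | zero => intro c; simp only [NN]; positivity
  | succ K ih =>
    intro c
    simp only [NN]
    have h1 := ih c
    have h2 := ih (fun n => c (2 ^ K + n))
    positivity

theorem NN_zero (hp : 0 < p) (K : ℕ) : NN p a δ s μ K (fun _ => 0) = 0 := by
  induction K with
  | zero => simp [NN, Real.zero_rpow hp.ne']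
  | succ K ih => simp [NN, ih, Real.zero_rpow hp.ne']

/-- flat -/
theorem NN_flat (hp : 1 ≤ p) (ha : a = (2 : ℝ) ^ (1 - p)) (hδ : 0 ≤ δ) (hs : 0 ≤ s)
    (hμ : μ = a * (1 + δ)) (K : ℕ) :
    ∀ c : ℕ → ℝ, s * μ ^ K * |∑ n ∈ range (2 ^ K), c n| ^ p ≤ NN p a δ s μ K c := by
  have ha0 : 0 < a := by rw [ha]; exact Real.rpow_pos_of_pos (by norm_num) _
  have hμ0 : 0 ≤ μ := by rw [hμ]; positivity
  induction K with
  | zero => intro c; simp [NN]
  | succ K ih =>
    intro c
    have h1 := ih c
    have h2 := ih (fun n => c (2 ^ K + n))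
    simp only [NN]
    have h3 := half_ineq hp (∑ n ∈ range (2 ^ K), c n) (∑ n ∈ range (2 ^ K), c (2 ^ K + n))
    rw [← ha, ← sum_split] at h3
    have h4 : 0 ≤ s * μ ^ K := by positivity
    have h5 := mul_le_mul_of_nonneg_left h3 h4
    calc s * μ ^ (K + 1) * |∑ n ∈ range (2 ^ (K + 1)), c n| ^ p
        = s * μ ^ K * (a * |∑ n ∈ range (2 ^ (K + 1)), c n| ^ p) +
          δ * a * s * μ ^ K * |∑ n ∈ range (2 ^ (K + 1)), c n| ^ p := by
          rw [pow_succ]
          nth_rewrite 2 [hμ]
          ring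
      _ ≤ _ := by linarith

theorem sum_alt (u : ℝ) (K : ℕ) : ∑ n ∈ range (2 ^ (K + 1)), u * (-1) ^ n = 0 := by
  rw [← Finset.mul_sum]
  have : ∑ n ∈ range (2 ^ (K + 1)), (-1 : ℝ) ^ n = 0 := by
    have h := neg_one_geom_sum (R := ℝ) (n := 2 ^ (K + 1))
    rw [h, if_pos]
    rw [pow_succ]
    exact even_two.mul_left _
  rw [this, mul_zero]

/-- alternating signs -/
theorem NN_alt (hp : 0 < p) (K : ℕ) : ∀ u : ℝ, |u| = 1 →
    NN p a δ s μ K (fun n => u * (-1) ^ n) = 2 ^ K * s := by
  induction K with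
  | zero => intro u hu; simp [NN, hu]
  | succ K ih =>
    intro u hu
    simp only [NN]
    have h1 := ih u hu
    have h2 := ih (u * (-1) ^ (2 ^ K)) (by rw [abs_mul, hu, abs_pow, abs_neg, abs_one]; simp)
    have h3 : (fun n => u * (-1) ^ (2 ^ K + n)) =
        fun n : ℕ => u * (-1 : ℝ) ^ (2 ^ K) * (-1) ^ n := by
      funext n; rw [pow_add]; ring
    rw [h1, h3, h2, sum_alt, abs_zero, Real.zero_rpow hp.ne']
    ring

/-- truncation -/
theorem NN_trunc {α β b C : ℝ} (hp : 1 ≤ p) (ha : a = (2 : ℝ) ^ (1 - p)) (hδ : 0 ≤ δ) (hs : 0 ≤ s)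
    (hμ : μ = a * (1 + δ)) (hb : b = (3 / 4 : ℝ) ^ (1 - p)) (hC : C = (1 / 4 : ℝ) ^ (1 - p))
    (hα : 0 ≤ α) (h1 : (α + δ) * (b * μ) ≤ α) (h2 : (α + δ) * (C * μ) ≤ β) (h3 : α ≤ β) (K : ℕ) :
    ∀ (c : ℕ → ℝ) (m : ℕ), NN p a δ s μ K (fun n => if n < m then c n else 0) +
      α * (s * μ ^ K * |∑ n ∈ range (2 ^ K), if n < m then c n else 0| ^ p) ≤
      (1 + β) * NN p a δ s μ K c := by
  have ha0 : 0 < a := by rw [ha]; exact Real.rpow_pos_of_pos (by norm_num) _
  have hμ0 : 0 ≤ μ := by rw [hμ]; positivity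
  have hb1 : 1 ≤ b := by
    rw [hb]
    exact Real.one_le_rpow_of_pos_of_le_one_of_nonpos (by norm_num) (by norm_num) (by linarith)
  have hC0 : 0 < C := by rw [hC]; exact Real.rpow_pos_of_pos (by norm_num) _
  have hp0 : 0 < p := by linarith
  induction K with
  | zero =>
    intro c m
    simp only [NN, pow_zero, Finset.sum_range_one, mul_one]
    by_cases hm : 0 < m
    · rw [if_pos hm]
      have : 0 ≤ s * |c 0| ^ p := by positivity
      nlinarith
    · rw [if_neg hm, abs_zero, Real.zero_rpow hp0.ne', mul_zero, mul_zero, add_zero]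
      have : 0 ≤ β := hα.trans h3
      positivity
  | succ K ih =>
    intro c m
    have hN' : ∀ c, 0 ≤ NN p a δ s μ K c := NN_nonneg ha0.le hδ hs hμ0 K
    have hβ : 0 ≤ β := hα.trans h3
    set S : ℝ := s * μ ^ K with hS
    have hS0 : 0 ≤ S := by positivity
    set P : ℕ → ℝ := fun n => if n < m then c n else 0 with hP
    set X : ℝ := |∑ n ∈ range (2 ^ (K + 1)), P n| ^ p with hX
    have hX0 : 0 ≤ X := by positivity
    -- bound of the new term
    have hq : δ * a * s * μ ^ K * X + α * (s * μ ^ (K + 1) * X) ≤ (α + δ) * (μ * S * X) := by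
      have e1 : α * (s * μ ^ (K + 1) * X) = α * (μ * S * X) := by rw [hS, pow_succ]; ring
      have e2 : δ * a * s * μ ^ K * X = δ * (a * (S * X)) := by rw [hS]; ring
      have e3 : a * (S * X) ≤ μ * (S * X) := by
        refine mul_le_mul_of_nonneg_right ?_ (by positivity)
        rw [hμ]; nlinarith
      rw [e1, e2]
      nlinarith [mul_le_mul_of_nonneg_left e3 hδ]
    have hrec : NN p a δ s μ (K + 1) P = NN p a δ s μ K P + NN p a δ s μ K (fun n => P (2 ^ K + n)) +
      δ * a * s * μ ^ K * X := rfl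
    have hrec' : NN p a δ s μ K c + NN p a δ s μ K (fun n => c (2 ^ K + n)) ≤
        NN p a δ s μ (K + 1) c := by
      have : 0 ≤ δ * a * s * μ ^ K * |∑ n ∈ range (2 ^ (K + 1)), c n| ^ p := by positivity
      simp only [NN]
      linarith
    have hgoal : NN p a δ s μ K P + NN p a δ s μ K (fun n => P (2 ^ K + n)) +
        (α + δ) * (μ * S * X) ≤
        (1 + β) * (NN p a δ s μ K c + NN p a δ s μ K (fun n => c (2 ^ K + n))) := by
      rcases le_or_gt m (2 ^ K) with hm | hm
      · -- cut in the left half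
        have e1 : NN p a δ s μ K (fun n => P (2 ^ K + n)) = 0 := by
          rw [← NN_zero (a := a) (δ := δ) (s := s) (μ := μ) hp0 K]
          refine NN_congr K _ _ fun n hn => ?_
          rw [hP]
          dsimp only
          rw [if_neg (by omega)]
        have e2 : ∑ n ∈ range (2 ^ (K + 1)), P n = ∑ n ∈ range (2 ^ K), P n := by
          rw [sum_split]
          have : ∑ n ∈ range (2 ^ K), P (2 ^ K + n) = 0 := by
            refine Finset.sum_eq_zero fun n _ => ?_
            rw [hP]
            dsimp only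
            rw [if_neg (by omega)]
          rw [this, add_zero]
        have h4 := ih c m
        have hX' : X = |∑ n ∈ range (2 ^ K), P n| ^ p := by rw [hX, e2]
        have h4' : NN p a δ s μ K P + α * (S * X) ≤ (1 + β) * NN p a δ s μ K c := by
          rw [hX']; exact h4
        have h5 : (α + δ) * (μ * S * X) ≤ α * (S * X) := by
          have h6 : (α + δ) * μ ≤ (α + δ) * (b * μ) := by
            refine mul_le_mul_of_nonneg_left ?_ (by linarith)
            nlinarith
          have h7 : (α + δ) * μ ≤ α := h6.trans h1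
          calc (α + δ) * (μ * S * X) = ((α + δ) * μ) * (S * X) := by ring
            _ ≤ α * (S * X) := mul_le_mul_of_nonneg_right h7 (by positivity)
        have h8 : 0 ≤ (1 + β) * NN p a δ s μ K (fun n => c (2 ^ K + n)) :=
          mul_nonneg (by linarith) (hN' _)
        rw [e1]
        linarith
      · -- cut in the right half
        obtain ⟨m', rfl⟩ : ∃ m', m = 2 ^ K + m' := ⟨m - 2 ^ K, by omega⟩
        have e1 : NN p a δ s μ K P = NN p a δ s μ K c := by
          refine NN_congr K _ _ fun n hn => ?_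
          rw [hP]
          dsimp only
          rw [if_pos (by omega)]
        have e2 : (fun n => P (2 ^ K + n)) =
            fun n => if n < m' then c (2 ^ K + n) else 0 := by
          funext n
          rw [hP]
          dsimp only
          by_cases hn : n < m'
          · rw [if_pos hn, if_pos (by omega)]
          · rw [if_neg hn, if_neg (by omega)]
        have e3 : ∑ n ∈ range (2 ^ (K + 1)), P n = ∑ n ∈ range (2 ^ K), c n +
            ∑ n ∈ range (2 ^ K), (if n < m' then c (2 ^ K + n) else 0) := by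
          rw [sum_split]
          congr 1
          · refine Finset.sum_congr rfl fun n hn => ?_
            rw [hP]
            dsimp only
            rw [if_pos]
            have := Finset.mem_range.1 hn
            omega
          · exact Finset.sum_congr rfl fun n _ => congrFun e2 n
        have h4 := ih (fun n => c (2 ^ K + n)) m'
        have h5 := conv_ineq hp (θ := 3 / 4) (by norm_num) (by norm_num)
          (∑ n ∈ range (2 ^ K), c n)
          (∑ n ∈ range (2 ^ K), (if n < m' then c (2 ^ K + n) else 0))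
        rw [show (1 - (3 / 4 : ℝ)) = 1 / 4 by norm_num, ← hb, ← hC, ← e3] at h5
        have h6 := NN_flat hp ha hδ hs hμ K c
        rw [← hS] at h6
        set τ1 : ℝ := |∑ n ∈ range (2 ^ K), c n| ^ p with hτ1
        set τ2 : ℝ := |∑ n ∈ range (2 ^ K),
          (if n < m' then c (2 ^ K + n) else 0)| ^ p with hτ2
        have hτ1' : 0 ≤ τ1 := by positivity
        have hτ2' : 0 ≤ τ2 := by positivity
        have h7 : (α + δ) * (μ * S * X) ≤ (α + δ) * (μ * S * (C * τ1 + b * τ2)) := by
          refine mul_le_mul_of_nonneg_left ?_ (by linarith)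
          exact mul_le_mul_of_nonneg_left h5 (by positivity)
        have h8 : (α + δ) * (μ * S * (C * τ1 + b * τ2)) =
            ((α + δ) * (C * μ)) * (S * τ1) + ((α + δ) * (b * μ)) * (S * τ2) := by ring
        have h9 : ((α + δ) * (C * μ)) * (S * τ1) ≤ β * NN p a δ s μ K c := by
          calc ((α + δ) * (C * μ)) * (S * τ1) ≤ β * (S * τ1) :=
                mul_le_mul_of_nonneg_right h2 (by positivity)
            _ ≤ β * NN p a δ s μ K c := mul_le_mul_of_nonneg_left h6 hβ
        have h10 : ((α + δ) * (b * μ)) * (S * τ2) ≤ α * (S * τ2) :=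
          mul_le_mul_of_nonneg_right h1 (by positivity)
        rw [e1, e2]
        linarith
    have h11 : (1 + β) * (NN p a δ s μ K c + NN p a δ s μ K (fun n => c (2 ^ K + n))) ≤
        (1 + β) * NN p a δ s μ (K + 1) c := mul_le_mul_of_nonneg_left hrec' (by linarith)
    rw [hrec]
    linarith

/-- the vectors realising the energy -/
theorem exists_o (hp : 0 < p) (ha : 0 ≤ a) (hδ : 0 ≤ δ) (hs : 0 ≤ s) (hμ : 0 ≤ μ) (K : ℕ) :
    ∃ (D : ℕ) (o : ℕ → ℕ → ℝ), (∀ n d, 0 ≤ o n d) ∧
      ∀ c : ℕ → ℝ, blk p (2 ^ K) D o c = NN p a δ s μ K c := by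
  induction K with
  | zero =>
    refine ⟨1, fun _ _ => s ^ (1 / p), fun _ _ => Real.rpow_nonneg hs _, fun c => ?_⟩
    simp only [blk, NN, pow_zero, Finset.sum_range_one]
    rw [abs_mul, Real.mul_rpow (abs_nonneg _) (abs_nonneg _),
      abs_of_nonneg (Real.rpow_nonneg hs _), ← Real.rpow_mul hs, one_div, inv_mul_cancel₀ hp.ne',
      Real.rpow_one]
    ring
  | succ K ih =>
    obtain ⟨D, o, ho, hblk⟩ := ih
    set q : ℝ := δ * a * s * μ ^ K with hq
    have hq0 : 0 ≤ q := by positivity
    set r : ℝ := q ^ (1 / p) with hr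
    have hr0 : 0 ≤ r := Real.rpow_nonneg hq0 _
    have hrp : r ^ p = q := by
      rw [hr, ← Real.rpow_mul hq0, one_div, inv_mul_cancel₀ hp.ne', Real.rpow_one]
    refine ⟨D + D + 1, fun n d => if n < 2 ^ K then (if d < D then o n d else if d < D + D then 0
      else r) else (if d < D then 0 else if d < D + D then o (n - 2 ^ K) (d - D) else r), ?_, ?_⟩
    · intro n d
      dsimp only
      split_ifs
      · exact ho _ _
      · exact le_rfl
      · exact hr0
      · exact le_rfl
      · exact ho _ _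
      · exact hr0
    · intro c
      unfold blk
      rw [Finset.sum_range_succ, Finset.sum_range_add]
      simp only [NN]
      congr 1
      · congr 1
        · rw [← hblk c, blk]
          refine Finset.sum_congr rfl fun d hd => ?_
          have hd' := Finset.mem_range.1 hd
          congr 2
          rw [sum_split]
          have z : ∑ n ∈ range (2 ^ K), c (2 ^ K + n) * (if 2 ^ K + n < 2 ^ K then
              (if d < D then o (2 ^ K + n) d else if d < D + D then 0 else r) else
              (if d < D then 0 else if d < D + D then o (2 ^ K + n - 2 ^ K) (d - D) else r)) = 0 := by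
            refine Finset.sum_eq_zero fun n _ => ?_
            rw [if_neg (by omega), if_pos hd', mul_zero]
          rw [z, add_zero]
          refine Finset.sum_congr rfl fun n hn => ?_
          rw [if_pos (Finset.mem_range.1 hn), if_pos hd']
        · rw [← hblk (fun n => c (2 ^ K + n)), blk]
          refine Finset.sum_congr rfl fun d hd => ?_
          have hd' := Finset.mem_range.1 hd
          congr 2
          rw [sum_split]
          have z : ∑ n ∈ range (2 ^ K), c n * (if n < 2 ^ K then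
              (if D + d < D then o n (D + d) else if D + d < D + D then 0 else r) else
              (if D + d < D then 0 else if D + d < D + D then o (n - 2 ^ K) (D + d - D) else r))
              = 0 := by
            refine Finset.sum_eq_zero fun n hn => ?_
            rw [if_pos (Finset.mem_range.1 hn), if_neg (by omega), if_pos (by omega), mul_zero]
          rw [z, zero_add]
          refine Finset.sum_congr rfl fun n hn => ?_
          rw [if_neg (by omega), if_neg (by omega), if_pos (by omega)]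
          congr 2 <;> omega
      · have z : ∑ n ∈ range (2 ^ (K + 1)), c n * (if n < 2 ^ K then
              (if D + D < D then o n (D + D) else if D + D < D + D then 0 else r) else
              (if D + D < D then 0 else if D + D < D + D then o (n - 2 ^ K) (D + D - D) else r))
              = (∑ n ∈ range (2 ^ (K + 1)), c n) * r := by
            rw [Finset.sum_mul]
            refine Finset.sum_congr rfl fun n _ => ?_
            split_ifs <;> first | rfl | omega
        rw [z, abs_mul, Real.mul_rpow (abs_nonneg _) (abs_nonneg _), abs_of_nonneg hr0, hrp]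
        ring

end AX

open AX in
theorem stmA : StmA := by
  intro p hp η hη
  have hp0 : 0 < p := by linarith
  set a : ℝ := (2 : ℝ) ^ (1 - p) with ha
  set b : ℝ := (3 / 4 : ℝ) ^ (1 - p) with hb
  set C : ℝ := (1 / 4 : ℝ) ^ (1 - p) with hC
  have ha0 : 0 < a := Real.rpow_pos_of_pos (by norm_num) _
  have hb0 : 0 < b := Real.rpow_pos_of_pos (by norm_num) _
  have hC0 : 0 < C := Real.rpow_pos_of_pos (by norm_num) _
  have hab : b * a < 1 := by
    rw [ha, hb, ← Real.mul_rpow (by norm_num) (by norm_num)]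
    exact Real.rpow_lt_one_of_one_lt_of_neg (by norm_num) (by linarith)
  -- the constants
  set r : ℝ := (1 + b * a) / 2 with hr
  have hba0 : 0 < b * a := mul_pos hb0 ha0
  have hr1 : r < 1 := by rw [hr]; linarith
  have hr0 : 0 < r := by rw [hr]; linarith
  have hbar : b * a < r := by rw [hr]; linarith
  set A : ℝ := r / (1 - r) with hA
  have hA0 : 0 < A := div_pos hr0 (by linarith)
  have hA1 : (A + 1) * r = A := by
    have hr1' : 1 - r ≠ 0 := by linarith
    rw [hA]; field_simp; ring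
  set B : ℝ := (A + 1) * (C * (a * 2)) + A with hB
  have hB0 : 0 < B := by positivity
  set δ : ℝ := min 1 (min ((r - b * a) / (b * a)) (η / B)) with hδ
  have hδ0 : 0 < δ := by
    rw [hδ]
    refine lt_min one_pos (lt_min (div_pos (by linarith) hba0) (div_pos hη hB0))
  have hδ1 : δ ≤ 1 := min_le_left _ _
  have hδ2 : δ ≤ (r - b * a) / (b * a) := (min_le_right _ _).trans (min_le_left _ _)
  have hδ3 : δ ≤ η / B := (min_le_right _ _).trans (min_le_right _ _)
  have hδ2' : δ * (b * a) ≤ r - b * a := (le_div_iff₀ hba0).1 hδ2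
  have hδ3' : δ * B ≤ η := (le_div_iff₀ hB0).1 hδ3
  set μ : ℝ := a * (1 + δ) with hμ
  have hμ0 : 0 < μ := by positivity
  set α : ℝ := δ * A with hα
  have hα0 : 0 ≤ α := by positivity
  have h1 : (α + δ) * (b * μ) ≤ α := by
    have : b * μ ≤ r := by rw [hμ]; nlinarith
    calc (α + δ) * (b * μ) ≤ (α + δ) * r := mul_le_mul_of_nonneg_left this (by positivity)
      _ = δ * ((A + 1) * r) := by rw [hα]; ring
      _ = α := by rw [hA1]
  have h2 : (α + δ) * (C * μ) ≤ η := by
    have h3 : C * μ ≤ C * (a * 2) := by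
      refine mul_le_mul_of_nonneg_left ?_ hC0.le
      rw [hμ]
      exact mul_le_mul_of_nonneg_left (by linarith) ha0.le
    calc (α + δ) * (C * μ) ≤ (α + δ) * (C * (a * 2)) :=
          mul_le_mul_of_nonneg_left h3 (by positivity)
      _ = δ * ((A + 1) * (C * (a * 2))) := by rw [hα]; ring
      _ ≤ δ * B := mul_le_mul_of_nonneg_left (by rw [hB]; linarith) hδ0.le
      _ ≤ η := hδ3'
  have h3 : α ≤ η := by
    calc α = δ * A := rfl
      _ ≤ δ * B := mul_le_mul_of_nonneg_left (by rw [hB]; nlinarith [mul_pos (by positivity : (0 : ℝ) < A + 1) (by positivity : (0 : ℝ) < C * (a * 2))]) hδ0.le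
      _ ≤ η := hδ3'
  -- the number of steps
  obtain ⟨K0, hK0⟩ : ∃ K0 : ℕ, 1 / (η ^ p * η) < (1 + δ) ^ K0 :=
    pow_unbounded_of_one_lt _ (by linarith)
  set K : ℕ := K0 + 1 with hK
  have hηp : 0 < η ^ p := Real.rpow_pos_of_pos hη _
  have hK1 : 1 ≤ η ^ p * (η * (1 + δ) ^ K) := by
    have h4 : (1 + δ) ^ K0 ≤ (1 + δ) ^ K := pow_le_pow_right₀ (by linarith) (by omega)
    have h5 : 1 / (η ^ p * η) ≤ (1 + δ) ^ K := hK0.le.trans h4
    rw [div_le_iff₀ (by positivity)] at h5
    linarith [h5]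
  obtain ⟨D, o, ho, hblk⟩ := exists_o (p := p) (a := a) (δ := δ) (s := η) (μ := μ) hp0 ha0.le
    hδ0.le hη.le hμ0.le K
  refine ⟨2 ^ K, D, o, ?_⟩
  constructor
  · rw [hK, pow_succ]; exact even_two.mul_left _
  · rw [hK, pow_succ]
    have : 1 ≤ 2 ^ K0 := Nat.one_le_two_pow
    omega
  · exact ho
  · intro c m _
    rw [hblk, hblk]
    have h := NN_trunc (K := K) hp.le ha hδ0.le hη.le hμ hb hC hα0 h1 h2 h3 c m
    have h' : 0 ≤ α * (η * μ ^ K * |∑ n ∈ range (2 ^ K), if n < m then c n else 0| ^ p) := by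
      positivity
    linarith
  · intro c
    rw [hblk]
    have h := NN_flat hp.le ha hδ0.le hη.le hμ K c
    have e1 : ((2 ^ K : ℕ) : ℝ) ^ (p - 1) * a ^ K = 1 := by
      rw [ha]
      push_cast
      rw [← Real.rpow_natCast ((2 : ℝ) ^ (1 - p)) K, ← Real.rpow_natCast (2 : ℝ) K,
        ← Real.rpow_mul (by norm_num), ← Real.rpow_mul (by norm_num), ← Real.rpow_add (by norm_num)]
      have : (K : ℝ) * (p - 1) + (1 - p) * K = 0 := by ring
      rw [this, Real.rpow_zero]
    have e2 : η ^ p * ((2 ^ K : ℕ) : ℝ) ^ (p - 1) * (η * μ ^ K) =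
        (((2 ^ K : ℕ) : ℝ) ^ (p - 1) * a ^ K) * (η ^ p * (η * (1 + δ) ^ K)) := by
      rw [hμ, mul_pow]; ring
    have hM0 : 0 ≤ η ^ p * ((2 ^ K : ℕ) : ℝ) ^ (p - 1) := by positivity
    have hT : 0 ≤ |∑ n ∈ range (2 ^ K), c n| ^ p := by positivity
    calc |∑ n ∈ range (2 ^ K), c n| ^ p
        ≤ (η ^ p * (η * (1 + δ) ^ K)) * |∑ n ∈ range (2 ^ K), c n| ^ p :=
          le_mul_of_one_le_left hT hK1
      _ = η ^ p * ((2 ^ K : ℕ) : ℝ) ^ (p - 1) * (η * μ ^ K * |∑ n ∈ range (2 ^ K), c n| ^ p) := by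
          rw [← mul_assoc (η ^ p * ((2 ^ K : ℕ) : ℝ) ^ (p - 1)), e2, e1, one_mul]
      _ ≤ _ := mul_le_mul_of_nonneg_left h hM0
  · rw [hblk]
    have h := NN_alt (a := a) (δ := δ) (s := η) (μ := μ) hp0 K 1 (by simp)
    simp only [one_mul] at h
    rw [h]
    push_cast
    rw [mul_comm]

end Pool.Agent.R270.NB
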