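import Pool.Agent.R270.NB.Stm

/-! Project NB: assembly. -/

namespace Pool.Agent.R270.NB
open Finset MeasureTheory Filter Topology
open scoped ENNReal

theorem core_exists (hA : StmA) (hB : StmB) (hP : StmP1) (p : ℝ) (hp : 1 ≤ p) (ε : ℝ) (hε : 0 < ε) :
    ∃ (M D : ℕ → ℕ) (o : ℕ → ℕ → ℕ → ℝ), Core p ε M D o := by
  rcases hp.lt_or_eq with h | h
  · obtain ⟨η, h1, h2, h3⟩ := hB p h ε hε
    choose M D o hF using fun k => hA p h (η k) (h1 k)
    refine ⟨M, D, o, ⟨fun k => (hF k).even, fun k => (hF k).two, fun k => (hF k).nonneg,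
      ⟨η, fun k => (h1 k).le, h2, fun k => (hF k).alt⟩, h3 M D o hF⟩⟩
  · subst h
    exact hP ε hε

theorem sc_pos {M : ℕ → ℕ} (h : ∀ k, 2 ≤ M k) : ∀ k, 0 < sc M k
  | 0 => by simp [sc]
  | k + 1 => by
    have := sc_pos h k
    have := h k
    simp only [sc]
    positivity

theorem cnt_pos {M : ℕ → ℕ} (h : ∀ k, 2 ≤ M k) (k : ℕ) : 0 < cnt M k := by
  have := sc_pos h k
  have := h k
  unfold cnt
  positivity

theorem blk_nonneg (p : ℝ) (M D : ℕ) (o : ℕ → ℕ → ℝ) (c : ℕ → ℝ) : 0 ≤ blk p M D o c :=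
  sum_nonneg fun _ _ => Real.rpow_nonneg (abs_nonneg _) _

theorem outE_nonneg (p : ℝ) (M D : ℕ → ℕ) (o : ℕ → ℕ → ℕ → ℝ) (c : ℕ → ℕ → ℝ) (K : ℕ) : 0 ≤ outE p M D o c K :=
  sum_nonneg fun _ _ => sum_nonneg fun _ _ => blk_nonneg _ _ _ _ _

/-- coefficients of a single vector -/
noncomputable def single (k0 i0 : ℕ) : ℕ → ℕ → ℝ := fun k i => if k = k0 ∧ i = i0 then 1 else 0

theorem inn_single_zero {p : ℝ} {M : ℕ → ℕ} {k0 i0 : ℕ} : ∀ k i, k ≤ k0 → inn p M (single k0 i0) k i = 0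
  | 0, _, _ => rfl
  | k + 1, i, h => by
    have h1 : k ≠ k0 := by omega
    have h2 : inn p M (single k0 i0) k (i / M k) = 0 := inn_single_zero k (i / M k) (by omega)
    simp only [inn, h2, single, h1, false_and, if_false, zero_mul, ite_self, add_zero]

theorem ne_zero {Z : Type*} [NormedAddCommGroup Z] [NormedSpace ℝ Z] {p : ℝ} (hp : 1 ≤ p) {M D : ℕ → ℕ}
    {o : ℕ → ℕ → ℕ → ℝ} {f : ℕ → ℕ → Z} (hM : ∀ k, 2 ≤ M k) (hf : NormFormula p M D o f) {k0 i0 : ℕ}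
    (hi : i0 < cnt M k0) : f k0 i0 ≠ 0 := by
  intro h0
  have h1 := hf (single k0 i0) (k0 + 1)
  have h2 : ∑ k ∈ range (k0 + 1), ∑ i ∈ range (cnt M k), single k0 i0 k i • f k i = f k0 i0 := by
    rw [Finset.sum_eq_single k0]
    · rw [Finset.sum_eq_single i0]
      · simp [single]
      · intro i _ hne; simp [single, hne]
      · intro h; exact absurd (mem_range.2 hi) h
    · intro k _ hne; apply Finset.sum_eq_zero; intro i _; simp [single, hne]
    · intro h; exact absurd (mem_range.2 (Nat.lt_succ_self k0)) h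
  rw [h2, h0, norm_zero] at h1
  have hpos : 0 < en p M D o (single k0 i0) (k0 + 1) := by
    have ho := outE_nonneg p M D o (single k0 i0) (k0 + 1)
    have hs : 0 < (sc M (k0 + 1) : ℝ) := by exact_mod_cast sc_pos hM (k0 + 1)
    have hin : 0 < inE p M (single k0 i0) (k0 + 1) := by
      unfold inE
      apply div_pos _ hs
      apply sum_pos' (fun i _ => Real.rpow_nonneg (abs_nonneg _) _)
      refine ⟨i0, mem_range.2 ?_, ?_⟩
      · have : cnt M k0 = (k0 + 1) * sc M (k0 + 1) := by simp [cnt, sc, mul_assoc]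
        rw [← this]; exact hi
      · apply Real.rpow_pos_of_pos
        rw [abs_pos]
        simp only [inn]
        rw [inn_single_zero k0 _ le_rfl]
        simp only [single, hi, if_true, zero_add, and_self, one_mul]
        exact (Real.rpow_pos_of_pos hs _).ne'
    unfold en; linarith
  have := Real.rpow_pos_of_pos hpos (1 / p)
  linarith

theorem assembly (hA : StmA) (hB : StmB) (hP : StmP1) (hC : StmC) (hD : StmD) (hE : StmE) (hG : StmG) (hH : StmH)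
    (p : ℝ≥0∞) [Fact (1 ≤ p)] (hp : p ≠ ∞) (ε : ℝ) (hε : 0 < ε) :
    ∃ f : ℕ → Lp ℝ p (volume : Measure ℝ), (∀ n, 0 ≤ f n) ∧ (∀ n, f n ≠ 0) ∧
      (∀ x ∈ (Submodule.span ℝ (Set.range f)).topologicalClosure,
        ∃! a : ℕ → ℝ, Tendsto (fun N => ∑ n ∈ range N, a n • f n) atTop (𝓝 x)) ∧
      (∀ x ∈ (Submodule.span ℝ (Set.range f)).topologicalClosure, ∀ a : ℕ → ℝ,
        Tendsto (fun N => ∑ n ∈ range N, a n • f n) atTop (𝓝 x) →
        ∀ N, ‖∑ n ∈ range N, a n • f n‖ ≤ (1 + ε) * ‖x‖) ∧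
      ∃ T : Lp ℝ p (volume : Measure ℝ) →L[ℝ] Lp ℝ p (volume : Measure ℝ), (∀ g, ‖g‖ ≤ ‖T g‖) ∧
        ∀ g, T g ∈ (Submodule.span ℝ (Set.range f)).topologicalClosure := by
  have hp1 : 1 ≤ p.toReal := by
    have h1 : (1 : ℝ≥0∞) ≤ p := Fact.out
    rw [← ENNReal.toReal_one]
    exact (ENNReal.toReal_le_toReal ENNReal.one_ne_top hp).2 h1
  obtain ⟨M, D, o, hc⟩ := core_exists hA hB hP p.toReal hp1 ε hε
  obtain ⟨f, hf0, hf⟩ := hC p hp M D o hc.two hc.nonneg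
  obtain ⟨g, hg1, hg2, hg3⟩ := hH (Lp ℝ p (volume : Measure ℝ)) (cnt M) f (1 + ε) (by linarith) (cnt_pos hc.two) (by
    intro c K k0 J h1 h2
    rw [hf (cut k0 J c) K, hf c K]
    exact hc.propB c K k0 J h1 h2)
  have hgne : ∀ n, g n ≠ 0 := by
    intro n
    obtain ⟨k, i, hi, h⟩ := hg1 n
    rw [h]; exact ne_zero hp1 hc.two hf hi
  obtain ⟨hS1, hS2⟩ := hG (Lp ℝ p (volume : Measure ℝ)) g (1 + ε) (by linarith) hgne hg3
  obtain ⟨e, he1, he2, he3⟩ := hD (Lp ℝ p (volume : Measure ℝ)) p.toReal M D o f hp1 hc.even hc.two hc.alt hf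
  obtain ⟨T, hT1, hT2⟩ := hE (Lp ℝ p (volume : Measure ℝ)) p e hp he2 he3
  refine ⟨g, ?_, hgne, hS1, hS2, T, hT1, fun x => ?_⟩
  · intro n
    obtain ⟨k, i, _, h⟩ := hg1 n
    rw [h]; exact hf0 k i
  · refine Submodule.topologicalClosure_mono ?_ (hT2 x)
    rw [Submodule.span_le]
    rintro z ⟨L, i, t, rfl⟩
    refine Submodule.span_mono ?_ (he1 L i t)
    rintro z ⟨k, i, hi, rfl⟩
    obtain ⟨n, hn⟩ := hg2 k i hi
    exact ⟨n, hn⟩

end Pool.Agent.R270.NB
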