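import Pool.Agent.R270.NB.Stm

/-! Project NB, piece B: good blocks give partial sum projections of norm at most `1+ε`. -/

namespace Pool.Agent.R270.NB
open Finset

namespace PB

lemma sum_range_mul' (f : ℕ → ℝ) (L M : ℕ) :
    ∑ i ∈ range (L * M), f i = ∑ j ∈ range L, ∑ n ∈ range M, f (j * M + n) := by
  induction L with
  | zero => simp
  | succ L ih => rw [Nat.succ_mul, Finset.sum_range_add, ih, Finset.sum_range_succ]

lemma sc_pos (M : ℕ → ℕ) (hM : ∀ k, 2 ≤ M k) (k : ℕ) : 0 < sc M k := by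
  induction k with
  | zero => simp [sc]
  | succ k ih => exact Nat.mul_pos ih (lt_of_lt_of_le two_pos (hM k))

lemma cnt_eq (M : ℕ → ℕ) (k : ℕ) : cnt M k = (k + 1) * sc M (k + 1) := by
  simp [cnt, sc, mul_assoc]

/-- the inner part vanishes outside of `[0,k)` -/
lemma inn_zero (p : ℝ) (M : ℕ → ℕ) (hM : ∀ k, 2 ≤ M k) (c : ℕ → ℕ → ℝ) :
    ∀ (k i : ℕ), k * sc M k ≤ i → inn p M c k i = 0 := by
  intro k
  induction k with
  | zero => intro i _; rfl
  | succ k ih =>
    intro i hi
    have h1 : ¬ i < cnt M k := by rw [cnt_eq]; omega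
    have h2 : (k + 1) * sc M k ≤ i / M k := by
      rw [Nat.le_div_iff_mul_le (lt_of_lt_of_le two_pos (hM k))]
      simpa [sc, mul_assoc] using hi
    have h3 : k * sc M k ≤ (k + 1) * sc M k := Nat.mul_le_mul_right _ (Nat.le_succ k)
    simp [inn, h1, ih _ (h3.trans h2)]

lemma nr_nonneg (p : ℝ) (s R : ℕ) (F : ℕ → ℝ) : 0 ≤ nr p s R F := by
  unfold nr
  positivity

lemma nr_congr (p : ℝ) (s R : ℕ) (F G : ℕ → ℝ) (h : ∀ i < R, F i = G i) : nr p s R F = nr p s R G := by
  unfold nr
  rw [Finset.sum_congr rfl fun i hi => by rw [h i (Finset.mem_range.1 hi)]]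

/-- enlarging the range does not matter -/
lemma nr_ext (p : ℝ) (hp : 0 < p) (s R R' : ℕ) (hR : R ≤ R') (F : ℕ → ℝ) (h : ∀ i, R ≤ i → F i = 0) :
    nr p s R' F = nr p s R F := by
  unfold nr
  congr 2
  symm
  apply Finset.sum_subset (Finset.range_mono hR)
  intro i _ hi
  rw [h i (by simpa using hi), abs_zero, Real.zero_rpow hp.ne']

/-- lifting to a finer scale -/
lemma nr_lift (p : ℝ) (s L M : ℕ) (hM : 0 < M) (U : ℕ → ℝ) :
    nr p (s * M) (L * M) (fun i => U (i / M)) = nr p s L U := by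
  unfold nr
  congr 1
  rw [sum_range_mul']
  have h1 : ∀ j ∈ range L, ∑ n ∈ range M, |U ((j * M + n) / M)| ^ p = M * |U j| ^ p := by
    intro j _
    have h2 : ∀ n ∈ range M, |U ((j * M + n) / M)| ^ p = |U j| ^ p := by
      intro n hn
      rw [Nat.add_comm, Nat.add_mul_div_right _ _ hM, Nat.div_eq_of_lt (Finset.mem_range.1 hn),
        Nat.zero_add]
    rw [Finset.sum_congr rfl h2, Finset.sum_const, Finset.card_range, nsmul_eq_mul]
  rw [Finset.sum_congr rfl h1, ← Finset.mul_sum]
  have hM' : (M : ℝ) ≠ 0 := by exact_mod_cast hM.ne'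
  push_cast
  rw [mul_comm (s : ℝ), mul_div_mul_left _ _ hM']

lemma nr_rpow (p : ℝ) (hp : 0 < p) (M : ℕ → ℕ) (c : ℕ → ℕ → ℝ) (K : ℕ) :
    nr p (sc M K) (K * sc M K) (inn p M c K) ^ p = inE p M c K := by
  unfold nr inE
  rw [← Real.rpow_mul (by positivity), one_div, inv_mul_cancel₀ hp.ne', Real.rpow_one]

lemma blk_nonneg (p : ℝ) (M D : ℕ) (o : ℕ → ℕ → ℝ) (c : ℕ → ℝ) : 0 ≤ blk p M D o c := by
  unfold blk; positivity

lemma outS_nonneg (p : ℝ) (M D : ℕ) (o : ℕ → ℕ → ℝ) (L : ℕ) (c : ℕ → ℝ) : 0 ≤ outS p M D o L c :=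
  Finset.sum_nonneg fun _ _ => blk_nonneg _ _ _ _ _

lemma blk_congr (p : ℝ) (M D : ℕ) (o : ℕ → ℕ → ℝ) (c c' : ℕ → ℝ) (h : ∀ n < M, c n = c' n) :
    blk p M D o c = blk p M D o c' := by
  unfold blk
  refine Finset.sum_congr rfl fun d _ => ?_
  rw [Finset.sum_congr rfl fun n hn => by rw [h n (Finset.mem_range.1 hn)]]

lemma blk_zero (p : ℝ) (hp : 0 < p) (M D : ℕ) (o : ℕ → ℕ → ℝ) : blk p M D o (fun _ => 0) = 0 := by
  unfold blk
  simp [Real.zero_rpow hp.ne']

/-- outer energy of the cut stage -/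
lemma outS_cut (p η : ℝ) (M D : ℕ) (o : ℕ → ℕ → ℝ) (hF : IsF p η M D o) (L J : ℕ) (c : ℕ → ℝ) :
    outS p M D o L (fun i => if i < J then c i else 0) ≤ (1 + η) * outS p M D o L c := by
  unfold outS
  rw [Finset.mul_sum]
  refine Finset.sum_le_sum fun j _ => ?_
  have h := hF.trunc (fun n => c (j * M + n)) (min (J - j * M) M) (min_le_right _ _)
  refine le_trans (le_of_eq ?_) h
  apply blk_congr
  intro n hn
  have : j * M + n < J ↔ n < min (J - j * M) M := by
    rw [lt_min_iff]; omega
  simp only [this]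

lemma inn_congr (p : ℝ) (M : ℕ → ℕ) (c c' : ℕ → ℕ → ℝ) :
    ∀ k, (∀ l < k, ∀ i, c l i = c' l i) → ∀ i, inn p M c k i = inn p M c' k i := by
  intro k
  induction k with
  | zero => intro _ i; rfl
  | succ k ih =>
    intro h i
    simp only [inn]
    rw [ih (fun l hl => h l (hl.trans (Nat.lt_succ_self k))), h k (Nat.lt_succ_self k)]

/-- Minkowski in the plane -/
lemma mink2 (p A B a : ℝ) (hp : 1 ≤ p) (hA : 0 ≤ A) (hB : 0 ≤ B) (ha : 0 ≤ a) :
    ((A + a) ^ p + B ^ p) ^ (1 / p) ≤ (A ^ p + B ^ p) ^ (1 / p) + a := by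
  have hp0 : 0 < p := lt_of_lt_of_le one_pos hp
  have h := Real.Lp_add_le (Finset.univ : Finset (Fin 2)) (![A, B]) (![a, 0]) hp
  simp only [Fin.sum_univ_two, Matrix.cons_val_zero, Matrix.cons_val_one, abs_of_nonneg hA,
    abs_of_nonneg hB, abs_of_nonneg ha, abs_of_nonneg (add_nonneg hA ha), add_zero, abs_zero,
    Real.zero_rpow hp0.ne'] at h
  rwa [← Real.rpow_mul ha, mul_one_div_cancel hp0.ne', Real.rpow_one] at h

end PB

open PB

theorem stmB : StmOne → StmMid → StmB := by
  intro hOne hMid p hp ε0 hε0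
  have hp0 : 0 < p := lt_trans one_pos hp
  set ε : ℝ := min ε0 1 with hεdef
  have hε : 0 < ε := lt_min hε0 one_pos
  have hε1 : ε ≤ 1 := min_le_right _ _
  obtain ⟨η0, hη0, hmid⟩ := hMid p hp (ε / 8) (by positivity)
  set m : ℝ := min η0 (ε / 8) with hmdef
  have hm : 0 < m := lt_min hη0 (by positivity)
  have hm0 : m ≤ η0 := min_le_left _ _
  have hm8 : m ≤ ε / 8 := min_le_right _ _
  have hsum : ∀ K, ∑ k ∈ range K, m / 2 ^ (k + 1) ≤ m := by
    intro K
    have : ∑ k ∈ range K, m / 2 ^ (k + 1) = m - m / 2 ^ K := by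
      induction K with
      | zero => simp
      | succ K ih => rw [Finset.sum_range_succ, ih, pow_succ]; field_simp; ring
    rw [this]
    have : 0 ≤ m / 2 ^ K := by positivity
    linarith
  refine ⟨fun k => m / 2 ^ (k + 1), fun k => by positivity, fun K => (hsum K).trans (by linarith), ?_⟩
  intro M D o hF c K k0 J hk0 hJ
  have hη : ∀ k, m / 2 ^ (k + 1) ≤ m := fun k =>
    div_le_self hm.le (one_le_pow₀ (by norm_num))
  have hM2 : ∀ k, 2 ≤ M k := fun k => (hF k).two
  have hMpos : ∀ k, 0 < M k := fun k => lt_of_lt_of_le two_pos (hM2 k)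
  -- notation
  set A : ℕ → ℝ := fun k => nr p (sc M k) (k * sc M k) (inn p M c k) with hAdef
  set O : ℕ → ℝ := fun k => outS p (M k) (D k) (o k) ((k + 1) * sc M k) (c k) with hOdef
  have hO0 : ∀ k, 0 ≤ O k := fun k => outS_nonneg _ _ _ _ _ _
  have hA0 : ∀ k, 0 ≤ A k := fun k => nr_nonneg _ _ _ _
  have hoE : outE p M D o c K = ∑ k ∈ range K, O k := rfl
  have hoE0 : 0 ≤ outE p M D o c K := by rw [hoE]; exact Finset.sum_nonneg fun k _ => hO0 k
  have hiE : inE p M c K = A K ^ p := (nr_rpow p hp0 M c K).symm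
  have hen : en p M D o c K = A K ^ p + outE p M D o c K := by rw [en, hiE]
  have hen0 : 0 ≤ en p M D o c K := by rw [hen]; have := hA0 K; positivity
  set e : ℝ := (en p M D o c K) ^ (1 / p) with hedef
  have he0 : 0 ≤ e := by positivity
  have hep : e ^ p = en p M D o c K := by
    rw [hedef, ← Real.rpow_mul hen0, one_div, inv_mul_cancel₀ hp0.ne', Real.rpow_one]
  have hAe : A K ≤ e := by
    rw [hedef]
    calc A K = (A K ^ p) ^ (1 / p) := by
          rw [← Real.rpow_mul (hA0 K), mul_one_div_cancel hp0.ne', Real.rpow_one]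
      _ ≤ _ := by
          apply Real.rpow_le_rpow (by have := hA0 K; positivity) _ (by positivity)
          rw [hen]; linarith
  have hOe : ∀ k < K, (O k) ^ (1 / p) ≤ e := by
    intro k hk
    rw [hedef]
    apply Real.rpow_le_rpow (hO0 k) _ (by positivity)
    rw [hen, hoE]
    have h1 : O k ≤ ∑ k ∈ range K, O k :=
      Finset.single_le_sum (fun k _ => hO0 k) (Finset.mem_range.2 hk)
    have h2 : 0 ≤ A K ^ p := by have := hA0 K; positivity
    linarith
  -- extension of the range
  have hAext : ∀ k, nr p (sc M k) ((k + 1) * sc M k) (inn p M c k) = A k := fun k =>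
    nr_ext p hp0 _ _ _ (Nat.mul_le_mul_right _ (Nat.le_succ k)) _ (inn_zero p M hM2 c k)
  -- one step
  have hstep : ∀ k < K, A k ≤ A (k + 1) + m / 2 ^ (k + 1) * e := by
    intro k hk
    have h := hOne p (m / 2 ^ (k + 1)) (M k) (D k) (o k) hp (by positivity) (hF k) (sc M k)
      ((k + 1) * sc M k) (inn p M c k) (c k) (sc_pos M hM2 k)
    rw [hAext] at h
    have h2 : nr p (sc M k * M k) ((k + 1) * sc M k * M k) (fun i => inn p M c k (i / M k)
        + c k i * ((sc M k * M k : ℕ) : ℝ) ^ (1 / p)) = A (k + 1) := by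
      rw [hAdef]
      simp only []
      have h3 : (k + 1) * sc M (k + 1) = (k + 1) * sc M k * M k := by simp [sc, mul_assoc]
      rw [h3]
      apply nr_congr
      intro i hi
      simp only [inn]
      rw [if_pos (by simpa [cnt] using hi)]
      rfl
    rw [h2] at h
    refine h.trans ?_
    have : m / 2 ^ (k + 1) * outS p (M k) (D k) (o k) ((k + 1) * sc M k) (c k) ^ (1 / p)
        ≤ m / 2 ^ (k + 1) * e := mul_le_mul_of_nonneg_left (hOe k hk) (by positivity)
    linarith
  have hmono : ∀ k ≤ K, A k ≤ A K + ε / 8 * e := by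
    have key : ∀ n k, k + n = K → A k ≤ A K + (∑ l ∈ range K, m / 2 ^ (l + 1)
        - ∑ l ∈ range k, m / 2 ^ (l + 1)) * e := by
      intro n
      induction n with
      | zero => intro k hk; rw [Nat.add_zero] at hk; rw [hk]; simp
      | succ n ih =>
        intro k hk
        have h1 := ih (k + 1) (by omega)
        have h2 := hstep k (by omega)
        rw [Finset.sum_range_succ] at h1
        linarith
    intro k hk
    have h1 := key (K - k) k (by omega)
    have h2 : (∑ l ∈ range K, m / 2 ^ (l + 1) - ∑ l ∈ range k, m / 2 ^ (l + 1)) ≤ ε / 8 := by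
      have h3 : 0 ≤ ∑ l ∈ range k, m / 2 ^ (l + 1) := Finset.sum_nonneg fun l _ => by positivity
      linarith [hsum K]
    have := mul_le_mul_of_nonneg_right h2 he0
    linarith
  -- the cut sequence
  set c' := cut k0 J c with hc'
  set A' : ℕ → ℝ := fun k => nr p (sc M k) (k * sc M k) (inn p M c' k) with hA'def
  have hlow : ∀ k < k0, ∀ i, c' k i = c k i := fun k hk i => by simp [hc', cut, hk]
  have hmidc : ∀ i, c' k0 i = if i < J then c k0 i else 0 := fun i => by simp [hc', cut]
  have hhigh : ∀ k, k0 < k → ∀ i, c' k i = 0 := fun k hk i => by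
    simp only [hc', cut]
    rw [if_neg]
    rintro (h | h)
    · omega
    · omega
  have hA'ext : ∀ k, nr p (sc M k) ((k + 1) * sc M k) (inn p M c' k) = A' k := fun k =>
    nr_ext p hp0 _ _ _ (Nat.mul_le_mul_right _ (Nat.le_succ k)) _ (inn_zero p M hM2 c' k)
  have hup : ∀ k, k0 < k → A' (k + 1) = A' k := by
    intro k hk
    rw [← hA'ext k, ← nr_lift p (sc M k) _ (M k) (hMpos k)]
    rw [hA'def]
    simp only []
    have h3 : (k + 1) * sc M (k + 1) = (k + 1) * sc M k * M k := by simp [sc, mul_assoc]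
    rw [h3]
    apply nr_congr
    intro i _
    simp only [inn]
    rw [hhigh k hk]
    simp
  have hA'K : A' K = A' (k0 + 1) := by
    have key : ∀ n, A' (k0 + 1 + n) = A' (k0 + 1) := by
      intro n
      induction n with
      | zero => rfl
      | succ n ih => rw [← add_assoc, hup _ (by omega), ih]
    have := key (K - (k0 + 1))
    rwa [show k0 + 1 + (K - (k0 + 1)) = K by omega] at this
  have hA'mid : A' (k0 + 1) ≤ A (k0 + 1) + ε / 8 * (A k0 + O k0 ^ (1 / p)) := by
    have h := hmid (m / 2 ^ (k0 + 1)) (by positivity) ((hη k0).trans hm0) (M k0) (D k0) (o k0)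
      (hF k0) (sc M k0) ((k0 + 1) * sc M k0) J (inn p M c k0) (c k0) (sc_pos M hM2 k0)
      (by simpa [cnt] using hJ)
    rw [hAext] at h
    have h3 : (k0 + 1) * sc M (k0 + 1) = (k0 + 1) * sc M k0 * M k0 := by simp [sc, mul_assoc]
    have h2 : nr p (sc M k0 * M k0) ((k0 + 1) * sc M k0 * M k0) (fun i => inn p M c k0 (i / M k0)
        + c k0 i * ((sc M k0 * M k0 : ℕ) : ℝ) ^ (1 / p)) = A (k0 + 1) := by
      rw [hAdef]
      simp only []
      rw [h3]
      apply nr_congr
      intro i hi
      simp only [inn]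
      rw [if_pos (by simpa [cnt] using hi)]
      rfl
    have h4 : nr p (sc M k0 * M k0) ((k0 + 1) * sc M k0 * M k0) (fun i => inn p M c k0 (i / M k0)
        + (if i < J then c k0 i * ((sc M k0 * M k0 : ℕ) : ℝ) ^ (1 / p) else 0)) = A' (k0 + 1) := by
      rw [hA'def]
      simp only []
      rw [h3]
      apply nr_congr
      intro i hi
      have hi' : i < cnt M k0 := by simpa [cnt] using hi
      simp only [inn, hi', if_true]
      rw [hmidc, inn_congr p M c' c k0 hlow]
      split_ifs with hiJ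
      · rfl
      · rw [zero_mul]
    rw [h2, h4] at h
    exact h
  have hAA : A' K ≤ A K + ε / 2 * e := by
    rw [hA'K]
    have h1 := hmono (k0 + 1) hk0
    have h2 := hmono k0 hk0.le
    have h3 := hOe k0 hk0
    have h4 : A k0 + O k0 ^ (1 / p) ≤ 3 * e := by
      have : ε / 8 * e ≤ e := by nlinarith
      linarith
    have h5 := mul_le_mul_of_nonneg_left h4 (by positivity : (0 : ℝ) ≤ ε / 8)
    linarith
  -- the outer energy
  have hout : outE p M D o c' K ≤ (1 + ε / 8) * outE p M D o c K := by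
    unfold outE
    rw [Finset.mul_sum]
    refine Finset.sum_le_sum fun k _ => ?_
    have hk1 := hO0 k
    rcases lt_trichotomy k k0 with hk | hk | hk
    · have : c' k = c k := funext (hlow k hk)
      rw [this]
      have : 0 ≤ ε / 8 * O k := by positivity
      show O k ≤ (1 + ε / 8) * O k
      linarith
    · subst hk
      have : c' k = fun i => if i < J then c k i else 0 := funext hmidc
      rw [this]
      refine (outS_cut p _ _ _ _ (hF k) _ J (c k)).trans ?_
      apply mul_le_mul_of_nonneg_right _ hk1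
      linarith [hη k]
    · have : c' k = fun _ => 0 := funext (hhigh k hk)
      rw [this]
      have h0 : outS p (M k) (D k) (o k) ((k + 1) * sc M k) (fun _ => 0) = 0 := by
        unfold outS
        exact Finset.sum_eq_zero fun j _ => blk_zero p hp0 _ _ _
      rw [h0]
      have : 0 ≤ (1 + ε / 8) * O k := by positivity
      exact this
  -- conclusion
  have hA'0 : 0 ≤ A' K := nr_nonneg _ _ _ _
  have hen' : en p M D o c' K = A' K ^ p + outE p M D o c' K := by
    rw [en, ← nr_rpow p hp0 M c' K]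
  have hfin : (en p M D o c' K) ^ (1 / p) ≤ (1 + ε) * e := by
    set B : ℝ := ((1 + ε / 8) * outE p M D o c K) ^ (1 / p) with hB
    have hB0 : 0 ≤ B := by positivity
    have hBp : B ^ p = (1 + ε / 8) * outE p M D o c K := by
      rw [hB, ← Real.rpow_mul (by positivity), one_div, inv_mul_cancel₀ hp0.ne', Real.rpow_one]
    have h0 : 0 ≤ outE p M D o c' K := Finset.sum_nonneg fun k _ => outS_nonneg _ _ _ _ _ _
    calc (en p M D o c' K) ^ (1 / p) ≤ ((A K + ε / 2 * e) ^ p + B ^ p) ^ (1 / p) := by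
          apply Real.rpow_le_rpow _ _ (by positivity)
          · rw [hen']; positivity
          · rw [hen', hBp]
            have := Real.rpow_le_rpow hA'0 hAA hp0.le
            linarith
      _ ≤ (A K ^ p + B ^ p) ^ (1 / p) + ε / 2 * e :=
          mink2 p _ _ _ hp.le (hA0 K) hB0 (by positivity)
      _ ≤ (1 + ε / 8) * e + ε / 2 * e := by
          have h1 : (A K ^ p + B ^ p) ^ (1 / p) ≤ ((1 + ε / 8) ^ p * e ^ p) ^ (1 / p) := by
            apply Real.rpow_le_rpow _ _ (by positivity)
            · have := hA0 K; positivity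
            · rw [hBp, hep, hen]
              have h2 : 1 + ε / 8 ≤ (1 + ε / 8) ^ p :=
                Real.self_le_rpow_of_one_le (by linarith) hp.le
              have h3 : 0 ≤ A K ^ p := by have := hA0 K; positivity
              nlinarith [mul_le_mul_of_nonneg_right h2 hoE0, mul_le_mul_of_nonneg_right h2 h3,
                mul_nonneg hε.le h3]
          have h4 : ((1 + ε / 8) ^ p * e ^ p) ^ (1 / p) = (1 + ε / 8) * e := by
            rw [← Real.mul_rpow (by positivity) he0, ← Real.rpow_mul (by positivity),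
              mul_one_div_cancel hp0.ne', Real.rpow_one]
          linarith
      _ ≤ (1 + ε) * e := by nlinarith
  refine hfin.trans ?_
  apply mul_le_mul_of_nonneg_right _ he0
  linarith [min_le_left ε0 1]

end Pool.Agent.R270.NB
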