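import Pool.Agent.R270.NB.Stm

/-! Project NB, piece C: the vectors in `L_p(ℝ)`. -/

namespace Pool.Agent.R270.NB
open Finset MeasureTheory Filter Topology
open scoped ENNReal

namespace CC

theorem sum_block (L M : ℕ) (g : ℕ → ℝ) :
    ∑ i ∈ range (L * M), g i = ∑ j ∈ range L, ∑ n ∈ range M, g (j * M + n) := by
  induction L with
  | zero => simp
  | succ L ih => rw [Nat.succ_mul, Finset.sum_range_add, ih, Finset.sum_range_succ]

/-- the inner cell -/
def cI (s i : ℕ) : Set ℝ := Set.Ico ((i : ℝ) / s) (((i : ℝ) + 1) / s)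

theorem mem_cI {s : ℕ} (hs : 0 < s) (i : ℕ) (x : ℝ) : x ∈ cI s i ↔ 0 ≤ x ∧ ⌊x * s⌋₊ = i := by
  have hs' : (0 : ℝ) < s := by exact_mod_cast hs
  unfold cI
  rw [Set.mem_Ico, div_le_iff₀ hs', lt_div_iff₀ hs']
  constructor
  · rintro ⟨h1, h2⟩
    have hx : 0 ≤ x := by
      by_contra h
      push Not at h
      have h3 : x * s < 0 := mul_neg_of_neg_of_pos h hs'
      have h4 : (0 : ℝ) ≤ i := Nat.cast_nonneg i
      linarith
    refine ⟨hx, ?_⟩
    rw [Nat.floor_eq_iff (by positivity)]
    exact ⟨h1, h2⟩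
  · rintro ⟨h1, h2⟩
    rw [Nat.floor_eq_iff (by positivity)] at h2
    exact h2

/-- the outer cell -/
def cO (q : ℕ) : Set ℝ := Set.Ico (-((q : ℝ) + 1)) (-(q : ℝ))

theorem mem_cO (q : ℕ) (x : ℝ) : x ∈ cO q ↔ ⌊x⌋ = -((q : ℤ) + 1) := by
  unfold cO
  rw [Set.mem_Ico, Int.floor_eq_iff]
  push_cast
  constructor
  · rintro ⟨h1, h2⟩
    exact ⟨h1, by linarith⟩
  · rintro ⟨h1, h2⟩
    exact ⟨h1, by linarith⟩

theorem cI_meas (s i : ℕ) : MeasurableSet (cI s i) := measurableSet_Ico
theorem cO_meas (q : ℕ) : MeasurableSet (cO q) := measurableSet_Ico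

theorem cI_fin (s i : ℕ) : volume (cI s i) ≠ ∞ := by
  unfold cI; rw [Real.volume_Ico]; exact ENNReal.ofReal_ne_top
theorem cO_fin (q : ℕ) : volume (cO q) ≠ ∞ := by
  unfold cO; rw [Real.volume_Ico]; exact ENNReal.ofReal_ne_top

theorem cI_vol (s i : ℕ) : (volume (cI s i)).toReal = 1 / s := by
  unfold cI
  rw [Real.volume_Ico, ENNReal.toReal_ofReal]
  · ring
  · rw [sub_nonneg]
    apply div_le_div_of_nonneg_right _ (Nat.cast_nonneg _)
    linarith

theorem cO_vol (q : ℕ) : (volume (cO q)).toReal = 1 := by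
  unfold cO
  rw [Real.volume_Ico, ENNReal.toReal_ofReal]
  · ring
  · linarith

theorem sc_pos (M : ℕ → ℕ) (hM : ∀ k, 2 ≤ M k) (k : ℕ) : 0 < sc M k := by
  induction k with
  | zero => exact Nat.one_pos
  | succ k ih => exact Nat.mul_pos ih (by have := hM k; omega)

theorem inn_zero (p : ℝ) (M : ℕ → ℕ) (hM : ∀ k, 2 ≤ M k) (c : ℕ → ℕ → ℝ) (K : ℕ) :
    ∀ i, K * sc M K ≤ i → inn p M c K i = 0 := by
  induction K with
  | zero => intro i _; rfl
  | succ K ih =>
    intro i hi
    have hMK := hM K
    have hi' : (K + 1) * sc M K * M K ≤ i := by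
      rw [mul_assoc]; exact hi
    unfold inn
    rw [ih (i / M K), if_neg]
    · simp
    · unfold cnt
      omega
    · rw [Nat.le_div_iff_mul_le (by omega)]
      refine le_trans ?_ hi'
      apply Nat.mul_le_mul_right
      apply Nat.mul_le_mul_right
      omega

theorem inner_eq (p : ℝ) (M : ℕ → ℕ) (hM : ∀ k, 2 ≤ M k) (c : ℕ → ℕ → ℝ) (K : ℕ) (x : ℝ)
    (hx : 0 ≤ x) :
    ∑ k ∈ range K, ∑ i ∈ range (cnt M k), c k i *
      (cI (sc M (k + 1)) i).indicator (fun _ => (sc M (k + 1) : ℝ) ^ (1 / p)) x =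
      inn p M c K ⌊x * sc M K⌋₊ := by
  induction K with
  | zero => simp [inn]
  | succ K ih =>
    rw [Finset.sum_range_succ, ih]
    have hMK : (0 : ℝ) < M K := by have := hM K; exact_mod_cast (by omega : 0 < M K)
    have e1 : ⌊x * sc M K⌋₊ = ⌊x * sc M (K + 1)⌋₊ / M K := by
      rw [← Nat.floor_div_natCast]
      congr 1
      change x * (sc M K : ℝ) = x * ((sc M K * M K : ℕ) : ℝ) / M K
      push_cast
      field_simp
    have e2 : ∀ i, c K i * (cI (sc M (K + 1)) i).indicator
        (fun _ => (sc M (K + 1) : ℝ) ^ (1 / p)) x =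
        if ⌊x * sc M (K + 1)⌋₊ = i then c K i * (sc M (K + 1) : ℝ) ^ (1 / p) else 0 := by
      intro i
      by_cases h : ⌊x * sc M (K + 1)⌋₊ = i
      · rw [if_pos h, Set.indicator_of_mem ((mem_cI (sc_pos M hM _) i x).2 ⟨hx, h⟩)]
      · rw [if_neg h, Set.indicator_of_notMem (fun h' => h ((mem_cI (sc_pos M hM _) i x).1 h').2),
          mul_zero]
    rw [Finset.sum_congr rfl (fun i _ => e2 i), Finset.sum_ite_eq, e1]
    simp only [Finset.mem_range]
    rfl

theorem int_disj {α : Type} (P : ℝ) (hP : 0 < P) (A : Finset α) (E : α → Set ℝ) (v : α → ℝ)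
    (hE : ∀ a ∈ A, MeasurableSet (E a))
    (hd : ∀ a ∈ A, ∀ b ∈ A, ∀ x, x ∈ E a → x ∈ E b → a = b)
    (hf : ∀ a ∈ A, volume (E a) ≠ ∞) :
    ∫ x, |∑ a ∈ A, (E a).indicator (fun _ => v a) x| ^ P =
      ∑ a ∈ A, |v a| ^ P * (volume (E a)).toReal := by
  have h1 : ∀ x, |∑ a ∈ A, (E a).indicator (fun _ => v a) x| ^ P =
      ∑ a ∈ A, (E a).indicator (fun _ => |v a| ^ P) x := by
    intro x
    by_cases hx : ∃ a ∈ A, x ∈ E a
    · obtain ⟨a, ha, hxa⟩ := hx
      rw [Finset.sum_eq_single_of_mem a ha, Finset.sum_eq_single_of_mem a ha]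
      · rw [Set.indicator_of_mem hxa, Set.indicator_of_mem hxa]
      · intro b hb hne
        exact Set.indicator_of_notMem (fun h => hne (hd b hb a ha x h hxa)) _
      · intro b hb hne
        exact Set.indicator_of_notMem (fun h => hne (hd b hb a ha x h hxa)) _
    · push Not at hx
      rw [Finset.sum_eq_zero, Finset.sum_eq_zero, abs_zero, Real.zero_rpow hP.ne']
      · intro a ha
        exact Set.indicator_of_notMem (hx a ha) _
      · intro a ha
        exact Set.indicator_of_notMem (hx a ha) _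
  simp_rw [h1]
  rw [integral_finsetSum]
  · apply Finset.sum_congr rfl
    intro a ha
    rw [integral_indicator_const _ (hE a ha), smul_eq_mul, mul_comm]
    rfl
  · intro a ha
    exact (integrable_indicator_iff (hE a ha)).2 (integrableOn_const (hf a ha))

theorem ae_sum {ι : Type} {p : ℝ≥0∞} [Fact (1 ≤ p)] (A : Finset ι)
    (g : ι → Lp ℝ p (volume : Measure ℝ)) (G : ι → ℝ → ℝ) (h : ∀ i, g i =ᵐ[volume] G i)
    (c : ι → ℝ) :
    ((∑ i ∈ A, c i • g i : Lp ℝ p (volume : Measure ℝ)) : ℝ → ℝ) =ᵐ[volume]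
      fun x => ∑ i ∈ A, c i * G i x := by
  classical
  induction A using Finset.induction_on with
  | empty =>
    rw [Finset.sum_empty]
    filter_upwards [Lp.coeFn_zero ℝ p (volume : Measure ℝ)] with x hx
    rw [hx]
    simp
  | insert a A ha ih =>
    rw [Finset.sum_insert ha]
    filter_upwards [Lp.coeFn_add (c a • g a) (∑ i ∈ A, c i • g i), Lp.coeFn_smul (c a) (g a), h a,
      ih] with x h1 h2 h3 h4
    rw [h1, Pi.add_apply, h2, Pi.smul_apply, h3, h4, Finset.sum_insert ha, smul_eq_mul]

/-- norm of a finite sum of multiples of indicators of disjoint sets -/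
theorem norm_eq {α : Type} {p : ℝ≥0∞} [Fact (1 ≤ p)] (hpt : p ≠ ∞)
    (S : Lp ℝ p (volume : Measure ℝ)) (A : Finset α) (E : α → Set ℝ) (v : α → ℝ)
    (hS : S =ᵐ[volume] fun x => ∑ a ∈ A, (E a).indicator (fun _ => v a) x)
    (hE : ∀ a ∈ A, MeasurableSet (E a))
    (hd : ∀ a ∈ A, ∀ b ∈ A, ∀ x, x ∈ E a → x ∈ E b → a = b)
    (hf : ∀ a ∈ A, volume (E a) ≠ ∞) :
    ‖S‖ = (∑ a ∈ A, |v a| ^ p.toReal * (volume (E a)).toReal) ^ (1 / p.toReal) := by
  have hp0 : p ≠ 0 := by
    intro h
    have := (Fact.out : 1 ≤ p)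
    rw [h] at this
    simp at this
  have hP0 : 0 < p.toReal := ENNReal.toReal_pos hp0 hpt
  rw [Lp.norm_def, (Lp.memLp S).eLpNorm_eq_integral_rpow_norm hp0 hpt]
  have h1 : ∫ x, ‖S x‖ ^ p.toReal = ∑ a ∈ A, |v a| ^ p.toReal * (volume (E a)).toReal := by
    rw [← int_disj p.toReal hP0 A E v hE hd hf]
    apply integral_congr_ae
    filter_upwards [hS] with x hx
    rw [hx, Real.norm_eq_abs]
  rw [h1, ENNReal.toReal_ofReal, one_div]
  apply Real.rpow_nonneg
  apply Finset.sum_nonneg
  intro a _
  positivity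

end CC

open CC in
theorem stmC : StmC := by
  classical
  intro p hp1 hpt M D o hM ho
  have hp0 : p ≠ 0 := by
    intro h
    have := hp1.out
    rw [h] at this
    simp at this
  set P := p.toReal with hP
  have hP0 : 0 < P := ENNReal.toReal_pos hp0 hpt
  set q : ℕ → ℕ → ℕ → ℕ := fun k j d => Nat.pair k (Nat.pair j d) with hq
  set F : ℕ → ℕ → ℝ → ℝ := fun k i x =>
    (cI (sc M (k + 1)) i).indicator (fun _ => (sc M (k + 1) : ℝ) ^ (1 / P)) x +
      ∑ d ∈ range (D k), (cO (q k (i / M k) d)).indicator (fun _ => o k (i % M k) d) x with hFdef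
  have hF : ∀ k i, MemLp (F k i) p volume := by
    intro k i
    apply MemLp.add
    · exact memLp_indicator_const p (cI_meas _ _) _ (Or.inr (cI_fin _ _))
    · exact memLp_finsetSum _ fun d _ =>
        memLp_indicator_const p (cO_meas _) _ (Or.inr (cO_fin _))
  refine ⟨fun k i => (hF k i).toLp (F k i), ?_, ?_⟩
  · intro k i
    rw [← Lp.coeFn_nonneg]
    filter_upwards [(hF k i).coeFn_toLp] with x hx
    rw [hx]
    apply add_nonneg
    · apply Set.indicator_nonneg
      intro _ _
      positivity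
    · apply Finset.sum_nonneg
      intro d _
      apply Set.indicator_nonneg
      intro _ _
      exact ho _ _ _
  · intro c K
    -- the index set
    set T : Finset (Σ _ : ℕ, ℕ × ℕ) :=
      (range K).sigma (fun k => range ((k + 1) * sc M k) ×ˢ range (D k)) with hT
    set A : Finset (ℕ ⊕ (Σ _ : ℕ, ℕ × ℕ)) := (range (K * sc M K)).disjSum T with hA
    set E : ℕ ⊕ (Σ _ : ℕ, ℕ × ℕ) → Set ℝ := fun a => match a with
      | Sum.inl i => cI (sc M K) i
      | Sum.inr t => cO (q t.1 t.2.1 t.2.2) with hE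
    set v : ℕ ⊕ (Σ _ : ℕ, ℕ × ℕ) → ℝ := fun a => match a with
      | Sum.inl i => inn P M c K i
      | Sum.inr t => ∑ n ∈ range (M t.1), c t.1 (t.2.1 * M t.1 + n) * o t.1 n t.2.2 with hv
    have hsum : (∑ k ∈ range K, ∑ i ∈ range (cnt M k), c k i • (hF k i).toLp (F k i)) =
        ∑ z ∈ (range K).sigma (fun k => range (cnt M k)), c z.1 z.2 • (hF z.1 z.2).toLp (F z.1 z.2) :=
      Finset.sum_sigma' _ _ _
    rw [hsum]
    have hpt2 : ∀ x, (∑ z ∈ (range K).sigma (fun k => range (cnt M k)), c z.1 z.2 * F z.1 z.2 x) =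
        ∑ a ∈ A, (E a).indicator (fun _ => v a) x := by
      intro x
      rw [Finset.sum_sigma, hA, Finset.sum_disjSum]
      have e1 : (∑ k ∈ range K, ∑ i ∈ range (cnt M k), c k i * F k i x) =
          (∑ k ∈ range K, ∑ i ∈ range (cnt M k), c k i *
            (cI (sc M (k + 1)) i).indicator (fun _ => (sc M (k + 1) : ℝ) ^ (1 / P)) x) +
          ∑ k ∈ range K, ∑ i ∈ range (cnt M k), c k i *
            ∑ d ∈ range (D k), (cO (q k (i / M k) d)).indicator (fun _ => o k (i % M k) d) x := by
        rw [← Finset.sum_add_distrib]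
        apply Finset.sum_congr rfl
        intro k _
        rw [← Finset.sum_add_distrib]
        apply Finset.sum_congr rfl
        intro i _
        rw [hFdef]
        ring
      have e2 : (∑ k ∈ range K, ∑ i ∈ range (cnt M k), c k i *
            (cI (sc M (k + 1)) i).indicator (fun _ => (sc M (k + 1) : ℝ) ^ (1 / P)) x) =
          ∑ i ∈ range (K * sc M K), (E (Sum.inl i)).indicator (fun _ => v (Sum.inl i)) x := by
        change _ = ∑ i ∈ range (K * sc M K), (cI (sc M K) i).indicator (fun _ => inn P M c K i) x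
        by_cases hx : 0 ≤ x
        · rw [inner_eq P M hM c K x hx]
          have e3 : ∀ i, (cI (sc M K) i).indicator (fun _ => inn P M c K i) x =
              if ⌊x * sc M K⌋₊ = i then inn P M c K i else 0 := by
            intro i
            by_cases h : ⌊x * sc M K⌋₊ = i
            · rw [if_pos h, Set.indicator_of_mem ((mem_cI (sc_pos M hM _) i x).2 ⟨hx, h⟩)]
            · rw [if_neg h,
                Set.indicator_of_notMem (fun h' => h ((mem_cI (sc_pos M hM _) i x).1 h').2)]
          rw [Finset.sum_congr rfl (fun i _ => e3 i), Finset.sum_ite_eq]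
          split_ifs with h
          · rfl
          · rw [Finset.mem_range, not_lt] at h
            exact inn_zero P M hM c K _ h
        · rw [Finset.sum_eq_zero, Finset.sum_eq_zero]
          · intro i _
            exact Set.indicator_of_notMem (fun h => hx ((mem_cI (sc_pos M hM _) i x).1 h).1) _
          · intro k _
            apply Finset.sum_eq_zero
            intro i _
            rw [Set.indicator_of_notMem (fun h => hx ((mem_cI (sc_pos M hM _) i x).1 h).1),
              mul_zero]
      have e4 : (∑ k ∈ range K, ∑ i ∈ range (cnt M k), c k i *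
            ∑ d ∈ range (D k), (cO (q k (i / M k) d)).indicator (fun _ => o k (i % M k) d) x) =
          ∑ t ∈ T, (E (Sum.inr t)).indicator (fun _ => v (Sum.inr t)) x := by
        rw [hT, Finset.sum_sigma]
        apply Finset.sum_congr rfl
        intro k _
        rw [Finset.sum_product]
        unfold cnt
        rw [sum_block]
        apply Finset.sum_congr rfl
        intro j _
        change _ = ∑ d ∈ range (D k), (cO (q k j d)).indicator
          (fun _ => ∑ n ∈ range (M k), c k (j * M k + n) * o k n d) x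
        have hMk : 0 < M k := by have := hM k; omega
        have e5 : ∀ n ∈ range (M k), c k (j * M k + n) * ∑ d ∈ range (D k),
            (cO (q k ((j * M k + n) / M k) d)).indicator
              (fun _ => o k ((j * M k + n) % M k) d) x =
            ∑ d ∈ range (D k), c k (j * M k + n) * (cO (q k j d)).indicator
              (fun _ => o k n d) x := by
          intro n hn
          rw [Finset.mem_range] at hn
          have h1 : (j * M k + n) / M k = j := by
            rw [mul_comm, Nat.mul_add_div hMk, Nat.div_eq_of_lt hn, add_zero]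
          have h2 : (j * M k + n) % M k = n := by
            rw [mul_comm, Nat.mul_add_mod, Nat.mod_eq_of_lt hn]
          rw [h1, h2, Finset.mul_sum]
        rw [Finset.sum_congr rfl e5, Finset.sum_comm]
        apply Finset.sum_congr rfl
        intro d _
        by_cases h : x ∈ cO (q k j d)
        · rw [Set.indicator_of_mem h]
          apply Finset.sum_congr rfl
          intro n _
          rw [Set.indicator_of_mem h]
        · rw [Set.indicator_of_notMem h]
          apply Finset.sum_eq_zero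
          intro n _
          rw [Set.indicator_of_notMem h, mul_zero]
      rw [e1, e2, e4]
    have hae := ae_sum ((range K).sigma (fun k => range (cnt M k)))
      (fun z => (hF z.1 z.2).toLp (F z.1 z.2)) (fun z => F z.1 z.2)
      (fun z => (hF z.1 z.2).coeFn_toLp) (fun z => c z.1 z.2)
    have hae2 : ((∑ z ∈ (range K).sigma (fun k => range (cnt M k)),
        c z.1 z.2 • (hF z.1 z.2).toLp (F z.1 z.2) : Lp ℝ p (volume : Measure ℝ)) : ℝ → ℝ)
          =ᵐ[volume] fun x => ∑ a ∈ A, (E a).indicator (fun _ => v a) x := by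
      filter_upwards [hae] with x hx
      rw [← hpt2 x]
      exact hx
    rw [norm_eq hpt _ A E v hae2 ?_ ?_ ?_]
    · congr 1
      rw [hA, Finset.sum_disjSum]
      unfold en
      congr 1
      · unfold inE
        rw [Finset.sum_div]
        apply Finset.sum_congr rfl
        intro i _
        change |inn P M c K i| ^ P * (volume (cI (sc M K) i)).toReal = _
        rw [cI_vol]
        ring
      · rw [hT, Finset.sum_sigma]
        unfold outE
        apply Finset.sum_congr rfl
        intro k _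
        rw [Finset.sum_product]
        unfold outS
        apply Finset.sum_congr rfl
        intro j _
        unfold blk
        apply Finset.sum_congr rfl
        intro d _
        change |∑ n ∈ range (M k), c k (j * M k + n) * o k n d| ^ P *
          (volume (cO (q k j d))).toReal = _
        rw [cO_vol, mul_one]
    · rintro (i | t) _
      · exact cI_meas _ _
      · exact cO_meas _
    · rintro (i | t) _ (i' | t') _ x h1 h2
      · have a1 := (mem_cI (sc_pos M hM _) i x).1 h1
        have a2 := (mem_cI (sc_pos M hM _) i' x).1 h2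
        rw [← a1.2, ← a2.2]
      · have a1 := (mem_cI (sc_pos M hM _) i x).1 h1
        have a2 := (mem_cO _ x).1 h2
        have a3 : 0 ≤ ⌊x⌋ := Int.floor_nonneg.2 a1.1
        omega
      · have a1 := (mem_cI (sc_pos M hM _) i' x).1 h2
        have a2 := (mem_cO _ x).1 h1
        have a3 : 0 ≤ ⌊x⌋ := Int.floor_nonneg.2 a1.1
        omega
      · have a1 := (mem_cO _ x).1 h1
        have a2 := (mem_cO _ x).1 h2
        have a3 : q t.1 t.2.1 t.2.2 = q t'.1 t'.2.1 t'.2.2 := by omega
        rw [hq] at a3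
        simp only [Nat.pair_eq_pair] at a3
        obtain ⟨k, j, d⟩ := t
        obtain ⟨k', j', d'⟩ := t'
        simp only at a3
        obtain ⟨rfl, rfl, rfl⟩ := a3
        rfl
    · rintro (i | t) _
      · exact cI_fin _ _
      · exact cO_fin _

end Pool.Agent.R270.NB
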