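import Pool.Agent.R270.NB.Stm

/-!
# NB-D (helper359): a dyadic system in the span
-/

set_option autoImplicit false
set_option linter.unusedVariables false

namespace Pool.Agent.R270.NB
open Finset

namespace DD

/-- inner values of the combination with coefficients `F` of the differences -/
noncomputable def G (M : ℕ → ℕ) (F : ℕ → ℕ → ℝ) : ℕ → ℕ → ℝ
  | 0, _ => 0
  | k + 1, i => G M F k (i / M k) + (if i < cnt M k then (-1) ^ i * F k (i / M k) else 0)

lemma sum_mul_range {A : Type*} [AddCommMonoid A] (g : ℕ → A) (a b : ℕ) :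
    ∑ i ∈ range (a * b), g i = ∑ j ∈ range a, ∑ n ∈ range b, g (j * b + n) := by
  induction a with
  | zero => simp
  | succ a ih =>
    rw [Nat.succ_mul, Finset.sum_range_add, ih, Finset.sum_range_succ]

lemma alt_sum (h : ℕ → ℝ) (m : ℕ) : ∑ n ∈ range (m * 2), h (n % 2) = m * (h 0 + h 1) := by
  rw [sum_mul_range]
  have : ∀ j ∈ range m, ∑ n ∈ range 2, h ((j * 2 + n) % 2) = h 0 + h 1 := by
    intro j _
    rw [Finset.sum_range_succ, Finset.sum_range_one]
    congr 2 <;> omega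
  rw [Finset.sum_congr rfl this, Finset.sum_const, card_range, nsmul_eq_mul]

lemma even_sum (h : ℕ → ℝ) (m : ℕ) (hm : Even m) :
    ∑ n ∈ range m, h (n % 2) = m / 2 * (h 0 + h 1) := by
  obtain ⟨r, hr⟩ := hm
  have : m = r * 2 := by omega
  rw [this, alt_sum]
  push_cast
  ring

lemma negone_mod (n : ℕ) : ((-1 : ℝ)) ^ n = (-1) ^ (n % 2) := by
  rcases Nat.even_or_odd n with h | h
  · rw [h.neg_one_pow, Nat.even_iff.mp h, pow_zero]
  · rw [h.neg_one_pow, Nat.odd_iff.mp h, pow_one]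

variable {M : ℕ → ℕ} (he : ∀ k, Even (M k)) (h2 : ∀ k, 2 ≤ M k)

include h2 in
lemma sc_pos (k : ℕ) : 0 < sc M k := by
  induction k with
  | zero => exact Nat.one_pos
  | succ k ih => exact Nat.mul_pos ih (by have := h2 k; omega)

lemma cnt_eq (k : ℕ) : cnt M k = (k + 1) * sc M k * M k := rfl

lemma cnt_eq' (k : ℕ) : cnt M k = (k + 1) * sc M (k + 1) := by
  rw [cnt, sc, mul_assoc]

include he in
lemma neg_one_mul_add (k j n : ℕ) : ((-1 : ℝ)) ^ (j * M k + n) = (-1) ^ n := by
  rw [pow_add, pow_mul', (he k).neg_one_pow, one_pow, one_mul]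

lemma div_lem {b j n : ℕ} (hn : n < b) : (j * b + n) / b = j := by
  rw [mul_comm, Nat.mul_add_div (by omega), Nat.div_eq_of_lt hn, add_zero]

include he in
lemma G_succ_block (F : ℕ → ℕ → ℝ) (k j n : ℕ) (hj : j < (k + 1) * sc M k) (hn : n < M k) :
    G M F (k + 1) (j * M k + n) = G M F k j + (-1) ^ n * F k j := by
  have h1 : j * M k + n < cnt M k := by
    rw [cnt]
    have : j + 1 ≤ (k + 1) * sc M k := hj
    calc j * M k + n < (j + 1) * M k := by rw [Nat.succ_mul]; omega
      _ ≤ (k + 1) * sc M k * M k := Nat.mul_le_mul_right _ this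
  rw [G, if_pos h1, div_lem hn, neg_one_mul_add he]

/-- energy of the inner part -/
noncomputable def EE (M : ℕ → ℕ) (p : ℝ) (F : ℕ → ℕ → ℝ) (K : ℕ) : ℝ :=
  (∑ i ∈ range (K * sc M K), |G M F K i| ^ p) / sc M K

lemma two_point (p : ℝ) (hp : 1 ≤ p) (S F : ℝ) :
    |S| ^ p ≤ (|S + F| ^ p + |S - F| ^ p) / 2 ∧ |F| ^ p ≤ (|S + F| ^ p + |S - F| ^ p) / 2 := by
  have key : ∀ x y z : ℝ, |z| ≤ (|x| + |y|) / 2 → |z| ^ p ≤ (|x| ^ p + |y| ^ p) / 2 := by
    intro x y z h
    have h1 : |z| ^ p ≤ ((|x| + |y|) / 2) ^ p :=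
      Real.rpow_le_rpow (abs_nonneg _) h (by linarith)
    have h2 := (convexOn_rpow hp).2 (Set.mem_Ici.mpr (abs_nonneg x))
      (Set.mem_Ici.mpr (abs_nonneg y)) (by norm_num : (0:ℝ) ≤ 1 / 2)
      (by norm_num : (0:ℝ) ≤ 1 / 2) (by norm_num)
    simp only [smul_eq_mul] at h2
    have h3 : (|x| + |y|) / 2 = 1 / 2 * |x| + 1 / 2 * |y| := by ring
    rw [h3] at h1
    linarith
  constructor
  · refine key _ _ _ ?_
    have : S = ((S + F) + (S - F)) / 2 := by ring
    calc |S| = |(S + F) + (S - F)| / 2 := by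
          conv_lhs => rw [this]
          rw [abs_div, abs_two]
      _ ≤ (|S + F| + |S - F|) / 2 := by
          have := abs_add_le (S + F) (S - F)
          linarith
  · refine key _ _ _ ?_
    have : F = ((S + F) - (S - F)) / 2 := by ring
    calc |F| = |(S + F) - (S - F)| / 2 := by
          conv_lhs => rw [this]
          rw [abs_div, abs_two]
      _ ≤ (|S + F| + |S - F|) / 2 := by
          have := abs_sub (S + F) (S - F)
          linarith

include he h2 in
lemma EE_succ (p : ℝ) (F : ℕ → ℕ → ℝ) (k : ℕ) :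
    EE M p F (k + 1) = (∑ j ∈ range ((k + 1) * sc M k),
      (|G M F k j + F k j| ^ p + |G M F k j - F k j| ^ p) / 2) / sc M k := by
  have hM : (0:ℝ) < M k := by have := h2 k; positivity
  have hs : (0:ℝ) < sc M k := by have := sc_pos h2 k; positivity
  rw [EE]
  have h1 : (k + 1) * sc M (k + 1) = ((k + 1) * sc M k) * M k := by rw [sc, mul_assoc]
  rw [h1, sum_mul_range]
  have h3 : ∀ j ∈ range ((k + 1) * sc M k),
      ∑ n ∈ range (M k), |G M F (k + 1) (j * M k + n)| ^ p =
        M k * ((|G M F k j + F k j| ^ p + |G M F k j - F k j| ^ p) / 2) := by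
    intro j hj
    have h4 : ∀ n ∈ range (M k), |G M F (k + 1) (j * M k + n)| ^ p =
        (fun r : ℕ => |G M F k j + (-1) ^ r * F k j| ^ p) (n % 2) := by
      intro n hn
      rw [G_succ_block he F k j n (mem_range.mp hj) (mem_range.mp hn)]
      simp only
      rw [negone_mod n]
    rw [Finset.sum_congr rfl h4,
      even_sum (fun r : ℕ => |G M F k j + (-1) ^ r * F k j| ^ p) _ (he k)]
    simp only [pow_zero, one_mul, pow_one, neg_mul]
    rw [← sub_eq_add_neg]
    ring
  rw [Finset.sum_congr rfl h3, ← Finset.mul_sum, sc]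
  push_cast
  field_simp

include he h2 in
lemma EE_mono (p : ℝ) (hp : 1 ≤ p) (F : ℕ → ℕ → ℝ) (k : ℕ) : EE M p F k ≤ EE M p F (k + 1) := by
  have hs : (0:ℝ) < sc M k := by have := sc_pos h2 k; positivity
  rw [EE_succ he h2, EE]
  refine div_le_div_of_nonneg_right ?_ hs.le
  have h1 : ∑ i ∈ range (k * sc M k), |G M F k i| ^ p ≤
      ∑ i ∈ range ((k + 1) * sc M k), |G M F k i| ^ p := by
    refine Finset.sum_le_sum_of_subset_of_nonneg ?_ fun i _ _ => by positivity
    intro i hi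
    rw [mem_range] at hi ⊢
    exact lt_of_lt_of_le hi (Nat.mul_le_mul_right _ (Nat.le_succ k))
  exact h1.trans (Finset.sum_le_sum fun i _ => (two_point p hp _ _).1)

include he h2 in
lemma EE_stage (p : ℝ) (hp : 1 ≤ p) (F : ℕ → ℕ → ℝ) (k : ℕ) :
    (∑ j ∈ range ((k + 1) * sc M k), |F k j| ^ p) / sc M k ≤ EE M p F (k + 1) := by
  have hs : (0:ℝ) < sc M k := by have := sc_pos h2 k; positivity
  rw [EE_succ he h2]
  exact div_le_div_of_nonneg_right (Finset.sum_le_sum fun i _ => (two_point p hp _ _).2) hs.le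

include he h2 in
lemma EE_le (p : ℝ) (hp : 1 ≤ p) (F : ℕ → ℕ → ℝ) {k K : ℕ} (h : k ≤ K) :
    EE M p F k ≤ EE M p F K := by
  induction K, h using Nat.le_induction with
  | base => exact le_rfl
  | succ K _ ih => exact ih.trans (EE_mono he h2 p hp F K)

lemma EE_nonneg (p : ℝ) (F : ℕ → ℕ → ℝ) (K : ℕ) : 0 ≤ EE M p F K := by
  unfold EE; positivity

/-- the coefficients -/
noncomputable def cF (M : ℕ → ℕ) (p : ℝ) (F : ℕ → ℕ → ℝ) (k i : ℕ) : ℝ :=
  F k (i / M k) * ((-1) ^ i * (sc M (k + 1) : ℝ) ^ (-(1 / p)))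

include h2 in
lemma inn_eq (p : ℝ) (F : ℕ → ℕ → ℝ) (K i : ℕ) : inn p M (cF M p F) K i = G M F K i := by
  induction K generalizing i with
  | zero => rfl
  | succ K ih =>
    have hs : (0:ℝ) < sc M (K + 1) := by have := sc_pos h2 (K + 1); positivity
    rw [inn, G, ih]
    congr 1
    split_ifs
    · rw [cF, Real.rpow_neg hs.le]
      have := (Real.rpow_pos_of_pos hs (1 / p)).ne'
      field_simp
    · rfl

include h2 in
lemma inE_eq (p : ℝ) (F : ℕ → ℕ → ℝ) (K : ℕ) : inE p M (cF M p F) K = EE M p F K := by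
  rw [inE, EE]
  simp only [inn_eq h2]

lemma blk_smul (p : ℝ) (m d : ℕ) (o : ℕ → ℕ → ℝ) (t : ℝ) (c : ℕ → ℝ) :
    blk p m d o (fun n => t * c n) = |t| ^ p * blk p m d o c := by
  rw [blk, blk, Finset.mul_sum]
  refine Finset.sum_congr rfl fun d _ => ?_
  rw [← Real.mul_rpow (abs_nonneg _) (abs_nonneg _), ← abs_mul, Finset.mul_sum]
  congr 2
  refine Finset.sum_congr rfl fun n _ => ?_
  ring

lemma blk_nonneg (p : ℝ) (m d : ℕ) (o : ℕ → ℕ → ℝ) (c : ℕ → ℝ) : 0 ≤ blk p m d o c := by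
  unfold blk; positivity

lemma blk_congr (p : ℝ) (m d : ℕ) (o : ℕ → ℕ → ℝ) (c c' : ℕ → ℝ) (h : ∀ n < m, c n = c' n) :
    blk p m d o c = blk p m d o c' := by
  rw [blk, blk]
  refine Finset.sum_congr rfl fun d _ => ?_
  congr 2
  exact Finset.sum_congr rfl fun n hn => by rw [h n (mem_range.mp hn)]

include he h2 in
lemma outS_le (p : ℝ) (hp : 1 ≤ p) (D : ℕ → ℕ) (o : ℕ → ℕ → ℕ → ℝ) (η : ℕ → ℝ) (k : ℕ)
    (hη : blk p (M k) (D k) (o k) (fun n => (-1) ^ n) ≤ η k * M k) (F : ℕ → ℕ → ℝ) :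
    outS p (M k) (D k) (o k) ((k + 1) * sc M k) (cF M p F k) ≤
      η k * ((∑ j ∈ range ((k + 1) * sc M k), |F k j| ^ p) / sc M k) := by
  have hM : (0:ℝ) < M k := by have := h2 k; positivity
  have hs : (0:ℝ) < sc M k := by have := sc_pos h2 k; positivity
  have hs1 : (0:ℝ) < sc M (k + 1) := by have := sc_pos h2 (k + 1); positivity
  rw [outS]
  have h3 : ∀ j ∈ range ((k + 1) * sc M k),
      blk p (M k) (D k) (o k) (fun n => cF M p F k (j * M k + n)) ≤
        η k * (|F k j| ^ p / sc M k) := by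
    intro j _
    have h4 : blk p (M k) (D k) (o k) (fun n => cF M p F k (j * M k + n)) =
        |F k j * (sc M (k + 1) : ℝ) ^ (-(1 / p))| ^ p *
          blk p (M k) (D k) (o k) (fun n => (-1) ^ n) := by
      rw [← blk_smul]
      refine blk_congr _ _ _ _ _ _ fun n hn => ?_
      rw [cF, div_lem hn, neg_one_mul_add he]
      ring
    have h5 : |F k j * (sc M (k + 1) : ℝ) ^ (-(1 / p))| ^ p =
        |F k j| ^ p * ((sc M k : ℝ) * M k)⁻¹ := by
      rw [abs_mul, Real.mul_rpow (abs_nonneg _) (abs_nonneg _)]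
      congr 1
      rw [abs_of_pos (Real.rpow_pos_of_pos hs1 _), ← Real.rpow_mul hs1.le,
        show -(1 / p) * p = -1 by field_simp, Real.rpow_neg_one, sc]
      push_cast
      rfl
    rw [h4, h5]
    calc |F k j| ^ p * ((sc M k : ℝ) * M k)⁻¹ * blk p (M k) (D k) (o k) (fun n => (-1) ^ n)
        ≤ |F k j| ^ p * ((sc M k : ℝ) * M k)⁻¹ * (η k * M k) :=
          mul_le_mul_of_nonneg_left hη (by positivity)
      _ = η k * (|F k j| ^ p / sc M k) := by field_simp
  refine (Finset.sum_le_sum h3).trans (le_of_eq ?_)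
  rw [← Finset.mul_sum, Finset.sum_div]

include he h2 in
lemma en_bounds (p : ℝ) (hp : 1 ≤ p) (D : ℕ → ℕ) (o : ℕ → ℕ → ℕ → ℝ) (η : ℕ → ℝ)
    (hη0 : ∀ k, 0 ≤ η k) (hη1 : ∀ K, ∑ k ∈ range K, η k ≤ 1)
    (hη : ∀ k, blk p (M k) (D k) (o k) (fun n => (-1) ^ n) ≤ η k * M k) (F : ℕ → ℕ → ℝ)
    (K : ℕ) : EE M p F K ≤ en p M D o (cF M p F) K ∧
      en p M D o (cF M p F) K ≤ 2 * EE M p F K := by
  have h0 : 0 ≤ outE p M D o (cF M p F) K := by
    unfold outE outS
    exact Finset.sum_nonneg fun k _ => Finset.sum_nonneg fun j _ => blk_nonneg _ _ _ _ _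
  have h1 : outE p M D o (cF M p F) K ≤ EE M p F K := by
    rw [outE]
    calc ∑ k ∈ range K, outS p (M k) (D k) (o k) ((k + 1) * sc M k) (cF M p F k)
        ≤ ∑ k ∈ range K, η k * EE M p F K := by
          refine Finset.sum_le_sum fun k hk => ?_
          refine (outS_le he h2 p hp D o η k (hη k) F).trans ?_
          refine mul_le_mul_of_nonneg_left ?_ (hη0 k)
          exact (EE_stage he h2 p hp F k).trans (EE_le he h2 p hp F (mem_range.mp hk))
      _ = (∑ k ∈ range K, η k) * EE M p F K := by rw [Finset.sum_mul]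
      _ ≤ 1 * EE M p F K := mul_le_mul_of_nonneg_right (hη1 K) (EE_nonneg p F K)
      _ = EE M p F K := one_mul _
  rw [en, inE_eq h2]
  constructor <;> linarith

/-! ### linearity -/

lemma G_sum {ι : Type*} (s : Finset ι) (c : ι → ℝ) (F : ι → ℕ → ℕ → ℝ) (K j : ℕ) :
    G M (fun k j => ∑ q ∈ s, c q * F q k j) K j = ∑ q ∈ s, c q * G M (F q) K j := by
  induction K generalizing j with
  | zero => simp [G]
  | succ K ih =>
    rw [G, ih]
    have h1 : ∀ q, G M (F q) (K + 1) j = G M (F q) K (j / M K) +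
      (if j < cnt M K then (-1) ^ j * F q K (j / M K) else 0) := fun q => rfl
    simp only [h1, mul_add, Finset.sum_add_distrib]
    congr 1
    split_ifs
    · rw [Finset.mul_sum]
      exact Finset.sum_congr rfl fun q _ => by ring
    · simp

lemma G_congr (F F' : ℕ → ℕ → ℝ) (K : ℕ) (h : ∀ k < K, ∀ j, F k j = F' k j) (j : ℕ) :
    G M F K j = G M F' K j := by
  induction K generalizing j with
  | zero => rfl
  | succ K ih =>
    rw [G, G, ih (fun k hk => h k (Nat.lt_succ_of_lt hk)), h K (Nat.lt_succ_self K)]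

lemma G_smul (a : ℝ) (F : ℕ → ℕ → ℝ) (K j : ℕ) :
    G M (fun k j => a * F k j) K j = a * G M F K j := by
  induction K generalizing j with
  | zero => simp [G]
  | succ K ih =>
    rw [G, G, ih, mul_add]
    congr 1
    split_ifs
    · ring
    · simp

lemma G_zero_stage (F : ℕ → ℕ → ℝ) (K : ℕ) (h : ∀ j, F K j = 0) (j : ℕ) :
    G M F (K + 1) j = G M F K (j / M K) := by
  rw [G, h, mul_zero]; simp

section Zpart

variable {Z : Type} [NormedAddCommGroup Z] [NormedSpace ℝ Z]

/-- the differences -/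
noncomputable def xx (M : ℕ → ℕ) (p : ℝ) (f : ℕ → ℕ → Z) (k j : ℕ) : Z :=
  ∑ n ∈ range (M k), ((-1) ^ n * (sc M (k + 1) : ℝ) ^ (-(1 / p))) • f k (j * M k + n)

/-- combinations of the differences -/
noncomputable def YY (M : ℕ → ℕ) (p : ℝ) (f : ℕ → ℕ → Z) (F : ℕ → ℕ → ℝ) (K : ℕ) : Z :=
  ∑ k ∈ range K, ∑ j ∈ range ((k + 1) * sc M k), F k j • xx M p f k j

include he in
lemma YY_eq (p : ℝ) (f : ℕ → ℕ → Z) (F : ℕ → ℕ → ℝ) (K : ℕ) :
    YY M p f F K = ∑ k ∈ range K, ∑ i ∈ range (cnt M k), cF M p F k i • f k i := by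
  rw [YY]
  refine Finset.sum_congr rfl fun k _ => ?_
  rw [cnt, sum_mul_range _ ((k + 1) * sc M k) (M k)]
  refine Finset.sum_congr rfl fun j _ => ?_
  rw [xx, Finset.smul_sum]
  refine Finset.sum_congr rfl fun n hn => ?_
  rw [cF, div_lem (mem_range.mp hn), neg_one_mul_add he, smul_smul]

lemma YY_sum {ι : Type*} (p : ℝ) (f : ℕ → ℕ → Z) (s : Finset ι) (c : ι → ℝ)
    (F : ι → ℕ → ℕ → ℝ) (K : ℕ) :
    YY M p f (fun k j => ∑ q ∈ s, c q * F q k j) K = ∑ q ∈ s, c q • YY M p f (F q) K := by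
  simp only [YY, Finset.smul_sum, Finset.sum_smul, smul_smul]
  symm
  rw [Finset.sum_comm]
  exact Finset.sum_congr rfl fun k _ => Finset.sum_comm

lemma YY_zero_stage (p : ℝ) (f : ℕ → ℕ → Z) (F : ℕ → ℕ → ℝ) (K : ℕ) (h : ∀ j, F K j = 0) :
    YY M p f F (K + 1) = YY M p f F K := by
  rw [YY, Finset.sum_range_succ, YY]
  simp [h]

lemma YY_congr (p : ℝ) (f : ℕ → ℕ → Z) (F F' : ℕ → ℕ → ℝ) (K : ℕ)
    (h : ∀ k < K, ∀ j, F k j = F' k j) : YY M p f F K = YY M p f F' K := by
  rw [YY, YY]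
  exact Finset.sum_congr rfl fun k hk => Finset.sum_congr rfl fun j _ => by
    rw [h k (mem_range.mp hk)]

lemma YY_mem (p : ℝ) (f : ℕ → ℕ → Z) (F : ℕ → ℕ → ℝ) (K : ℕ) (he : ∀ k, Even (M k)) :
    YY M p f F K ∈ Submodule.span ℝ {z | ∃ k i, i < cnt M k ∧ z = f k i} := by
  rw [YY_eq he]
  refine Submodule.sum_mem _ fun k _ => Submodule.sum_mem _ fun i hi => ?_
  exact Submodule.smul_mem _ _ (Submodule.subset_span ⟨k, i, mem_range.mp hi, rfl⟩)

end Zpart

/-! ### the dyadic system -/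

/-- coefficient arrays of the dyadic system -/
noncomputable def Fe (M : ℕ → ℕ) : ℕ → ℕ → ℕ → ℕ → ℕ → ℝ
  | 0, i, _ => fun k j => if k = i ∧ j / sc M k = i then 1 else 0
  | L + 1, i, t => fun k j => 1 / 2 * (Fe M L i (t / 2) k j +
      (-1) ^ t * (if k = i + L + 1 then G M (Fe M L i (t / 2)) (i + L + 1) j else 0))

lemma Fe_z (i t k j : ℕ) : Fe M 0 i t k j = if k = i ∧ j / sc M k = i then 1 else 0 := rfl

lemma Fe_s (L i t k j : ℕ) : Fe M (L + 1) i t k j = 1 / 2 * (Fe M L i (t / 2) k j +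
      (-1) ^ t * (if k = i + L + 1 then G M (Fe M L i (t / 2)) (i + L + 1) j else 0)) := rfl

lemma Fe_zero_of_ge (L i t k j : ℕ) (h : i + L + 1 ≤ k) : Fe M L i t k j = 0 := by
  induction L generalizing t with
  | zero =>
    rw [Fe_z, if_neg]
    rintro ⟨h1, _⟩
    omega
  | succ L ih =>
    rw [Fe_s, ih (t / 2) (by omega), if_neg (by omega)]
    simp

lemma Fe_succ_lt (L i t k j : ℕ) (h : k < i + L + 1) :
    Fe M (L + 1) i t k j = 1 / 2 * Fe M L i (t / 2) k j := by
  rw [Fe_s, if_neg (by omega), mul_zero, add_zero]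

lemma Fe_succ_eq (L i t j : ℕ) :
    Fe M (L + 1) i t (i + L + 1) j =
      1 / 2 * ((-1) ^ t * G M (Fe M L i (t / 2)) (i + L + 1) j) := by
  rw [Fe_s, if_pos rfl, Fe_zero_of_ge L i (t / 2) (i + L + 1) j le_rfl, zero_add]

lemma Fe_add (L i t k j : ℕ) :
    Fe M (L + 1) i (2 * t) k j + Fe M (L + 1) i (2 * t + 1) k j = Fe M L i t k j := by
  rw [Fe_s, Fe_s]
  have h1 : 2 * t / 2 = t := by omega
  have h3 : (2 * t + 1) / 2 = t := by omega
  rw [h1, h3, pow_succ, pow_mul]
  split_ifs <;> ring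

/-- localisation of the inner values -/
lemma G_loc (F : ℕ → ℕ → ℝ) (i : ℕ) (h : ∀ k j, j / sc M k ≠ i → F k j = 0) (K j : ℕ)
    (hj : j / sc M K ≠ i) : G M F K j = 0 := by
  induction K generalizing j with
  | zero => rfl
  | succ K ih =>
    have h1 : j / M K / sc M K = j / sc M (K + 1) := by
      rw [Nat.div_div_eq_div_mul, sc, mul_comm]
    rw [G, ih _ (by rw [h1]; exact hj), h K _ (by rw [h1]; exact hj)]
    simp

lemma Fe_loc (L i t k j : ℕ) (hj : j / sc M k ≠ i) : Fe M L i t k j = 0 := by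
  induction L generalizing t k j with
  | zero =>
    rw [Fe_z, if_neg]
    rintro ⟨_, h⟩
    exact hj h
  | succ L ih =>
    rw [Fe_s, ih _ _ _ hj]
    split_ifs with hk
    · subst hk
      rw [G_loc _ i (fun k j hj => ih (t / 2) k j hj) _ _ hj]
      simp
    · simp

/-- the local values of a combination -/
noncomputable def LV (M : ℕ → ℕ) (L b : ℕ) (a : ℕ → ℝ) (K i : ℕ) : ℝ :=
  ∑ t ∈ range (2 ^ L), a t * G M (Fe M L b t) K i

include h2 in
lemma LV_base (b : ℕ) (a : ℕ → ℝ) (i : ℕ) (hi : i / sc M (b + 1) = b) :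
    |LV M 0 b a (b + 1) i| = |a 0| := by
  rw [LV, pow_zero, Finset.sum_range_one, G]
  have h1 : G M (Fe M 0 b 0) b (i / M b) = 0 := by
    have := G_congr (M := M) (Fe M 0 b 0) (fun _ _ => 0) b (fun k hk j => by
      rw [Fe_z, if_neg]; rintro ⟨h, _⟩; omega) (i / M b)
    rw [this]
    have h3 := G_smul (M := M) 0 (fun _ _ => 0) b (i / M b)
    simpa using h3
  have h4 : i / M b / sc M b = b := by
    rw [Nat.div_div_eq_div_mul, mul_comm]
    exact hi
  have h5 : i < cnt M b := by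
    rw [cnt_eq']
    have := sc_pos h2 (b + 1)
    rw [← Nat.div_lt_iff_lt_mul this]
    omega
  rw [h1, if_pos h5, Fe_z, if_pos ⟨rfl, h4⟩, zero_add, mul_one, abs_mul, abs_pow, abs_neg, abs_one,
    one_pow, mul_one]

lemma sum_two_pow_succ (g : ℕ → ℝ) (L : ℕ) :
    ∑ t ∈ range (2 ^ (L + 1)), g t = ∑ t ∈ range (2 ^ L), (g (2 * t) + g (2 * t + 1)) := by
  rw [pow_succ, sum_mul_range]
  refine Finset.sum_congr rfl fun t _ => ?_
  rw [Finset.sum_range_succ, Finset.sum_range_one, add_zero, mul_comm t 2]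

lemma LV_step (L b : ℕ) (a : ℕ → ℝ) (i : ℕ) (hi : i < cnt M (b + L + 1)) :
    LV M (L + 1) b a (b + L + 1 + 1) i =
      LV M L b (fun t => a (2 * t + i % 2)) (b + L + 1) (i / M (b + L + 1)) := by
  rw [LV, LV, sum_two_pow_succ]
  refine Finset.sum_congr rfl fun t _ => ?_
  have h1 : ∀ t', G M (Fe M (L + 1) b t') (b + L + 1 + 1) i =
      1 / 2 * (1 + (-1) ^ i * (-1) ^ t') *
        G M (Fe M L b (t' / 2)) (b + L + 1) (i / M (b + L + 1)) := by
    intro t'
    rw [G, if_pos hi, Fe_succ_eq]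
    have h3 := G_congr (M := M) (Fe M (L + 1) b t') (fun k j => 1 / 2 * Fe M L b (t' / 2) k j)
      (b + L + 1) (fun k hk j => Fe_succ_lt L b t' k j hk) (i / M (b + L + 1))
    rw [h3, G_smul]
    ring
  rw [h1, h1]
  have h4 : 2 * t / 2 = t := by omega
  have h5 : (2 * t + 1) / 2 = t := by omega
  rw [h4, h5, negone_mod i, pow_succ, pow_mul]
  rcases Nat.mod_two_eq_zero_or_one i with h6 | h6
  · rw [h6]; norm_num
  · rw [h6]; norm_num

/-- the local energy -/
noncomputable def LE (M : ℕ → ℕ) (p : ℝ) (L b : ℕ) (a : ℕ → ℝ) (K : ℕ) : ℝ :=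
  (∑ m ∈ range (sc M K), |LV M L b a K (b * sc M K + m)| ^ p) / sc M K

include h2 in
lemma LE_lift (p : ℝ) (L b : ℕ) (a : ℕ → ℝ) (K : ℕ) (hK : b + L + 1 ≤ K) :
    LE M p L b a (K + 1) = LE M p L b a K := by
  have hM : (0:ℝ) < M K := by have := h2 K; positivity
  have hs : (0:ℝ) < sc M K := by have := sc_pos h2 K; positivity
  rw [LE, LE, sc, sum_mul_range]
  have h1 : ∀ m ∈ range (sc M K), ∑ n ∈ range (M K),
      |LV M L b a (K + 1) (b * (sc M K * M K) + (m * M K + n))| ^ p =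
        M K * |LV M L b a K (b * sc M K + m)| ^ p := by
    intro m _
    have h3 : ∀ n ∈ range (M K),
        |LV M L b a (K + 1) (b * (sc M K * M K) + (m * M K + n))| ^ p =
          |LV M L b a K (b * sc M K + m)| ^ p := by
      intro n hn
      congr 2
      rw [LV, LV]
      refine Finset.sum_congr rfl fun t _ => ?_
      rw [G_zero_stage _ _ (fun j => Fe_zero_of_ge L b t K j hK)]
      have h4 : b * (sc M K * M K) + (m * M K + n) = (b * sc M K + m) * M K + n := by ring
      rw [h4, div_lem (mem_range.mp hn)]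
    rw [Finset.sum_congr rfl h3, Finset.sum_const, card_range, nsmul_eq_mul]
  rw [Finset.sum_congr rfl h1, ← Finset.mul_sum]
  push_cast
  field_simp

include he h2 in
lemma LE_main (p : ℝ) (L b : ℕ) (a : ℕ → ℝ) :
    LE M p L b a (b + L + 1) = (∑ t ∈ range (2 ^ L), |a t| ^ p) / 2 ^ L := by
  induction L generalizing a with
  | zero =>
    have hs : (0:ℝ) < sc M (b + 1) := by have := sc_pos h2 (b + 1); positivity
    rw [LE, add_zero]
    have h1 : ∀ m ∈ range (sc M (b + 1)),
        |LV M 0 b a (b + 1) (b * sc M (b + 1) + m)| ^ p = |a 0| ^ p := by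
      intro m hm
      rw [LV_base h2 b a _ (div_lem (mem_range.mp hm))]
    rw [Finset.sum_congr rfl h1, Finset.sum_const, card_range, nsmul_eq_mul, pow_zero, pow_zero,
      Finset.sum_range_one]
    field_simp
  | succ L ih =>
    set K := b + L + 1 with hK
    have hM : (0:ℝ) < M K := by have := h2 K; positivity
    have hs : (0:ℝ) < sc M K := by have := sc_pos h2 K; positivity
    have hKK : b + (L + 1) + 1 = K + 1 := by omega
    have h1 : ∀ m ∈ range (sc M K), ∑ n ∈ range (M K),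
        |LV M (L + 1) b a (K + 1) (b * (sc M K * M K) + (m * M K + n))| ^ p =
          M K / 2 * (|LV M L b (fun t => a (2 * t + 0)) K (b * sc M K + m)| ^ p +
            |LV M L b (fun t => a (2 * t + 1)) K (b * sc M K + m)| ^ p) := by
      intro m hm
      rw [← even_sum (fun r => |LV M L b (fun t => a (2 * t + r)) K (b * sc M K + m)| ^ p) _
        (he K)]
      refine Finset.sum_congr rfl fun n hn => ?_
      have h4 : b * (sc M K * M K) + (m * M K + n) = (b * sc M K + m) * M K + n := by ring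
      have h5 : (b * sc M K + m) * M K + n < cnt M K := by
        rw [cnt]
        have h6 : b * sc M K + m + 1 ≤ (K + 1) * sc M K := by
          have h7 := mem_range.mp hm
          calc b * sc M K + m + 1 ≤ b * sc M K + sc M K := by omega
            _ = (b + 1) * sc M K := by ring
            _ ≤ (K + 1) * sc M K := Nat.mul_le_mul_right _ (by omega)
        have h8 := mem_range.mp hn
        calc (b * sc M K + m) * M K + n < (b * sc M K + m + 1) * M K := by
              rw [Nat.succ_mul]; omega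
          _ ≤ (K + 1) * sc M K * M K := Nat.mul_le_mul_right _ h6
      have h9 : ((b * sc M K + m) * M K + n) % 2 = n % 2 := by
        obtain ⟨r, hr⟩ := he K
        rw [hr, show (b * sc M K + m) * (r + r) + n = n + 2 * ((b * sc M K + m) * r) by ring,
          Nat.add_mul_mod_self_left]
      rw [h4, hK, LV_step L b a _ (by rw [← hK]; exact h5), ← hK, div_lem (mem_range.mp hn), h9]
    rw [hKK, LE, sc, sum_mul_range, Finset.sum_congr rfl h1, ← Finset.mul_sum,
      Finset.sum_add_distrib]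
    have i0 := ih (fun t => a (2 * t + 0))
    have i1 := ih (fun t => a (2 * t + 1))
    rw [LE, div_eq_iff hs.ne'] at i0 i1
    rw [i0, i1, sum_two_pow_succ, Finset.sum_add_distrib]
    simp only [add_zero]
    push_cast
    rw [pow_succ]
    field_simp

include he h2 in
lemma LE_all (p : ℝ) (L b : ℕ) (a : ℕ → ℝ) (K : ℕ) (hK : b + L + 1 ≤ K) :
    LE M p L b a K = (∑ t ∈ range (2 ^ L), |a t| ^ p) / 2 ^ L := by
  induction K, hK using Nat.le_induction with
  | base => exact LE_main he h2 p L b a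
  | succ K hK ih => rw [LE_lift h2 p L b a K hK, ih]

/-- the coefficient array of a combination -/
noncomputable def Fa (M : ℕ → ℕ) (L N : ℕ) (a : ℕ → ℕ → ℝ) : ℕ → ℕ → ℝ :=
  fun k j => ∑ q ∈ range N ×ˢ range (2 ^ L), a q.1 q.2 * Fe M L q.1 q.2 k j

include he h2 in
lemma EE_Fa (p : ℝ) (hp : 1 ≤ p) (L N : ℕ) (a : ℕ → ℕ → ℝ) :
    EE M p (Fa M L N a) (N + L) =
      (∑ i ∈ range N, ∑ t ∈ range (2 ^ L), |a i t| ^ p) / 2 ^ L := by
  set K := N + L with hK
  have hs : (0:ℝ) < sc M K := by have := sc_pos h2 K; positivity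
  have hval : ∀ b m, m < sc M K → G M (Fa M L N a) K (b * sc M K + m) =
      if b < N then LV M L b (a b) K (b * sc M K + m) else 0 := by
    intro b m hm
    rw [show G M (Fa M L N a) K (b * sc M K + m) =
      ∑ q ∈ range N ×ˢ range (2 ^ L), a q.1 q.2 * G M (Fe M L q.1 q.2) K (b * sc M K + m) from
      G_sum _ _ _ _ _, Finset.sum_product]
    have h1 : ∀ i ∈ range N, ∑ t ∈ range (2 ^ L), a i t * G M (Fe M L i t) K (b * sc M K + m) =
        if i = b then LV M L b (a b) K (b * sc M K + m) else 0 := by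
      intro i _
      split_ifs with h
      · rw [h, LV]
      · refine Finset.sum_eq_zero fun t _ => ?_
        rw [G_loc _ i (fun k j hj => Fe_loc L i t k j hj), mul_zero]
        rw [div_lem hm]
        exact fun h' => h h'.symm
    rw [Finset.sum_congr rfl h1, Finset.sum_ite_eq']
    simp only [mem_range]
  rw [EE, sum_mul_range]
  have h2' : ∀ b ∈ range K, ∑ m ∈ range (sc M K), |G M (Fa M L N a) K (b * sc M K + m)| ^ p =
      if b < N then sc M K * LE M p L b (a b) K else 0 := by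
    intro b _
    split_ifs with hb
    · rw [LE, mul_div_cancel₀ _ hs.ne']
      refine Finset.sum_congr rfl fun m hm => ?_
      rw [hval b m (mem_range.mp hm), if_pos hb]
    · refine Finset.sum_eq_zero fun m hm => ?_
      rw [hval b m (mem_range.mp hm), if_neg hb, abs_zero, Real.zero_rpow (by linarith)]
  rw [Finset.sum_congr rfl h2', ← Finset.sum_filter]
  have h3 : (range K).filter (fun b => b < N) = range N := by
    ext b
    simp only [mem_filter, mem_range]
    omega
  rw [h3]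
  have h4 : ∀ b ∈ range N, (sc M K : ℝ) * LE M p L b (a b) K =
      sc M K * ((∑ t ∈ range (2 ^ L), |a b t| ^ p) / 2 ^ L) := by
    intro b hb
    rw [LE_all he h2 p L b (a b) K (by have := mem_range.mp hb; omega)]
  rw [Finset.sum_congr rfl h4, ← Finset.mul_sum, mul_div_cancel_left₀ _ hs.ne', Finset.sum_div]

end DD

open DD in
theorem stmD : StmD := by
  intro Z _ _ p M D o f hp he h2 hη hNF
  obtain ⟨η, hη0, hη1, hηb⟩ := hη
  refine ⟨fun L i t => YY M p f (Fe M L i t) (i + L + 1), fun L i t => YY_mem p f _ _ he, ?_, ?_⟩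
  · intro L i t _
    show YY M p f (Fe M L i t) (i + L + 1) = YY M p f (Fe M (L + 1) i (2 * t)) (i + (L + 1) + 1) +
      YY M p f (Fe M (L + 1) i (2 * t + 1)) (i + (L + 1) + 1)
    have h1 : YY M p f (Fe M L i t) (i + L + 1) = YY M p f (Fe M L i t) (i + (L + 1) + 1) := by
      rw [show i + (L + 1) + 1 = (i + L + 1) + 1 by omega]
      exact (YY_zero_stage p f _ _ fun j => Fe_zero_of_ge L i t _ j le_rfl).symm
    rw [h1]
    simp only [YY, ← Finset.sum_add_distrib, ← add_smul, Fe_add]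
  · intro L N a
    have hy : ∑ i ∈ range N, ∑ t ∈ range (2 ^ L), a i t • YY M p f (Fe M L i t) (i + L + 1) =
        YY M p f (Fa M L N a) (N + L) := by
      rw [show YY M p f (Fa M L N a) (N + L) = ∑ q ∈ range N ×ˢ range (2 ^ L),
        a q.1 q.2 • YY M p f (Fe M L q.1 q.2) (N + L) from YY_sum p f _ _ _ _,
        Finset.sum_product]
      refine Finset.sum_congr rfl fun i hi => Finset.sum_congr rfl fun t _ => ?_
      congr 1
      have hle : i + L + 1 ≤ N + L := by have := mem_range.mp hi; omega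
      have : ∀ K, i + L + 1 ≤ K → YY M p f (Fe M L i t) (i + L + 1) =
          YY M p f (Fe M L i t) K := by
        intro K hK
        induction K, hK using Nat.le_induction with
        | base => rfl
        | succ K hK ih =>
          rw [YY_zero_stage p f _ _ fun j => Fe_zero_of_ge L i t _ j hK, ← ih]
      exact this _ hle
    have hnorm : ‖YY M p f (Fa M L N a) (N + L)‖ =
        (en p M D o (cF M p (Fa M L N a)) (N + L)) ^ (1 / p) := by
      rw [YY_eq he]
      exact hNF _ _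
    obtain ⟨hb1, hb2⟩ := en_bounds he h2 p hp D o η hη0 hη1 hηb (Fa M L N a) (N + L)
    rw [hy, hnorm, ← EE_Fa he h2 p hp L N a]
    set E := EE M p (Fa M L N a) (N + L) with hE
    have hE0 : 0 ≤ E := EE_nonneg p _ _
    have hp0 : 0 ≤ 1 / p := by positivity
    constructor
    · exact Real.rpow_le_rpow hE0 hb1 hp0
    · calc (en p M D o (cF M p (Fa M L N a)) (N + L)) ^ (1 / p) ≤ (2 * E) ^ (1 / p) :=
            Real.rpow_le_rpow (hE0.trans hb1) hb2 hp0
        _ = 2 ^ (1 / p) * E ^ (1 / p) := Real.mul_rpow (by norm_num) hE0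
        _ ≤ 2 ^ (1 : ℝ) * E ^ (1 / p) := by
            refine mul_le_mul_of_nonneg_right ?_ (Real.rpow_nonneg hE0 _)
            refine Real.rpow_le_rpow_of_exponent_le (by norm_num) ?_
            rw [div_le_one (by linarith)]
            exact hp
        _ = 2 * E ^ (1 / p) := by rw [Real.rpow_one]

end Pool.Agent.R270.NB
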