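import Mathlib

/-! Project NB (MP_c30670_an): nonnegative `(1+ε)`-basic sequences in `L_p` whose closed span contains `L_p`. Definitions.

Inner part: step functions on `[0,∞)`; at scale `s` the function with values `F i` on `[i/s,(i+1)/s)`.
Stage `k` has the atoms `j < (k+1) * sc M k` (intervals of length `1/sc M k` in `[0,k+1)`), each with `M k` children; the children
are the intervals `i < cnt M k = (k+1) * sc M (k+1)` of length `1/sc M (k+1)`; child `i` belongs to the atom `i / M k` and is its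
child number `i % M k`.  The vector `(k,i)` is the normalised indicator function of the child plus an outer part with
coordinates `o k (i % M k) d`, `d < D k`, placed in outer coordinates belonging to the atom `(k, i / M k)`. -/

namespace Pool.Agent.R270.NB
open Finset

/-- energy of the outer part of one block: `∑_{d<D} |∑_{n<M} c n * o n d|^p` -/
noncomputable def blk (p : ℝ) (M D : ℕ) (o : ℕ → ℕ → ℝ) (c : ℕ → ℝ) : ℝ :=
  ∑ d ∈ range D, |∑ n ∈ range M, c n * o n d| ^ p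

/-- scales -/
def sc (M : ℕ → ℕ) : ℕ → ℕ
  | 0 => 1
  | k + 1 => sc M k * M k

/-- number of vectors of stage `k` -/
def cnt (M : ℕ → ℕ) (k : ℕ) : ℕ := (k + 1) * sc M k * M k

/-- values of the inner part of `∑_{l<k} ∑_{i<cnt l} c l i • f l i` at scale `sc M k` -/
noncomputable def inn (p : ℝ) (M : ℕ → ℕ) (c : ℕ → ℕ → ℝ) : ℕ → ℕ → ℝ
  | 0, _ => 0
  | k + 1, i => inn p M c k (i / M k) + (if i < cnt M k then c k i * (sc M (k + 1) : ℝ) ^ (1 / p) else 0)

/-- `L_p` norm of the step function with values `F i`, `i < R`, at scale `s` -/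
noncomputable def nr (p : ℝ) (s R : ℕ) (F : ℕ → ℝ) : ℝ := ((∑ i ∈ range R, |F i| ^ p) / s) ^ (1 / p)

/-- `p`-th power of the norm of the inner part -/
noncomputable def inE (p : ℝ) (M : ℕ → ℕ) (c : ℕ → ℕ → ℝ) (K : ℕ) : ℝ :=
  (∑ i ∈ range (K * sc M K), |inn p M c K i| ^ p) / sc M K

/-- outer energy of one stage with `L` atoms -/
noncomputable def outS (p : ℝ) (M D : ℕ) (o : ℕ → ℕ → ℝ) (L : ℕ) (c : ℕ → ℝ) : ℝ :=
  ∑ j ∈ range L, blk p M D o (fun n => c (j * M + n))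

/-- outer energy of the stages `< K` -/
noncomputable def outE (p : ℝ) (M D : ℕ → ℕ) (o : ℕ → ℕ → ℕ → ℝ) (c : ℕ → ℕ → ℝ) (K : ℕ) : ℝ :=
  ∑ k ∈ range K, outS p (M k) (D k) (o k) ((k + 1) * sc M k) (c k)

/-- energy: `p`-th power of the norm of `∑_{k<K} ∑_{i<cnt k} c k i • f k i` -/
noncomputable def en (p : ℝ) (M D : ℕ → ℕ) (o : ℕ → ℕ → ℕ → ℝ) (c : ℕ → ℕ → ℝ) (K : ℕ) : ℝ :=
  inE p M c K + outE p M D o c K

/-- the coefficients before the position `(k0, J)` -/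
def cut (k0 J : ℕ) (c : ℕ → ℕ → ℝ) : ℕ → ℕ → ℝ :=
  fun k i => if k < k0 ∨ (k = k0 ∧ i < J) then c k i else 0

/-- partial sum projections have norm at most `1+ε` -/
def PropB (p : ℝ) (M D : ℕ → ℕ) (o : ℕ → ℕ → ℕ → ℝ) (ε : ℝ) : Prop :=
  ∀ (c : ℕ → ℕ → ℝ) (K k0 J : ℕ), k0 < K → J ≤ cnt M k0 →
    (en p M D o (cut k0 J c) K) ^ (1 / p) ≤ (1 + ε) * (en p M D o c K) ^ (1 / p)

/-- good block for `p > 1` -/
structure IsF (p η : ℝ) (M D : ℕ) (o : ℕ → ℕ → ℝ) : Prop where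
  even : Even M
  two : 2 ≤ M
  nonneg : ∀ n d, 0 ≤ o n d
  /-- truncation -/
  trunc : ∀ (c : ℕ → ℝ) (m : ℕ), m ≤ M → blk p M D o (fun n => if n < m then c n else 0) ≤ (1 + η) * blk p M D o c
  /-- flats are expensive -/
  flat : ∀ c : ℕ → ℝ, |∑ n ∈ range M, c n| ^ p ≤ η ^ p * (M : ℝ) ^ (p - 1) * blk p M D o c
  /-- alternating signs are cheap -/
  alt : blk p M D o (fun n => (-1) ^ n) ≤ η * M

/-- the parameters of the whole construction -/
structure Core (p ε : ℝ) (M D : ℕ → ℕ) (o : ℕ → ℕ → ℕ → ℝ) : Prop where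
  even : ∀ k, Even (M k)
  two : ∀ k, 2 ≤ M k
  nonneg : ∀ k n d, 0 ≤ o k n d
  alt : ∃ η : ℕ → ℝ, (∀ k, 0 ≤ η k) ∧ (∀ K, ∑ k ∈ range K, η k ≤ 1) ∧
    ∀ k, blk p (M k) (D k) (o k) (fun n => (-1) ^ n) ≤ η k * M k
  propB : PropB p M D o ε

/-- norm formula for the vectors `f k i`, `i < cnt M k`, of a normed space -/
def NormFormula {Z : Type*} [NormedAddCommGroup Z] [NormedSpace ℝ Z] (p : ℝ) (M D : ℕ → ℕ) (o : ℕ → ℕ → ℕ → ℝ)
    (f : ℕ → ℕ → Z) : Prop :=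
  ∀ (c : ℕ → ℕ → ℝ) (K : ℕ), ‖∑ k ∈ range K, ∑ i ∈ range (cnt M k), c k i • f k i‖ = (en p M D o c K) ^ (1 / p)

end Pool.Agent.R270.NB
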