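import Pool.Agent.R270.NB.Defs

/-! Project NB: statements of the pieces.  See `notes.md`. -/

namespace Pool.Agent.R270.NB
open Finset MeasureTheory Filter Topology
open scoped ENNReal

/-- A: existence of good blocks for `p > 1` -/
def StmA : Prop := ∀ p : ℝ, 1 < p → ∀ η : ℝ, 0 < η → ∃ (M D : ℕ) (o : ℕ → ℕ → ℝ), IsF p η M D o

/-- ONE: passing from the atoms to the children does not decrease the norm of the inner part by more than `η` times the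
outer norm -/
def StmOne : Prop := ∀ (p η : ℝ) (M D : ℕ) (o : ℕ → ℕ → ℝ), 1 < p → 0 < η → IsF p η M D o →
  ∀ (s L : ℕ) (U c : ℕ → ℝ), 0 < s →
    nr p s L U ≤ nr p (s * M) (L * M) (fun i => U (i / M) + c i * ((s * M : ℕ) : ℝ) ^ (1 / p))
      + η * (outS p M D o L c) ^ (1 / p)

/-- MID: the cut inside a stage -/
def StmMid : Prop := ∀ p : ℝ, 1 < p → ∀ δ : ℝ, 0 < δ → ∃ η0 : ℝ, 0 < η0 ∧ ∀ η : ℝ, 0 < η → η ≤ η0 →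
  ∀ (M D : ℕ) (o : ℕ → ℕ → ℝ), IsF p η M D o → ∀ (s L J : ℕ) (U c : ℕ → ℝ), 0 < s → J ≤ L * M →
    nr p (s * M) (L * M) (fun i => U (i / M) + (if i < J then c i * ((s * M : ℕ) : ℝ) ^ (1 / p) else 0)) ≤
      nr p (s * M) (L * M) (fun i => U (i / M) + c i * ((s * M : ℕ) : ℝ) ^ (1 / p))
        + δ * (nr p s L U + (outS p M D o L c) ^ (1 / p))

/-- B: for suitable `η` the good blocks give partial sum projections of norm at most `1+ε` -/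
def StmB : Prop := ∀ p : ℝ, 1 < p → ∀ ε : ℝ, 0 < ε → ∃ η : ℕ → ℝ, (∀ k, 0 < η k) ∧ (∀ K, ∑ k ∈ range K, η k ≤ 1) ∧
  ∀ (M D : ℕ → ℕ) (o : ℕ → ℕ → ℕ → ℝ), (∀ k, IsF p (η k) (M k) (D k) (o k)) → PropB p M D o ε

/-- P1: the case `p = 1` -/
def StmP1 : Prop := ∀ ε : ℝ, 0 < ε → ∃ (M D : ℕ → ℕ) (o : ℕ → ℕ → ℕ → ℝ), Core 1 ε M D o

/-- C: the vectors exist in `L_p(ℝ)`, are nonnegative and satisfy the norm formula -/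
def StmC : Prop := ∀ (p : ℝ≥0∞) [Fact (1 ≤ p)], p ≠ ∞ → ∀ (M D : ℕ → ℕ) (o : ℕ → ℕ → ℕ → ℝ),
  (∀ k, 2 ≤ M k) → (∀ k n d, 0 ≤ o k n d) →
  ∃ f : ℕ → ℕ → Lp ℝ p (volume : Measure ℝ), (∀ k i, 0 ≤ f k i) ∧ NormFormula p.toReal M D o f

/-- D: a dyadic system in the span -/
def StmD : Prop := ∀ (Z : Type) [NormedAddCommGroup Z] [NormedSpace ℝ Z] (p : ℝ) (M D : ℕ → ℕ) (o : ℕ → ℕ → ℕ → ℝ)
  (f : ℕ → ℕ → Z), 1 ≤ p → (∀ k, Even (M k)) → (∀ k, 2 ≤ M k) →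
  (∃ η : ℕ → ℝ, (∀ k, 0 ≤ η k) ∧ (∀ K, ∑ k ∈ range K, η k ≤ 1) ∧
    ∀ k, blk p (M k) (D k) (o k) (fun n => (-1) ^ n) ≤ η k * M k) →
  NormFormula p M D o f →
  ∃ e : ℕ → ℕ → ℕ → Z,
    (∀ L i t, e L i t ∈ Submodule.span ℝ {z | ∃ k i, i < cnt M k ∧ z = f k i}) ∧
    (∀ L i t, t < 2 ^ L → e L i t = e (L + 1) i (2 * t) + e (L + 1) i (2 * t + 1)) ∧
    ∀ (L N : ℕ) (a : ℕ → ℕ → ℝ),
      ((∑ i ∈ range N, ∑ t ∈ range (2 ^ L), |a i t| ^ p) / 2 ^ L) ^ (1 / p) ≤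
        ‖∑ i ∈ range N, ∑ t ∈ range (2 ^ L), a i t • e L i t‖ ∧
      ‖∑ i ∈ range N, ∑ t ∈ range (2 ^ L), a i t • e L i t‖ ≤
        2 * ((∑ i ∈ range N, ∑ t ∈ range (2 ^ L), |a i t| ^ p) / 2 ^ L) ^ (1 / p)

/-- E: a dyadic system gives an embedding of `L_p(ℝ)` -/
def StmE : Prop := ∀ (Z : Type) [NormedAddCommGroup Z] [NormedSpace ℝ Z] [CompleteSpace Z] (p : ℝ≥0∞) [Fact (1 ≤ p)]
  (e : ℕ → ℕ → ℕ → Z), p ≠ ∞ →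
  (∀ L i t, t < 2 ^ L → e L i t = e (L + 1) i (2 * t) + e (L + 1) i (2 * t + 1)) →
  (∀ (L N : ℕ) (a : ℕ → ℕ → ℝ),
      ((∑ i ∈ range N, ∑ t ∈ range (2 ^ L), |a i t| ^ p.toReal) / 2 ^ L) ^ (1 / p.toReal) ≤
        ‖∑ i ∈ range N, ∑ t ∈ range (2 ^ L), a i t • e L i t‖ ∧
      ‖∑ i ∈ range N, ∑ t ∈ range (2 ^ L), a i t • e L i t‖ ≤
        2 * ((∑ i ∈ range N, ∑ t ∈ range (2 ^ L), |a i t| ^ p.toReal) / 2 ^ L) ^ (1 / p.toReal)) →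
  ∃ T : Lp ℝ p (volume : Measure ℝ) →L[ℝ] Z, (∀ g, ‖g‖ ≤ ‖T g‖) ∧
    ∀ g, T g ∈ (Submodule.span ℝ {z | ∃ L i t, z = e L i t}).topologicalClosure

/-- G: the Grünblum criterion -/
def StmG : Prop := ∀ (Z : Type) [NormedAddCommGroup Z] [NormedSpace ℝ Z] [CompleteSpace Z] (g : ℕ → Z) (C : ℝ), 1 ≤ C →
  (∀ n, g n ≠ 0) →
  (∀ (a : ℕ → ℝ) (m N : ℕ), m ≤ N → ‖∑ n ∈ range m, a n • g n‖ ≤ C * ‖∑ n ∈ range N, a n • g n‖) →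
  (∀ x ∈ (Submodule.span ℝ (Set.range g)).topologicalClosure,
    ∃! a : ℕ → ℝ, Tendsto (fun N => ∑ n ∈ range N, a n • g n) atTop (𝓝 x)) ∧
  (∀ x ∈ (Submodule.span ℝ (Set.range g)).topologicalClosure, ∀ a : ℕ → ℝ,
    Tendsto (fun N => ∑ n ∈ range N, a n • g n) atTop (𝓝 x) → ∀ N, ‖∑ n ∈ range N, a n • g n‖ ≤ C * ‖x‖)

/-- H: enumeration of the vectors `(k,i)`, `i < cnt k` -/
def StmH : Prop := ∀ (Z : Type) [NormedAddCommGroup Z] [NormedSpace ℝ Z] (cn : ℕ → ℕ) (f : ℕ → ℕ → Z) (C : ℝ),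
  1 ≤ C → (∀ k, 0 < cn k) →
  (∀ (c : ℕ → ℕ → ℝ) (K k0 J : ℕ), k0 < K → J ≤ cn k0 →
    ‖∑ k ∈ range K, ∑ i ∈ range (cn k), cut k0 J c k i • f k i‖ ≤
      C * ‖∑ k ∈ range K, ∑ i ∈ range (cn k), c k i • f k i‖) →
  ∃ g : ℕ → Z, (∀ n, ∃ k i, i < cn k ∧ g n = f k i) ∧ (∀ k i, i < cn k → ∃ n, g n = f k i) ∧
    ∀ (a : ℕ → ℝ) (m N : ℕ), m ≤ N → ‖∑ n ∈ range m, a n • g n‖ ≤ C * ‖∑ n ∈ range N, a n • g n‖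

end Pool.Agent.R270.NB
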