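import Mathlib
import Pool.Agent.R270.NB.Stm

/-! Project NB, piece E: a dyadic system in a Banach space gives an embedding of `L_p(ℝ)`. -/

namespace Pool.Agent.R270.NB
open Finset MeasureTheory Filter Topology
open scoped ENNReal

namespace EAux

/-- dyadic cell of level `L` -/
def cell (L : ℕ) (k : ℤ) : Set ℝ := {x | ⌊(2 : ℝ) ^ L * x⌋ = k}

lemma cell_eq (L : ℕ) (k : ℤ) : cell L k = Set.Ico ((k : ℝ) / 2 ^ L) ((k + 1 : ℝ) / 2 ^ L) := by
  ext x
  have h : (0 : ℝ) < 2 ^ L := by positivity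
  simp only [cell, Set.mem_ofPred_eq, Set.mem_Ico, Int.floor_eq_iff, div_le_iff₀ h, lt_div_iff₀ h,
    mul_comm x]

lemma cell_meas (L : ℕ) (k : ℤ) : MeasurableSet (cell L k) := by
  rw [cell_eq]; exact measurableSet_Ico

lemma cell_vol (L : ℕ) (k : ℤ) : volume (cell L k) = ENNReal.ofReal (1 / 2 ^ L) := by
  rw [cell_eq, Real.volume_Ico]
  congr 1
  ring

lemma cell_fin (L : ℕ) (k : ℤ) : volume (cell L k) ≠ ∞ := by
  rw [cell_vol]; exact ENNReal.ofReal_ne_top

lemma cell_split (L : ℕ) (k : ℤ) : cell L k = cell (L + 1) (2 * k) ∪ cell (L + 1) (2 * k + 1) := by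
  ext x
  simp only [cell, Set.mem_ofPred_eq, Set.mem_union, Int.floor_eq_iff]
  have e : (2 : ℝ) ^ (L + 1) * x = 2 * (2 ^ L * x) := by ring
  rw [e]
  push_cast
  constructor
  · rintro ⟨h1, h2⟩
    by_cases h : 2 ^ L * x < k + 1 / 2
    · left; constructor <;> linarith
    · right; constructor <;> linarith
  · rintro (⟨h1, h2⟩ | ⟨h1, h2⟩) <;> constructor <;> linarith

lemma cell_disj (L : ℕ) {k k' : ℤ} (h : k ≠ k') : Disjoint (cell L k) (cell L k') := by
  rw [Set.disjoint_left]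
  intro x hx hx'
  exact h (hx.symm.trans hx')

variable (p : ℝ≥0∞) [Fact (1 ≤ p)]

/-- indicator function of a dyadic cell -/
noncomputable def I (L : ℕ) (k : ℤ) : Lp ℝ p (volume : Measure ℝ) :=
  indicatorConstLp p (cell_meas L k) (cell_fin L k) (1 : ℝ)

omit [Fact (1 ≤ p)] in
lemma I_split (L : ℕ) (k : ℤ) : I p L k = I p (L + 1) (2 * k) + I p (L + 1) (2 * k + 1) := by
  unfold I
  rw [← indicatorConstLp_disjoint_union (cell_meas _ _) (cell_meas _ _) (cell_fin _ _)
    (cell_fin _ _) (cell_disj (L + 1) (by omega)) (1 : ℝ)]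
  congr 1
  exact cell_split L k

omit [Fact (1 ≤ p)] in
lemma I_coe (L : ℕ) (k : ℤ) : (I p L k : ℝ → ℝ) =ᵐ[volume] (cell L k).indicator fun _ => (1 : ℝ) :=
  indicatorConstLp_coeFn

omit [Fact (1 ≤ p)] in
lemma sum_coe {ι : Type*} (L : ℕ) (S : Finset ι) (m : ι → ℤ) (b : ι → ℝ) :
    (((∑ s ∈ S, b s • I p L (m s) : Lp ℝ p (volume : Measure ℝ))) : ℝ → ℝ) =ᵐ[volume]
      fun x => ∑ s ∈ S, b s * (cell L (m s)).indicator (fun _ => (1 : ℝ)) x := by
  classical
  induction S using Finset.induction_on with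
  | empty =>
    rw [Finset.sum_empty]
    filter_upwards [Lp.coeFn_zero ℝ p (volume : Measure ℝ)] with x hx
    rw [hx, Finset.sum_empty, Pi.zero_apply]
  | insert a S ha ih =>
    rw [Finset.sum_insert ha]
    filter_upwards [Lp.coeFn_add (b a • I p L (m a)) (∑ s ∈ S, b s • I p L (m s)), ih,
      Lp.coeFn_smul (b a) (I p L (m a)), I_coe p L (m a)] with x h1 h2 h3 h4
    rw [h1, Pi.add_apply, h2, h3, Pi.smul_apply, h4, Finset.sum_insert ha, smul_eq_mul]

lemma norm_sum (hp : p ≠ ∞) {ι : Type*} (L : ℕ) (S : Finset ι) (m : ι → ℤ)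
    (hm : Set.InjOn m S) (b : ι → ℝ) :
    ‖(∑ s ∈ S, b s • I p L (m s) : Lp ℝ p (volume : Measure ℝ))‖ =
      ((∑ s ∈ S, |b s| ^ p.toReal) / 2 ^ L) ^ (1 / p.toReal) := by
  classical
  have hp1 : 1 ≤ p := Fact.out
  have hp0 : p ≠ 0 := (zero_lt_one.trans_le hp1).ne'
  have hpr : 0 < p.toReal := ENNReal.toReal_pos hp0 hp
  rw [Lp.norm_def, eLpNorm_congr_ae (sum_coe p L S m b),
    eLpNorm_eq_lintegral_rpow_enorm_toReal hp0 hp]
  have hpt : ∀ x : ℝ, ‖∑ s ∈ S, b s * (cell L (m s)).indicator (fun _ => (1 : ℝ)) x‖ₑ ^ p.toReal =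
      ∑ s ∈ S, (cell L (m s)).indicator (fun _ => ‖b s‖ₑ ^ p.toReal) x := by
    intro x
    by_cases hx : ∃ s0 ∈ S, x ∈ cell L (m s0)
    · obtain ⟨s0, hs0, hx0⟩ := hx
      have hother : ∀ s ∈ S, s ≠ s0 → x ∉ cell L (m s) := by
        intro s hs hne hxs
        exact hne (hm hs hs0 (hxs.symm.trans hx0))
      rw [Finset.sum_eq_single_of_mem s0 hs0, Finset.sum_eq_single_of_mem s0 hs0]
      · rw [Set.indicator_of_mem hx0, Set.indicator_of_mem hx0, mul_one]
      · intro s hs hne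
        rw [Set.indicator_of_notMem (hother s hs hne)]
      · intro s hs hne
        rw [Set.indicator_of_notMem (hother s hs hne), mul_zero]
    · push Not at hx
      rw [Finset.sum_eq_zero, Finset.sum_eq_zero]
      · rw [enorm_zero, ENNReal.zero_rpow_of_pos hpr]
      · intro s hs
        rw [Set.indicator_of_notMem (hx s hs)]
      · intro s hs
        rw [Set.indicator_of_notMem (hx s hs), mul_zero]
  simp only [hpt]
  rw [lintegral_finsetSum _ (fun s _ => measurable_const.indicator (cell_meas L (m s)))]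
  simp only [lintegral_indicator_const (cell_meas _ _), cell_vol]
  rw [← Finset.sum_mul, ← ENNReal.toReal_rpow, ENNReal.toReal_mul, ENNReal.toReal_ofReal
    (by positivity), ENNReal.toReal_sum]
  · congr 1
    rw [mul_one_div]
    congr 1
    refine Finset.sum_congr rfl fun s _ => ?_
    rw [← ENNReal.toReal_rpow, toReal_enorm, Real.norm_eq_abs]
  · intro s _
    exact ENNReal.rpow_ne_top_of_nonneg hpr.le enorm_ne_top

/-- enumeration of the integers -/
noncomputable def zz (i : ℕ) : ℤ := Equiv.intEquivNat.symm i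

/-- number of the cell `t` of level `L` of the unit interval `i` -/
noncomputable def mm (L i t : ℕ) : ℤ := zz i * 2 ^ L + t

lemma mm_inj {L i t i' t' : ℕ} (ht : t < 2 ^ L) (ht' : t' < 2 ^ L) (h : mm L i t = mm L i' t') :
    i = i' ∧ t = t' := by
  unfold mm at h
  have h1 : (t : ℤ) < 2 ^ L := by exact_mod_cast ht
  have h1' : (t' : ℤ) < 2 ^ L := by exact_mod_cast ht'
  have h2 : (0 : ℤ) < 2 ^ L := by positivity
  have hz : zz i = zz i' := by
    have e1 : (zz i * 2 ^ L + t) / 2 ^ L = zz i := by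
      rw [add_comm, Int.add_mul_ediv_right _ _ h2.ne', Int.ediv_eq_zero_of_lt (by positivity) h1,
        zero_add]
    have e2 : (zz i' * 2 ^ L + t') / 2 ^ L = zz i' := by
      rw [add_comm, Int.add_mul_ediv_right _ _ h2.ne', Int.ediv_eq_zero_of_lt (by positivity) h1',
        zero_add]
    rw [← e1, ← e2, h]
  refine ⟨Equiv.intEquivNat.symm.injective hz, ?_⟩
  rw [hz] at h
  exact_mod_cast add_left_cancel h

lemma mm_surj (L : ℕ) (k : ℤ) : ∃ i t : ℕ, t < 2 ^ L ∧ mm L i t = k := by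
  have h2 : (0 : ℤ) < 2 ^ L := by positivity
  have h3 : 0 ≤ k % 2 ^ L := Int.emod_nonneg _ h2.ne'
  refine ⟨Equiv.intEquivNat (k / 2 ^ L), (k % 2 ^ L).toNat, ?_, ?_⟩
  · have := Int.emod_lt_of_pos k h2
    zify
    rw [Int.toNat_of_nonneg h3]
    exact this
  · unfold mm zz
    rw [Equiv.symm_apply_apply, Int.toNat_of_nonneg h3]
    exact Int.ediv_mul_add_emod k (2 ^ L)

lemma mm_even (L i t : ℕ) : mm (L + 1) i (2 * t) = 2 * mm L i t := by
  unfold mm; push_cast; ring

lemma mm_odd (L i t : ℕ) : mm (L + 1) i (2 * t + 1) = 2 * mm L i t + 1 := by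
  unfold mm; push_cast; ring

section rep

variable {V : Type*} [AddCommGroup V] [Module ℝ V] (v : ℕ → ℕ → ℕ → V)

/-- representation at level `L` with `N` unit intervals -/
def Rep (w : V) (L N : ℕ) : Prop :=
  ∃ b : ℕ → ℕ → ℝ, w = ∑ i ∈ range N, ∑ t ∈ range (2 ^ L), b i t • v L i t

lemma sum_pairs {A : Type*} [AddCommMonoid A] (g : ℕ → A) (M : ℕ) :
    ∑ t ∈ range (2 * M), g t = ∑ t ∈ range M, (g (2 * t) + g (2 * t + 1)) := by
  induction M with
  | zero => simp
  | succ M ih =>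
    rw [show 2 * (M + 1) = 2 * M + 1 + 1 by ring, sum_range_succ, sum_range_succ, ih,
      sum_range_succ, add_assoc]

lemma Rep.level {v : ℕ → ℕ → ℕ → V}
    (hv : ∀ L i t, t < 2 ^ L → v L i t = v (L + 1) i (2 * t) + v (L + 1) i (2 * t + 1))
    {w : V} {L N : ℕ} (h : Rep v w L N) : Rep v w (L + 1) N := by
  obtain ⟨b, rfl⟩ := h
  refine ⟨fun i t => b i (t / 2), Finset.sum_congr rfl fun i _ => ?_⟩
  rw [pow_succ', sum_pairs]
  refine Finset.sum_congr rfl fun t ht => ?_
  have e1 : 2 * t / 2 = t := by omega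
  have e2 : (2 * t + 1) / 2 = t := by omega
  simp only
  rw [e1, e2, ← smul_add, ← hv L i t (Finset.mem_range.mp ht)]

lemma Rep.level_le {v : ℕ → ℕ → ℕ → V}
    (hv : ∀ L i t, t < 2 ^ L → v L i t = v (L + 1) i (2 * t) + v (L + 1) i (2 * t + 1))
    {w : V} {L L' N : ℕ} (h : Rep v w L N) (hL : L ≤ L') : Rep v w L' N := by
  induction L', hL using Nat.le_induction with
  | base => exact h
  | succ n _ ih => exact ih.level hv

lemma Rep.width {v : ℕ → ℕ → ℕ → V} {w : V} {L N N' : ℕ} (h : Rep v w L N) (hN : N ≤ N') :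
    Rep v w L N' := by
  obtain ⟨b, rfl⟩ := h
  refine ⟨fun i t => if i < N then b i t else 0, ?_⟩
  obtain ⟨d, rfl⟩ := Nat.exists_eq_add_of_le hN
  rw [Finset.sum_range_add]
  have h2 : ∑ x ∈ range d, ∑ t ∈ range (2 ^ L), (if N + x < N then b (N + x) t else 0) •
      v L (N + x) t = 0 := by
    refine Finset.sum_eq_zero fun x _ => Finset.sum_eq_zero fun t _ => ?_
    rw [if_neg (by omega), zero_smul]
  rw [h2, add_zero]
  refine Finset.sum_congr rfl fun i hi => Finset.sum_congr rfl fun t _ => ?_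
  simp only
  rw [if_pos (Finset.mem_range.mp hi)]

lemma Rep.add {v : ℕ → ℕ → ℕ → V}
    (hv : ∀ L i t, t < 2 ^ L → v L i t = v (L + 1) i (2 * t) + v (L + 1) i (2 * t + 1))
    {w w' : V} {L L' N N' : ℕ} (h : Rep v w L N) (h' : Rep v w' L' N') :
    Rep v (w + w') (max L L') (max N N') := by
  obtain ⟨b, hb⟩ := (h.level_le hv (le_max_left L L')).width (le_max_left N N')
  obtain ⟨b', hb'⟩ := (h'.level_le hv (le_max_right L L')).width (le_max_right N N')
  refine ⟨fun i t => b i t + b' i t, ?_⟩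
  rw [hb, hb', ← Finset.sum_add_distrib]
  refine Finset.sum_congr rfl fun i _ => ?_
  rw [← Finset.sum_add_distrib]
  exact Finset.sum_congr rfl fun t _ => (add_smul _ _ _).symm

lemma Rep.smul {v : ℕ → ℕ → ℕ → V} {w : V} {L N : ℕ} (h : Rep v w L N) (c : ℝ) :
    Rep v (c • w) L N := by
  obtain ⟨b, rfl⟩ := h
  refine ⟨fun i t => c * b i t, ?_⟩
  simp only [Finset.smul_sum, smul_smul]

lemma rep_of_mem {v : ℕ → ℕ → ℕ → V}
    (hv : ∀ L i t, t < 2 ^ L → v L i t = v (L + 1) i (2 * t) + v (L + 1) i (2 * t + 1))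
    {w : V} (hw : w ∈ Submodule.span ℝ {w | ∃ L i t, t < 2 ^ L ∧ w = v L i t}) :
    ∃ L N, Rep v w L N := by
  induction hw using Submodule.span_induction with
  | mem x hx =>
    obtain ⟨L, i, t, ht, rfl⟩ := hx
    refine ⟨L, i + 1, fun i' t' => if i' = i ∧ t' = t then 1 else 0, ?_⟩
    rw [Finset.sum_eq_single_of_mem i (by simp), Finset.sum_eq_single_of_mem t (by simpa using ht)]
    · simp
    · intro t' _ hne
      simp only
      rw [if_neg (by tauto), zero_smul]
    · intro i' _ hne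
      refine Finset.sum_eq_zero fun t' _ => ?_
      simp only
      rw [if_neg (by tauto), zero_smul]
  | zero => exact ⟨0, 0, fun _ _ => 0, by simp⟩
  | add x y _ _ hx hy =>
    obtain ⟨L, N, h⟩ := hx
    obtain ⟨L', N', h'⟩ := hy
    exact ⟨_, _, h.add hv h'⟩
  | smul c x _ hx =>
    obtain ⟨L, N, h⟩ := hx
    exact ⟨L, N, h.smul c⟩

end rep

/-- the dyadic step functions are dense -/
lemma dense_step (hp : p ≠ ∞) (f : Lp ℝ p (volume : Measure ℝ)) :
    f ∈ closure ((Submodule.span ℝ (Set.range fun q : ℕ × ℤ => I p q.1 q.2) :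
      Submodule ℝ (Lp ℝ p (volume : Measure ℝ))) : Set (Lp ℝ p (volume : Measure ℝ))) := by
  classical
  rw [EMetric.mem_closure_iff]
  intro ε hε
  -- approximation by a continuous function
  have hε4 : ε / 4 ≠ 0 := (ENNReal.div_pos hε.ne' (by norm_num)).ne'
  obtain ⟨g, hgs, hfg, hgc, hgm⟩ :=
    (Lp.memLp f).exists_hasCompactSupport_eLpNorm_sub_le hp (ε := min (ε / 4) 1)
      (by simp [hε4])
  obtain ⟨R, hR⟩ : ∃ R : ℕ, tsupport g ⊆ Metric.ball 0 R := by
    obtain ⟨r, hr⟩ := hgs.isCompact.isBounded.subset_ball 0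
    obtain ⟨R, hR⟩ := exists_nat_gt r
    exact ⟨R, hr.trans (Metric.ball_subset_ball hR.le)⟩
  have hg0 : ∀ x : ℝ, x ∉ Set.Ico (-(R : ℝ)) R → g x = 0 := by
    intro x hx
    by_contra hne
    have h1 := hR (subset_tsupport g (Function.mem_support.mpr hne))
    rw [mem_ball_zero_iff, Real.norm_eq_abs, abs_lt] at h1
    exact hx ⟨h1.1.le, h1.2⟩
  set A : ℝ≥0∞ := volume (Set.Ico (-(R : ℝ)) R) ^ p.toReal⁻¹ with hA
  have hAtop : A ≠ ∞ := by
    apply ENNReal.rpow_ne_top_of_nonneg (by positivity)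
    rw [Real.volume_Ico]
    exact ENNReal.ofReal_ne_top
  set ε1 : ℝ≥0∞ := min (ε / 4) 1 / (A + 1) with hε1
  have hmin0 : min (ε / 4) 1 ≠ 0 := by simp [hε4]
  have hmintop : min (ε / 4) 1 ≠ ∞ := ne_top_of_le_ne_top ENNReal.one_ne_top (min_le_right _ _)
  have hA1top : A + 1 ≠ ∞ := by simp [hAtop]
  have hε10 : ε1 ≠ 0 := (ENNReal.div_pos hmin0 hA1top).ne'
  have hε1top : ε1 ≠ ∞ := ENNReal.div_ne_top hmintop (by simp)
  have hε1pos : 0 < ε1.toReal := ENNReal.toReal_pos hε10 hε1top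
  -- uniform continuity
  have huc := hgc.uniformContinuous_of_tendsto_cocompact
    (by simpa using hgs.is_zero_at_infty)
  obtain ⟨δ, hδ, hδg⟩ := Metric.uniformContinuous_iff.mp huc ε1.toReal hε1pos
  obtain ⟨L, hL⟩ := exists_pow_lt_of_lt_one hδ (show (1 / 2 : ℝ) < 1 by norm_num)
  have h2L : (0 : ℝ) < 2 ^ L := by positivity
  set S : Finset ℤ := Finset.Ico (-(R : ℤ) * 2 ^ L) ((R : ℤ) * 2 ^ L) with hS
  set b : ℤ → ℝ := fun k => g (k / 2 ^ L) with hb
  set y : Lp ℝ p (volume : Measure ℝ) := ∑ k ∈ S, b k • I p L k with hy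
  refine ⟨y, ?_, ?_⟩
  · refine Submodule.sum_mem _ fun k _ => Submodule.smul_mem _ _ (Submodule.subset_span ?_)
    exact ⟨(L, k), rfl⟩
  set H : ℝ → ℝ := fun x => ∑ k ∈ S, b k * (cell L k).indicator (fun _ => (1 : ℝ)) x with hH
  have hyH : (y : ℝ → ℝ) =ᵐ[volume] H := sum_coe p L S id b
  have hpt : ∀ x, ‖g x - H x‖ ≤ ε1.toReal := by
    intro x
    by_cases hx : x ∈ Set.Ico (-(R : ℝ)) R
    · have hk : ⌊(2 : ℝ) ^ L * x⌋ ∈ S := by
        rw [hS, Finset.mem_Ico]
        constructor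
        · rw [Int.le_floor]
          push_cast
          nlinarith [hx.1]
        · rw [Int.floor_lt]
          push_cast
          nlinarith [hx.2]
      have hHx : H x = b ⌊(2 : ℝ) ^ L * x⌋ := by
        rw [hH]
        simp only
        rw [Finset.sum_eq_single_of_mem _ hk]
        · rw [Set.indicator_of_mem (show x ∈ cell L ⌊(2 : ℝ) ^ L * x⌋ from rfl), mul_one]
        · intro k _ hne
          rw [Set.indicator_of_notMem, mul_zero]
          intro hxk
          exact hne hxk.symm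
      rw [hHx, hb]
      simp only
      rw [← dist_eq_norm]
      refine (hδg ?_).le
      rw [Real.dist_eq, abs_lt]
      have h1 := Int.floor_le ((2 : ℝ) ^ L * x)
      have h2 := Int.lt_floor_add_one ((2 : ℝ) ^ L * x)
      have h3 : ((⌊(2 : ℝ) ^ L * x⌋ : ℝ)) / 2 ^ L ≤ x := by
        rw [div_le_iff₀ h2L]; linarith
      have h4 : x - (⌊(2 : ℝ) ^ L * x⌋ : ℝ) / 2 ^ L < (1 / 2) ^ L := by
        rw [one_div, inv_pow, sub_lt_iff_lt_add, ← one_div, ← add_div, lt_div_iff₀ h2L]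
        linarith
      constructor <;> linarith
    · have hHx : H x = 0 := by
        rw [hH]
        refine Finset.sum_eq_zero fun k hk => ?_
        rw [Set.indicator_of_notMem, mul_zero]
        intro hxk
        apply hx
        rw [hS, Finset.mem_Ico] at hk
        have hxk' : ⌊(2 : ℝ) ^ L * x⌋ = k := hxk
        have h1 := Int.floor_le ((2 : ℝ) ^ L * x)
        have h2 := Int.lt_floor_add_one ((2 : ℝ) ^ L * x)
        rw [hxk'] at h1 h2
        have h3 : ((-(R : ℤ) * 2 ^ L : ℤ) : ℝ) ≤ (k : ℝ) := by exact_mod_cast hk.1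
        have h4 : (k : ℝ) + 1 ≤ (((R : ℤ) * 2 ^ L : ℤ) : ℝ) := by exact_mod_cast hk.2
        push_cast at h3 h4
        constructor
        · by_contra hcon
          push Not at hcon
          nlinarith
        · by_contra hcon
          push Not at hcon
          nlinarith
      rw [hHx, hg0 x hx, sub_zero, norm_zero]
      exact hε1pos.le
  have hzero : ∀ x, x ∉ Set.Ico (-(R : ℝ)) R → g x - H x = 0 := by
    intro x hx
    have hHx : H x = 0 := by
      rw [hH]
      refine Finset.sum_eq_zero fun k hk => ?_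
      rw [Set.indicator_of_notMem, mul_zero]
      intro hxk
      apply hx
      rw [hS, Finset.mem_Ico] at hk
      have hxk' : ⌊(2 : ℝ) ^ L * x⌋ = k := hxk
      have h1 := Int.floor_le ((2 : ℝ) ^ L * x)
      have h2 := Int.lt_floor_add_one ((2 : ℝ) ^ L * x)
      rw [hxk'] at h1 h2
      have h3 : ((-(R : ℤ) * 2 ^ L : ℤ) : ℝ) ≤ (k : ℝ) := by exact_mod_cast hk.1
      have h4 : (k : ℝ) + 1 ≤ (((R : ℤ) * 2 ^ L : ℤ) : ℝ) := by exact_mod_cast hk.2
      push_cast at h3 h4
      constructor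
      · by_contra hcon
        push Not at hcon
        nlinarith
      · by_contra hcon
        push Not at hcon
        nlinarith
    rw [hHx, hg0 x hx, sub_zero]
  have hHm : Measurable H := by
    apply Finset.measurable_sum
    intro k _
    exact measurable_const.mul (measurable_const.indicator (cell_meas L k))
  have hgH : eLpNorm (fun x => g x - H x) p volume ≤ min (ε / 4) 1 := by
    have e1 : (fun x => g x - H x) = (Set.Ico (-(R : ℝ)) R).indicator (fun x => g x - H x) := by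
      funext x
      by_cases hx : x ∈ Set.Ico (-(R : ℝ)) R
      · rw [Set.indicator_of_mem hx]
      · rw [Set.indicator_of_notMem hx, hzero x hx]
    rw [e1, eLpNorm_indicator_eq_eLpNorm_restrict measurableSet_Ico]
    refine (eLpNorm_le_of_ae_bound (Filter.Eventually.of_forall hpt)).trans ?_
    rw [Measure.restrict_apply_univ, ← hA, ENNReal.ofReal_toReal hε1top, hε1]
    calc A * (min (ε / 4) 1 / (A + 1)) ≤ (A + 1) * (min (ε / 4) 1 / (A + 1)) := by
          gcongr; exact le_self_add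
      _ = min (ε / 4) 1 := ENNReal.mul_div_cancel (by simp) hA1top
  rw [Lp.edist_def]
  have e2 : eLpNorm (⇑f - ⇑y) p volume = eLpNorm ((⇑f - g) + fun x => g x - H x) p volume := by
    apply eLpNorm_congr_ae
    filter_upwards [hyH] with x hx
    simp only [Pi.sub_apply, Pi.add_apply, hx]
    ring
  rw [e2]
  refine (eLpNorm_add_le ((Lp.aestronglyMeasurable f).sub hgc.aestronglyMeasurable)
    (hgc.aestronglyMeasurable.sub hHm.aestronglyMeasurable) Fact.out).trans_lt ?_
  refine (add_le_add hfg hgH).trans_lt ?_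
  by_cases htop : ε = ∞
  · exact (ENNReal.add_lt_top.mpr ⟨hmintop.lt_top, hmintop.lt_top⟩).trans_eq htop.symm
  · calc min (ε / 4) 1 + min (ε / 4) 1 ≤ ε / 4 + ε / 4 := add_le_add (min_le_left _ _) (min_le_left _ _)
      _ = ε / 2 := by
        rw [← ENNReal.add_div, ← two_mul, show (4 : ℝ≥0∞) = 2 * 2 by norm_num,
          ENNReal.mul_div_mul_left _ _ (by norm_num) (by norm_num)]
      _ < ε := ENNReal.half_lt_self hε.ne' htop

end EAux

open EAux in
theorem stmE : StmE := by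
  intro Z _ _ _ p _ e hp hadd hnorm
  classical
  set v : ℕ → ℕ → ℕ → Lp ℝ p (volume : Measure ℝ) × Z := fun L i t => (I p L (mm L i t), e L i t)
    with hvdef
  have hv : ∀ L i t, t < 2 ^ L → v L i t = v (L + 1) i (2 * t) + v (L + 1) i (2 * t + 1) := by
    intro L i t ht
    simp only [hvdef, Prod.mk_add_mk, mm_even, mm_odd]
    rw [← I_split, ← hadd L i t ht]
  set W : Submodule ℝ (Lp ℝ p (volume : Measure ℝ) × Z) :=
    Submodule.span ℝ {w | ∃ L i t, t < 2 ^ L ∧ w = v L i t} with hW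
  have hbd : ∀ w ∈ W, ‖w.1‖ ≤ ‖w.2‖ ∧ ‖w.2‖ ≤ 2 * ‖w.1‖ := by
    intro w hw
    obtain ⟨L, N, b, hb⟩ := rep_of_mem hv hw
    have h1 : w.1 = ∑ q ∈ range N ×ˢ range (2 ^ L), b q.1 q.2 • I p L (mm L q.1 q.2) := by
      rw [hb, Finset.sum_product, Prod.fst_sum]
      refine Finset.sum_congr rfl fun i _ => ?_
      rw [Prod.fst_sum]
      rfl
    have h2 : w.2 = ∑ i ∈ range N, ∑ t ∈ range (2 ^ L), b i t • e L i t := by
      rw [hb, Prod.snd_sum]
      refine Finset.sum_congr rfl fun i _ => ?_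
      rw [Prod.snd_sum]
      rfl
    have h3 := norm_sum p hp L (range N ×ˢ range (2 ^ L)) (fun q => mm L q.1 q.2) (by
      rintro ⟨i, t⟩ hq ⟨i', t'⟩ hq' h
      simp only [Finset.coe_product, Set.mem_prod, Finset.coe_range, Set.mem_Iio] at hq hq'
      obtain ⟨e1, e2⟩ := mm_inj hq.2 hq'.2 h
      exact Prod.ext e1 e2) (fun q => b q.1 q.2)
    rw [← h1, Finset.sum_product] at h3
    have h4 := hnorm L N b
    rw [← h2, ← h3] at h4
    exact h4
  let Φ : W →ₗ[ℝ] Lp ℝ p (volume : Measure ℝ) := (LinearMap.fst ℝ _ Z).comp W.subtype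
  let Ψ : W →ₗ[ℝ] Z := (LinearMap.snd ℝ _ Z).comp W.subtype
  have hdense : DenseRange Φ := by
    intro f
    refine closure_mono ?_ (dense_step p hp f)
    have hle : Submodule.span ℝ (Set.range fun q : ℕ × ℤ => I p q.1 q.2) ≤ LinearMap.range Φ := by
      rw [Submodule.span_le]
      rintro _ ⟨⟨L, k⟩, rfl⟩
      obtain ⟨i, t, ht, hk⟩ := mm_surj L k
      refine ⟨⟨v L i t, Submodule.subset_span ⟨L, i, t, ht, rfl⟩⟩, ?_⟩
      show I p L (mm L i t) = I p L k
      rw [hk]
    intro x hx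
    exact hle hx
  have hC : ∀ x : W, ‖Ψ x‖ ≤ 2 * ‖Φ x‖ := fun x => (hbd x.1 x.2).2
  have heq : ∀ x : W, Ψ.extendOfNorm Φ (Φ x) = Ψ x :=
    fun x => LinearMap.extendOfNorm_eq hdense ⟨2, hC⟩ x
  refine ⟨Ψ.extendOfNorm Φ, ?_, ?_⟩
  · intro g
    refine hdense.induction_on (p := fun g => ‖g‖ ≤ ‖Ψ.extendOfNorm Φ g‖) g ?_ ?_
    · exact isClosed_le continuous_norm (Ψ.extendOfNorm Φ).continuous.norm
    · intro x
      rw [heq]
      exact (hbd x.1 x.2).1
  · intro g
    refine hdense.induction_on (p := fun g => Ψ.extendOfNorm Φ g ∈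
      (Submodule.span ℝ {z | ∃ L i t, z = e L i t}).topologicalClosure) g ?_ ?_
    · exact (Submodule.isClosed_topologicalClosure _).preimage (Ψ.extendOfNorm Φ).continuous
    · intro x
      rw [heq]
      apply Submodule.le_topologicalClosure
      have : W ≤ (Submodule.span ℝ {z | ∃ L i t, z = e L i t}).comap (LinearMap.snd ℝ _ Z) := by
        rw [hW, Submodule.span_le]
        rintro _ ⟨L, i, t, _, rfl⟩
        exact Submodule.subset_span ⟨L, i, t, rfl⟩
      exact this x.2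

end Pool.Agent.R270.NB
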