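import Pool.Agent.R270.NB.Stm

/-! Project NB, module G: the Grunblum criterion. -/

namespace Pool.Agent.R270.NB
namespace GAux
open Finset Filter Topology

variable {Z : Type} [NormedAddCommGroup Z] [NormedSpace ℝ Z]

/-- partial sums -/
noncomputable def S (g : ℕ → Z) (a : ℕ → ℝ) (N : ℕ) : Z := ∑ n ∈ range N, a n • g n

theorem S_sub (g : ℕ → Z) (a b : ℕ → ℝ) (N : ℕ) : S g (fun n => a n - b n) N = S g a N - S g b N := by
  simp only [S, sub_smul, Finset.sum_sub_distrib]

theorem part2 (g : ℕ → Z) (C : ℝ) (hB : ∀ (a : ℕ → ℝ) (m N : ℕ), m ≤ N → ‖S g a m‖ ≤ C * ‖S g a N‖)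
    (x : Z) (a : ℕ → ℝ) (h : Tendsto (S g a) atTop (𝓝 x)) (m : ℕ) : ‖S g a m‖ ≤ C * ‖x‖ := by
  have h1 : Tendsto (fun N => C * ‖S g a N‖) atTop (𝓝 (C * ‖x‖)) := (h.norm).const_mul C
  refine ge_of_tendsto h1 ?_
  filter_upwards [eventually_ge_atTop m] with N hN
  exact hB a m N hN

theorem fin (g : ℕ → Z) : ∀ w ∈ Submodule.span ℝ (Set.range g), ∃ (a : ℕ → ℝ) (N0 : ℕ), ∀ N, N0 ≤ N → S g a N = w := by
  intro w hw
  induction hw using Submodule.span_induction with
  | mem x hx =>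
    obtain ⟨n, rfl⟩ := hx
    refine ⟨fun i => if i = n then 1 else 0, n + 1, fun N hN => ?_⟩
    simp only [S, ite_smul, one_smul, zero_smul, Finset.sum_ite_eq', mem_range]
    rw [if_pos (by omega)]
  | zero => exact ⟨fun _ => 0, 0, fun N _ => by simp [S]⟩
  | add x y _ _ hx hy =>
    obtain ⟨a, N1, h1⟩ := hx
    obtain ⟨b, N2, h2⟩ := hy
    refine ⟨fun n => a n + b n, max N1 N2, fun N hN => ?_⟩
    have e1 := h1 N ((le_max_left _ _).trans hN)
    have e2 := h2 N ((le_max_right _ _).trans hN)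
    rw [← e1, ← e2]
    simp only [S, add_smul, Finset.sum_add_distrib]
  | smul c x _ hx =>
    obtain ⟨a, N1, h1⟩ := hx
    refine ⟨fun n => c * a n, N1, fun N hN => ?_⟩
    rw [← h1 N hN]
    simp only [S, mul_smul, Finset.smul_sum]

theorem exist (g : ℕ → Z) (C : ℝ) (hC : 1 ≤ C) (hg : ∀ n, g n ≠ 0)
    (hB : ∀ (a : ℕ → ℝ) (m N : ℕ), m ≤ N → ‖S g a m‖ ≤ C * ‖S g a N‖)
    (x : Z) (hx : x ∈ closure (Submodule.span ℝ (Set.range g) : Set Z)) : ∃ a : ℕ → ℝ, Tendsto (S g a) atTop (𝓝 x) := by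
  obtain ⟨u, hu, hux⟩ := mem_closure_iff_seq_limit.1 hx
  choose A N0 hA using fun k => fin g (u k) (hu k)
  have hdiff : ∀ k l N, ‖S g (A k) N - S g (A l) N‖ ≤ C * ‖u k - u l‖ := by
    intro k l N
    have h1 := hB (fun n => A k n - A l n) N (max N (max (N0 k) (N0 l))) (le_max_left _ _)
    rw [S_sub, S_sub, hA k _ ((le_max_left _ _).trans (le_max_right _ _)),
      hA l _ ((le_max_right _ _).trans (le_max_right _ _))] at h1
    exact h1
  have hcoef : ∀ n k l, |A k n - A l n| * ‖g n‖ ≤ 2 * C * ‖u k - u l‖ := by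
    intro n k l
    have h1 : (A k n - A l n) • g n = (S g (A k) (n + 1) - S g (A l) (n + 1)) - (S g (A k) n - S g (A l) n) := by
      simp only [S, Finset.sum_range_succ, sub_smul]
      abel
    have h2 := norm_sub_le (S g (A k) (n + 1) - S g (A l) (n + 1)) (S g (A k) n - S g (A l) n)
    rw [← h1, norm_smul, Real.norm_eq_abs] at h2
    have h3 := hdiff k l (n + 1)
    have h4 := hdiff k l n
    linarith
  have hcau : ∀ n, CauchySeq (fun k => A k n) := by
    intro n
    have hgn : 0 < ‖g n‖ := norm_pos_iff.2 (hg n)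
    rw [Metric.cauchySeq_iff]
    intro ε hε
    have hc := Metric.cauchySeq_iff.1 hux.cauchySeq (ε * ‖g n‖ / (2 * C)) (by positivity)
    obtain ⟨K, hK⟩ := hc
    refine ⟨K, fun k hk l hl => ?_⟩
    have h1 := hK k hk l hl
    rw [dist_eq_norm] at h1
    rw [Real.dist_eq]
    have h2 := hcoef n k l
    have h3 : 2 * C * ‖u k - u l‖ < ε * ‖g n‖ := by
      rw [lt_div_iff₀ (by positivity)] at h1
      linarith
    have h4 : |A k n - A l n| * ‖g n‖ < ε * ‖g n‖ := lt_of_le_of_lt h2 h3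
    exact lt_of_mul_lt_mul_right h4 hgn.le
  choose a ha using fun n => cauchySeq_tendsto_of_complete (hcau n)
  have hS : ∀ N, Tendsto (fun k => S g (A k) N) atTop (𝓝 (S g a N)) := by
    intro N
    exact tendsto_finset_sum _ (fun n _ => (ha n).smul_const (g n))
  have h5 : ∀ N k, ‖S g a N - S g (A k) N‖ ≤ C * ‖x - u k‖ := by
    intro N k
    have t1 : Tendsto (fun l => ‖S g (A l) N - S g (A k) N‖) atTop (𝓝 ‖S g a N - S g (A k) N‖) :=
      ((hS N).sub_const _).norm
    have t2 : Tendsto (fun l => C * ‖u l - u k‖) atTop (𝓝 (C * ‖x - u k‖)) :=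
      ((hux.sub_const _).norm).const_mul C
    exact le_of_tendsto_of_tendsto' t1 t2 (fun l => hdiff l k N)
  refine ⟨a, ?_⟩
  rw [Metric.tendsto_atTop]
  intro ε hε
  obtain ⟨k, hk⟩ := (Metric.tendsto_atTop.1 hux) (ε / (C + 1)) (by positivity)
  have hk' := hk k (le_refl _)
  rw [dist_eq_norm, norm_sub_rev, lt_div_iff₀ (by positivity)] at hk'
  refine ⟨N0 k, fun N hN => ?_⟩
  rw [dist_eq_norm]
  have h6 := h5 N k
  have h7 := hA k N hN
  have h8 : S g a N - x = (S g a N - S g (A k) N) - (x - u k) := by rw [h7]; abel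
  have h9 := norm_sub_le (S g a N - S g (A k) N) (x - u k)
  rw [h8]
  linarith

end GAux

open Finset Filter Topology GAux in
theorem stmG : StmG := by
  intro Z _ _ _ g C hC hg hB
  have hB' : ∀ (a : ℕ → ℝ) (m N : ℕ), m ≤ N → ‖S g a m‖ ≤ C * ‖S g a N‖ := hB
  refine ⟨fun x hx => ?_, fun x _ a ha N => part2 g C hB' x a ha N⟩
  have hx' : x ∈ closure (Submodule.span ℝ (Set.range g) : Set Z) := by
    rw [← Submodule.topologicalClosure_coe]
    exact hx
  obtain ⟨a, ha⟩ := exist g C hC hg hB' x hx'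
  refine ⟨a, ha, fun b hb => ?_⟩
  have hb' : Tendsto (S g b) atTop (𝓝 x) := hb
  have h1 : Tendsto (S g (fun n => b n - a n)) atTop (𝓝 0) := by
    have h2 := hb'.sub ha
    rw [sub_self] at h2
    refine h2.congr (fun N => ?_)
    rw [S_sub]
  have h3 : ∀ N, S g (fun n => b n - a n) N = 0 := by
    intro N
    have h4 := part2 g C hB' 0 _ h1 N
    rw [norm_zero, mul_zero] at h4
    exact norm_le_zero_iff.1 h4
  funext n
  have h5 : (b n - a n) • g n = S g (fun n => b n - a n) (n + 1) - S g (fun n => b n - a n) n := by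
    simp only [S, Finset.sum_range_succ]
    abel
  rw [h3, h3, sub_zero, smul_eq_zero] at h5
  rcases h5 with h5 | h5
  · linarith
  · exact absurd h5 (hg n)

end Pool.Agent.R270.NB
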