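import Pool.Agent.R270.NB.Stm

/-! Project NB (MP_c30670_an), piece H: enumeration of the vectors stage after stage. -/

set_option autoImplicit false

namespace Pool.Agent.R270.NB
open Finset

namespace HAux

/-- first position of the stage `k` -/
def off (cn : ℕ → ℕ) (k : ℕ) : ℕ := ∑ l ∈ range k, cn l

theorem off_succ (cn : ℕ → ℕ) (k : ℕ) : off cn (k + 1) = off cn k + cn k := by
  unfold off; rw [Finset.sum_range_succ]

theorem off_mono {cn : ℕ → ℕ} : Monotone (off cn) :=
  monotone_nat_of_le_succ fun k => by rw [off_succ]; omega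

theorem le_off {cn : ℕ → ℕ} (h : ∀ k, 0 < cn k) (k : ℕ) : k ≤ off cn k := by
  induction k with
  | zero => simp
  | succ k ih => rw [off_succ]; have := h k; omega

theorem ex {cn : ℕ → ℕ} (h : ∀ k, 0 < cn k) (n : ℕ) : ∃ k, n < off cn (k + 1) :=
  ⟨n, by have := le_off h (n + 1); omega⟩

/-- the stage of the position `n` -/
noncomputable def kk {cn : ℕ → ℕ} (h : ∀ k, 0 < cn k) (n : ℕ) : ℕ := Nat.find (ex h n)

theorem kk_lt {cn : ℕ → ℕ} (h : ∀ k, 0 < cn k) (n : ℕ) : n < off cn (kk h n + 1) :=
  Nat.find_spec (ex h n)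

theorem kk_le {cn : ℕ → ℕ} (h : ∀ k, 0 < cn k) (n : ℕ) : off cn (kk h n) ≤ n := by
  rcases hk : kk h n with _ | k
  · simp [off]
  · have h1 : k < kk h n := by omega
    have h2 := Nat.find_min (ex h n) h1
    omega

theorem kk_eq {cn : ℕ → ℕ} (h : ∀ k, 0 < cn k) (k i : ℕ) (hi : i < cn k) :
    kk h (off cn k + i) = k := by
  unfold kk
  rw [Nat.find_eq_iff]
  refine ⟨by rw [off_succ]; omega, fun j hj => ?_⟩
  have : off cn (j + 1) ≤ off cn k := off_mono hj
  omega

theorem sum_off {Z : Type} [AddCommMonoid Z] (cn : ℕ → ℕ) (F : ℕ → Z) (K : ℕ) :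
    ∑ k ∈ range K, ∑ i ∈ range (cn k), F (off cn k + i) = ∑ n ∈ range (off cn K), F n := by
  induction K with
  | zero => simp [off]
  | succ K ih => rw [Finset.sum_range_succ, ih, off_succ, Finset.sum_range_add]

theorem sum_trunc {Z : Type} [AddCommMonoid Z] (F : ℕ → Z) (m R : ℕ) (h : m ≤ R) :
    ∑ n ∈ range R, (if n < m then F n else 0) = ∑ n ∈ range m, F n := by
  obtain ⟨d, rfl⟩ := Nat.exists_eq_add_of_le h
  rw [Finset.sum_range_add]
  have h1 : ∑ n ∈ range m, (if n < m then F n else 0) = ∑ n ∈ range m, F n :=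
    Finset.sum_congr rfl fun n hn => if_pos (mem_range.1 hn)
  have h2 : ∑ n ∈ range d, (if m + n < m then F (m + n) else 0) = 0 :=
    Finset.sum_eq_zero fun n _ => if_neg (by omega)
  rw [h1, h2, add_zero]

end HAux

open HAux in
theorem stmH : StmH := by
  intro Z _ _ cn f C hC hcn hcut
  set g : ℕ → Z := fun n => f (kk hcn n) (n - off cn (kk hcn n)) with hg
  have hgk : ∀ k i, i < cn k → g (off cn k + i) = f k i := by
    intro k i hi
    simp only [hg]
    rw [kk_eq hcn k i hi, Nat.add_sub_cancel_left]
  refine ⟨g, ?_, ?_, ?_⟩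
  · intro n
    refine ⟨kk hcn n, n - off cn (kk hcn n), ?_, rfl⟩
    have h1 := kk_lt hcn n
    rw [off_succ] at h1
    have := kk_le hcn n
    omega
  · intro k i hi
    exact ⟨off cn k + i, hgk k i hi⟩
  · intro a m N hmN
    set c : ℕ → ℕ → ℝ := fun k i => if off cn k + i < N then a (off cn k + i) else 0 with hc
    set k0 := kk hcn m with hk0
    set J := m - off cn k0 with hJ
    have hk0m : off cn k0 ≤ m := kk_le hcn m
    have hk0l : m < off cn (k0 + 1) := kk_lt hcn m
    rw [off_succ] at hk0l
    have hk0K : k0 < N + 1 := by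
      have := le_off hcn k0
      omega
    have hJc : J ≤ cn k0 := by omega
    have hcutc := hcut c (N + 1) k0 J hk0K hJc
    have hNK : N ≤ off cn (N + 1) := by have := le_off hcn (N + 1); omega
    have e1 : ∑ k ∈ range (N + 1), ∑ i ∈ range (cn k), c k i • f k i = ∑ n ∈ range N, a n • g n := by
      rw [← sum_trunc (fun n => a n • g n) N _ hNK, ← sum_off]
      apply Finset.sum_congr rfl
      intro k _
      apply Finset.sum_congr rfl
      intro i hi
      simp only [hc]
      rw [hgk k i (mem_range.1 hi)]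
      split_ifs <;> simp
    have e2 : ∑ k ∈ range (N + 1), ∑ i ∈ range (cn k), cut k0 J c k i • f k i =
        ∑ n ∈ range m, a n • g n := by
      rw [← sum_trunc (fun n => a n • g n) m _ (hmN.trans hNK), ← sum_off]
      apply Finset.sum_congr rfl
      intro k _
      apply Finset.sum_congr rfl
      intro i hi
      have hi' := mem_range.1 hi
      have hiff : (k < k0 ∨ (k = k0 ∧ i < J)) ↔ off cn k + i < m := by
        constructor
        · rintro (h | ⟨h, h2⟩)
          · have h3 : off cn (k + 1) ≤ off cn k0 := off_mono h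
            rw [off_succ] at h3
            omega
          · subst h; omega
        · intro h
          rcases lt_trichotomy k k0 with h1 | h1 | h1
          · exact Or.inl h1
          · right; subst h1; exact ⟨rfl, by omega⟩
          · exfalso
            have h3 : off cn (k0 + 1) ≤ off cn k := off_mono h1
            rw [off_succ] at h3
            omega
      unfold cut
      by_cases hlt : off cn k + i < m
      · rw [if_pos (hiff.2 hlt), if_pos hlt]
        simp only [hc]
        rw [if_pos (by omega), hgk k i hi']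
      · rw [if_neg (fun h => hlt (hiff.1 h)), if_neg hlt, zero_smul]
    rw [e1, e2] at hcutc
    exact hcutc

end Pool.Agent.R270.NB
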