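import Pool.Agent.R270.NB.One

/-! Project NB (MP_c30670_an), piece MID: the cut inside a stage. -/

set_option autoImplicit false

namespace Pool.Agent.R270.NB
open Finset

namespace Mid

open OneAux

/-- average of `F` over the children `m0 ≤ n < M` of the atom `j` -/
noncomputable def avG (M m0 j : ℕ) (F : ℕ → ℝ) : ℝ :=
  (∑ n ∈ Ico m0 M, F (j * M + n)) / (Ico m0 M).card

theorem split_sum (M m0 : ℕ) (h : m0 ≤ M) (f : ℕ → ℝ) :
    ∑ n ∈ range M, f n = ∑ n ∈ range m0, f n + ∑ n ∈ Ico m0 M, f n :=
  (Finset.sum_range_add_sum_Ico f h).symm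

theorem two_bound {p : ℝ} (hp : 1 < p) {x y B : ℝ} (hB : 0 ≤ B) (hx : |x| ^ p ≤ B)
    (hy : |y| ^ p ≤ B) : |x - y| ^ p ≤ 2 ^ p * B := by
  have hp0 : 0 < p := by linarith
  have h1 : ∀ z : ℝ, |z| ^ p ≤ B → |z| ≤ B ^ (1 / p) := by
    intro z hz
    have := Real.rpow_le_rpow (Real.rpow_nonneg (abs_nonneg z) p) hz (by positivity : 0 ≤ 1 / p)
    rwa [← Real.rpow_mul (abs_nonneg z), mul_one_div_cancel hp0.ne', Real.rpow_one] at this
  have h2 : |x - y| ≤ 2 * B ^ (1 / p) := by
    calc |x - y| ≤ |x| + |y| := abs_sub x y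
      _ ≤ 2 * B ^ (1 / p) := by linarith [h1 x hx, h1 y hy]
  calc |x - y| ^ p ≤ (2 * B ^ (1 / p)) ^ p := Real.rpow_le_rpow (abs_nonneg _) h2 hp0.le
    _ = 2 ^ p * B := by
        rw [Real.mul_rpow (by norm_num) (Real.rpow_nonneg hB _), ← Real.rpow_mul hB,
          one_div_mul_cancel hp0.ne', Real.rpow_one]

/-- the sum over the later children of one atom -/
theorem tail_sum {p η : ℝ} {M D : ℕ} {o : ℕ → ℕ → ℝ} (hp : 1 < p) (hη : 0 < η) (hη1 : η ≤ 1)
    (h : IsF p η M D o) (m0 : ℕ) (hm : m0 ≤ M) (c : ℕ → ℝ) :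
    |∑ n ∈ Ico m0 M, c n| ^ p ≤ 2 ^ p * (2 * (η ^ p * (M : ℝ) ^ (p - 1) * blk p M D o c)) := by
  have hb := blk_nonneg p M D o c
  have hM : (0 : ℝ) ≤ (M : ℝ) ^ (p - 1) := Real.rpow_nonneg (Nat.cast_nonneg _) _
  have hηp : 0 ≤ η ^ p := Real.rpow_nonneg hη.le _
  have e : ∑ n ∈ Ico m0 M, c n = ∑ n ∈ range M, c n - ∑ n ∈ range m0, c n := by
    rw [split_sum M m0 hm]; ring
  rw [e]
  apply two_bound hp (by positivity)
  · have := h.flat c
    have h2 : 0 ≤ η ^ p * (M : ℝ) ^ (p - 1) * blk p M D o c := by positivity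
    linarith
  · have e2 : ∑ n ∈ range m0, c n = ∑ n ∈ range M, (if n < m0 then c n else 0) := by
      rw [split_sum M m0 hm]
      have h1 : ∑ n ∈ range m0, (if n < m0 then c n else 0) = ∑ n ∈ range m0, c n :=
        Finset.sum_congr rfl fun n hn => if_pos (mem_range.1 hn)
      have h2 : ∑ n ∈ Ico m0 M, (if n < m0 then c n else 0) = 0 :=
        Finset.sum_eq_zero fun n hn => if_neg (not_lt.2 (mem_Ico.1 hn).1)
      rw [h1, h2, add_zero]
    rw [e2]
    refine (h.flat _).trans ?_
    have h3 := h.trunc c m0 hm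
    have h4 : η ^ p * (M : ℝ) ^ (p - 1) * blk p M D o (fun n => if n < m0 then c n else 0) ≤
        η ^ p * (M : ℝ) ^ (p - 1) * ((1 + η) * blk p M D o c) :=
      mul_le_mul_of_nonneg_left h3 (by positivity)
    refine h4.trans ?_
    have h5 : 0 ≤ η ^ p * (M : ℝ) ^ (p - 1) * blk p M D o c := by positivity
    nlinarith

end Mid

open OneAux Mid in
theorem stmMid : StmMid := by
  intro p hp δ hδ
  have hp0 : 0 < p := by linarith
  set K : ℝ := 2 ^ (p + 1) with hK
  have hK1 : 1 ≤ K := Real.one_le_rpow (by norm_num) (by linarith)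
  have hK0 : 0 < K := by linarith
  have hδp : 0 < δ ^ p := Real.rpow_pos_of_pos hδ _
  refine ⟨min 1 ((δ ^ p / K) ^ 2), lt_min one_pos (by positivity), ?_⟩
  intro η hη hη0 M D o hF s L J U c hs hJ
  have hη1 : η ≤ 1 := hη0.trans (min_le_left _ _)
  set θ : ℝ := Real.sqrt η with hθ
  have hθ0 : 0 < θ := Real.sqrt_pos.2 hη
  have hθ2 : θ ^ 2 = η := Real.sq_sqrt hη.le
  have hθ1 : θ ≤ 1 := by
    rw [hθ, Real.sqrt_le_one]; exact hη1
  have hKθ : K * θ ≤ δ ^ p := by
    have h1 : θ ≤ δ ^ p / K := by
      rw [hθ, Real.sqrt_le_left (by positivity)]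
      exact hη0.trans (min_le_right _ _)
    rwa [le_div_iff₀ hK0, mul_comm] at h1
  have hM : 0 < M := by have := hF.two; omega
  have hMR : (0 : ℝ) < M := by exact_mod_cast hM
  have hsR : (0 : ℝ) < s := by exact_mod_cast hs
  set V : ℕ → ℝ := fun i => c i * ((s * M : ℕ) : ℝ) ^ (1 / p) with hV
  set W : ℕ → ℝ := fun i => U (i / M) + V i with hW
  set H : ℕ → ℝ := fun i => U (i / M) + (if i < J then V i else 0) with hH
  have hfin : 0 ≤ δ * (nr p s L U + (outS p M D o L c) ^ (1 / p)) :=
    mul_nonneg hδ.le (add_nonneg (nr_nonneg _ _ _ _) (Real.rpow_nonneg (outS_nonneg _ _ _ _ _ _) _))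
  show nr p (s * M) (L * M) H ≤ nr p (s * M) (L * M) W + δ * (nr p s L U + (outS p M D o L c) ^ (1 / p))
  rcases hJ.eq_or_lt with hJL | hJL
  · have e : nr p (s * M) (L * M) H = nr p (s * M) (L * M) W := by
      unfold nr
      congr 2
      apply Finset.sum_congr rfl
      intro i hi
      simp only [hH, hW]
      rw [if_pos (by rw [hJL]; exact mem_range.1 hi)]
    rw [e]; linarith
  -- the atom of the cut
  set j0 := J / M with hj0
  set m0 := J % M with hm0
  have hJe : J = j0 * M + m0 := by rw [hj0, hm0, mul_comm]; exact (Nat.div_add_mod J M).symm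
  have hm0M : m0 < M := Nat.mod_lt _ hM
  set g : ℝ := if θ * M < ((Ico m0 M).card : ℝ) then avG M m0 j0 W else 0 with hg
  set H2 : ℕ → ℝ := fun i => if i < J then W i else if i / M = j0 then g else avg M W (i / M)
    with hH2
  -- the pieces of an atom
  have hlt : ∀ j n, n < M → (j * M + n < J ↔ j < j0 ∨ (j = j0 ∧ n < m0)) := by
    intro j n hn
    rw [hJe]
    constructor
    · intro h
      rcases lt_trichotomy j j0 with h1 | h1 | h1
      · exact Or.inl h1
      · right; subst h1; exact ⟨rfl, by omega⟩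
      · exfalso
        have : (j0 + 1) * M ≤ j * M := Nat.mul_le_mul_right _ h1
        rw [Nat.succ_mul] at this
        omega
    · rintro (h1 | ⟨h1, h2⟩)
      · have : (j + 1) * M ≤ j0 * M := Nat.mul_le_mul_right _ h1
        rw [Nat.succ_mul] at this
        omega
      · subst h1; omega
  have hWv : ∀ j n, n < M → W (j * M + n) = U j + V (j * M + n) := by
    intro j n hn
    simp only [hW]
    rw [div_mul_add M j n hn]
  have hcard : 0 < (Ico m0 M).card := by rw [Nat.card_Ico]; omega
  have hcardR : (0 : ℝ) < (Ico m0 M).card := by exact_mod_cast hcard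
  have hGne : (Ico m0 M).Nonempty := Finset.card_pos.1 hcard
  -- (a)
  have ha : ∀ j, ∑ n ∈ range M, |H2 (j * M + n)| ^ p ≤ ∑ n ∈ range M, |W (j * M + n)| ^ p := by
    intro j
    rcases lt_trichotomy j j0 with h1 | h1 | h1
    · apply le_of_eq
      apply Finset.sum_congr rfl
      intro n hn
      simp only [hH2]
      rw [if_pos ((hlt j n (mem_range.1 hn)).2 (Or.inl h1))]
    · rw [split_sum M m0 hm0M.le, split_sum M m0 hm0M.le (fun n => |W (j * M + n)| ^ p)]
      apply add_le_add
      · apply le_of_eq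
        apply Finset.sum_congr rfl
        intro n hn
        have hn' := mem_range.1 hn
        simp only [hH2]
        rw [if_pos ((hlt j n (by omega)).2 (Or.inr ⟨h1, hn'⟩))]
      · have e : ∀ n ∈ Ico m0 M, |H2 (j * M + n)| ^ p = |g| ^ p := by
          intro n hn
          have hn' := mem_Ico.1 hn
          simp only [hH2]
          rw [if_neg (fun h => by
            rcases (hlt j n hn'.2).1 h with h2 | h2
            · omega
            · omega), div_mul_add M j n hn'.2, if_pos h1]
        rw [Finset.sum_congr rfl e, Finset.sum_const, nsmul_eq_mul]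
        by_cases hc : θ * M < ((Ico m0 M).card : ℝ)
        · rw [hg, if_pos hc]
          have hj := jensen hp.le (Ico m0 M) (fun n => W (j0 * M + n)) hGne
          unfold avG
          rw [h1]
          calc ((Ico m0 M).card : ℝ) * |(∑ n ∈ Ico m0 M, W (j0 * M + n)) / (Ico m0 M).card| ^ p
              ≤ ((Ico m0 M).card : ℝ) * ((∑ n ∈ Ico m0 M, |W (j0 * M + n)| ^ p) /
                (Ico m0 M).card) := mul_le_mul_of_nonneg_left hj hcardR.le
            _ = ∑ n ∈ Ico m0 M, |W (j0 * M + n)| ^ p := by
                rw [mul_comm, div_mul_cancel₀ _ hcardR.ne']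
        · rw [hg, if_neg hc, abs_zero, Real.zero_rpow hp0.ne', mul_zero]
          exact Finset.sum_nonneg fun _ _ => Real.rpow_nonneg (abs_nonneg _) _
    · have e : ∀ n ∈ range M, |H2 (j * M + n)| ^ p = |avg M W j| ^ p := by
        intro n hn
        have hn' := mem_range.1 hn
        simp only [hH2]
        rw [if_neg (fun h => by
          rcases (hlt j n hn').1 h with h2 | h2
          · omega
          · omega), div_mul_add M j n hn', if_neg (by omega)]
      rw [Finset.sum_congr rfl e, Finset.sum_const, card_range, nsmul_eq_mul]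
      calc (M : ℝ) * |avg M W j| ^ p ≤ M * ((∑ n ∈ range M, |W (j * M + n)| ^ p) / M) :=
            mul_le_mul_of_nonneg_left (jensen_avg hp.le M hM W j) hMR.le
        _ = ∑ n ∈ range M, |W (j * M + n)| ^ p := by field_simp
  -- (b)
  have hb : ∀ j, ∑ n ∈ range M, |H (j * M + n) - H2 (j * M + n)| ^ p ≤
      ((s : ℝ) * M) * (K * θ * (blk p M D o (fun n => c (j * M + n)) + |U j| ^ p / s)) := by
    intro j
    have hbn := blk_nonneg p M D o (fun n => c (j * M + n))
    have hUn : 0 ≤ |U j| ^ p / s := div_nonneg (Real.rpow_nonneg (abs_nonneg _) _) hsR.le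
    have hθ2p : η ^ p ≤ θ := by
      rw [← hθ2, ← Real.rpow_natCast θ 2, ← Real.rpow_mul hθ0.le]
      calc θ ^ (((2 : ℕ) : ℝ) * p) ≤ θ ^ (1 : ℝ) :=
            Real.rpow_le_rpow_of_exponent_ge hθ0 hθ1 (by push_cast; linarith)
        _ = θ := Real.rpow_one θ
    rcases lt_trichotomy j j0 with h1 | h1 | h1
    · have e : ∀ n ∈ range M, |H (j * M + n) - H2 (j * M + n)| ^ p = 0 := by
        intro n hn
        have h2 := (hlt j n (mem_range.1 hn)).2 (Or.inl h1)
        simp only [hH, hH2, hW]
        rw [if_pos h2, if_pos h2, sub_self, abs_zero, Real.zero_rpow hp0.ne']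
      rw [Finset.sum_congr rfl e, Finset.sum_const_zero]
      positivity
    · rw [split_sum M m0 hm0M.le]
      have e0 : ∑ n ∈ range m0, |H (j * M + n) - H2 (j * M + n)| ^ p = 0 := by
        apply Finset.sum_eq_zero
        intro n hn
        have hn' := mem_range.1 hn
        have h2 := (hlt j n (by omega)).2 (Or.inr ⟨h1, hn'⟩)
        simp only [hH, hH2, hW]
        rw [if_pos h2, if_pos h2, sub_self, abs_zero, Real.zero_rpow hp0.ne']
      have e : ∀ n ∈ Ico m0 M, |H (j * M + n) - H2 (j * M + n)| ^ p = |U j - g| ^ p := by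
        intro n hn
        have hn' := mem_Ico.1 hn
        have h2 : ¬ (j * M + n < J) := fun h => by
          rcases (hlt j n hn'.2).1 h with h2 | h2
          · omega
          · omega
        simp only [hH, hH2]
        rw [if_neg h2, if_neg h2, div_mul_add M j n hn'.2, if_pos h1, add_zero]
      rw [e0, zero_add, Finset.sum_congr rfl e, Finset.sum_const, nsmul_eq_mul]
      by_cases hc : θ * M < ((Ico m0 M).card : ℝ)
      · -- large
        set N : ℝ := ((Ico m0 M).card : ℝ) with hN
        have hge : U j - g = -((∑ n ∈ Ico m0 M, c (j * M + n)) / N *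
            ((s * M : ℕ) : ℝ) ^ (1 / p)) := by
          rw [hg, if_pos hc, avG, ← hN, h1]
          have e3 : ∑ n ∈ Ico m0 M, W (j0 * M + n) = N * U j0 +
              (∑ n ∈ Ico m0 M, c (j0 * M + n)) * ((s * M : ℕ) : ℝ) ^ (1 / p) := by
            rw [Finset.sum_congr rfl fun n hn => hWv j0 n (mem_Ico.1 hn).2,
              Finset.sum_add_distrib, Finset.sum_const, nsmul_eq_mul, ← hN, Finset.sum_mul]
          rw [e3]
          field_simp
          ring
        rw [hge, abs_neg, pow_root hp0, abs_div, abs_of_pos hcardR,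
          Real.div_rpow (abs_nonneg _) hcardR.le]
        have ht := tail_sum hp hη hη1 hF m0 hm0M.le (fun n => c (j * M + n))
        set b := blk p M D o (fun n => c (j * M + n)) with hbdef
        set S := |∑ n ∈ Ico m0 M, c (j * M + n)| ^ p with hS
        have hS0 : 0 ≤ S := Real.rpow_nonneg (abs_nonneg _) _
        have hθM : 0 < θ * M := mul_pos hθ0 hMR
        -- `N^(1-p) S ≤ K θ b`
        have h4 : N ^ (1 - p) * S ≤ K * θ * b := by
          have h5 : N ^ (1 - p) ≤ (θ * M) ^ (1 - p) :=
            Real.rpow_le_rpow_of_nonpos hθM hc.le (by linarith)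
          calc N ^ (1 - p) * S ≤ (θ * M) ^ (1 - p) * (2 ^ p * (2 * (η ^ p * (M : ℝ) ^ (p - 1) * b))) :=
                mul_le_mul h5 ht hS0 (Real.rpow_nonneg hθM.le _)
            _ = (θ ^ (1 - p) * η ^ p) * ((M : ℝ) ^ (1 - p) * (M : ℝ) ^ (p - 1)) * (2 ^ p * 2) * b := by
                rw [Real.mul_rpow hθ0.le hMR.le]; ring
            _ = (θ ^ (1 - p) * η ^ p) * K * b := by
                rw [← Real.rpow_add hMR, show 1 - p + (p - 1) = 0 by ring, Real.rpow_zero, mul_one,
                  hK, Real.rpow_add (by norm_num : (0:ℝ) < 2), Real.rpow_one]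
            _ ≤ θ * K * b := by
                have h6 : θ ^ (1 - p) * η ^ p ≤ θ := by
                  rw [← hθ2, ← Real.rpow_natCast θ 2, ← Real.rpow_mul hθ0.le, ← Real.rpow_add hθ0]
                  calc θ ^ (1 - p + ((2 : ℕ) : ℝ) * p) ≤ θ ^ (1 : ℝ) :=
                        Real.rpow_le_rpow_of_exponent_ge hθ0 hθ1 (by push_cast; linarith)
                    _ = θ := Real.rpow_one θ
                exact mul_le_mul_of_nonneg_right (mul_le_mul_of_nonneg_right h6 hK0.le) hbn
            _ = K * θ * b := by ring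
        have hNp : N * (S / N ^ p * ((s * M : ℕ) : ℝ)) = ((s : ℝ) * M) * (N ^ (1 - p) * S) := by
          rw [Real.rpow_sub hcardR, Real.rpow_one]
          push_cast
          ring
        rw [hNp]
        apply mul_le_mul_of_nonneg_left _ (by positivity)
        refine h4.trans ?_
        apply mul_le_mul_of_nonneg_left _ (by positivity)
        linarith
      · -- small
        rw [hg, if_neg hc, sub_zero]
        push Not at hc
        have hX : ∀ X : ℝ, (θ * M) * X = ((s : ℝ) * M) * (1 * θ * (X / s)) := by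
          intro X; field_simp
        calc ((Ico m0 M).card : ℝ) * |U j| ^ p ≤ (θ * M) * |U j| ^ p :=
              mul_le_mul_of_nonneg_right hc (Real.rpow_nonneg (abs_nonneg _) _)
          _ = ((s : ℝ) * M) * (1 * θ * (|U j| ^ p / s)) := hX _
          _ ≤ ((s : ℝ) * M) * (K * θ * (blk p M D o (fun n => c (j * M + n)) + |U j| ^ p / s)) := by
              apply mul_le_mul_of_nonneg_left _ (by positivity)
              apply mul_le_mul
              · exact mul_le_mul_of_nonneg_right hK1 hθ0.le
              · linarith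
              · exact hUn
              · positivity
    · have e : ∀ n ∈ range M, |H (j * M + n) - H2 (j * M + n)| ^ p = |avg M V j| ^ p := by
        intro n hn
        have hn' := mem_range.1 hn
        have h2 : ¬ (j * M + n < J) := fun h => by
          rcases (hlt j n hn').1 h with h2 | h2
          · omega
          · omega
        simp only [hH, hH2]
        rw [if_neg h2, if_neg h2, div_mul_add M j n hn', if_neg (by omega), add_zero]
        have e3 : avg M W j = U j + avg M V j := by
          unfold avg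
          rw [Finset.sum_congr rfl fun n hn => hWv j n (mem_range.1 hn), Finset.sum_add_distrib,
            Finset.sum_const, card_range, nsmul_eq_mul]
          field_simp
        rw [e3, sub_add_cancel_left, abs_neg]
      rw [Finset.sum_congr rfl e, Finset.sum_const, card_range, nsmul_eq_mul]
      calc (M : ℝ) * |avg M V j| ^ p ≤ M * (s * (η ^ p * blk p M D o (fun n => c (j * M + n)))) :=
            mul_le_mul_of_nonneg_left (avg_V hp hF s c j) hMR.le
        _ = ((s : ℝ) * M) * (η ^ p * blk p M D o (fun n => c (j * M + n))) := by ring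
        _ ≤ ((s : ℝ) * M) * (K * θ * (blk p M D o (fun n => c (j * M + n)) + |U j| ^ p / s)) := by
            apply mul_le_mul_of_nonneg_left _ (by positivity)
            apply mul_le_mul
            · calc η ^ p ≤ 1 * θ := by rw [one_mul]; exact hθ2p
                _ ≤ K * θ := mul_le_mul_of_nonneg_right hK1 hθ0.le
            · linarith
            · exact hbn
            · positivity
  -- conclusion
  have hn1 : nr p (s * M) (L * M) H2 ≤ nr p (s * M) (L * M) W := by
    unfold nr
    apply Real.rpow_le_rpow (div_nonneg (sum_nonneg' _ _ _) (Nat.cast_nonneg _)) _ (by positivity)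
    apply div_le_div_of_nonneg_right _ (Nat.cast_nonneg _)
    rw [sum_split, sum_split]
    exact Finset.sum_le_sum fun j _ => ha j
  have hsum : (∑ i ∈ range (L * M), |H i - H2 i| ^ p) / ((s * M : ℕ) : ℝ) ≤
      K * θ * (outS p M D o L c + (nr p s L U) ^ p) := by
    have hsM : (0 : ℝ) < ((s * M : ℕ) : ℝ) := by push_cast; positivity
    rw [div_le_iff₀ hsM, sum_split]
    calc ∑ j ∈ range L, ∑ n ∈ range M, |H (j * M + n) - H2 (j * M + n)| ^ p
        ≤ ∑ j ∈ range L, ((s : ℝ) * M) * (K * θ * (blk p M D o (fun n => c (j * M + n)) +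
          |U j| ^ p / s)) := Finset.sum_le_sum fun j _ => hb j
      _ = K * θ * (outS p M D o L c + (nr p s L U) ^ p) * ((s * M : ℕ) : ℝ) := by
          rw [← Finset.mul_sum, ← Finset.mul_sum, Finset.sum_add_distrib, ← Finset.sum_div]
          have e5 : (nr p s L U) ^ p = (∑ i ∈ range L, |U i| ^ p) / s := by
            unfold nr
            rw [← Real.rpow_mul (div_nonneg (sum_nonneg' _ _ _) (Nat.cast_nonneg _)),
              one_div_mul_cancel hp0.ne', Real.rpow_one]
          rw [e5]
          unfold outS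
          push_cast
          ring
  have hn2 : nr p (s * M) (L * M) (fun i => H i - H2 i) ≤
      δ * (nr p s L U + (outS p M D o L c) ^ (1 / p)) := by
    have h1 := nr_le hp0 (s * M) (L * M) (fun i => H i - H2 i) _ hsum
    refine h1.trans ?_
    have hO := outS_nonneg p M D o L c
    have hU := nr_nonneg p s L U
    have hUp : 0 ≤ (nr p s L U) ^ p := Real.rpow_nonneg hU _
    rw [Real.mul_rpow (by positivity) (add_nonneg hO hUp)]
    apply mul_le_mul
    · calc (K * θ) ^ (1 / p) ≤ (δ ^ p) ^ (1 / p) :=
            Real.rpow_le_rpow (by positivity) hKθ (by positivity)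
        _ = δ := by
            rw [← Real.rpow_mul hδ.le, mul_one_div_cancel hp0.ne', Real.rpow_one]
    · have h2 := Real.rpow_add_le_add_rpow hO hUp (by positivity : 0 ≤ 1 / p)
        (by rw [div_le_one hp0]; exact hp.le)
      refine h2.trans (le_of_eq ?_)
      rw [← Real.rpow_mul hU, mul_one_div_cancel hp0.ne', Real.rpow_one]
      ring
    · exact Real.rpow_nonneg (add_nonneg hO hUp) _
    · exact hδ.le
  have hadd := nr_add hp.le (s * M) (L * M) H2 (fun i => H i - H2 i)
  have e : (fun i => H2 i + (H i - H2 i)) = H := by funext i; ring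
  rw [e] at hadd
  linarith

end Pool.Agent.R270.NB
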