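import Pool.Agent.R270.NB.Stm

/-! Project NB (MP_c30670_an), piece ONE, and small lemmas on averages and `nr`. -/

set_option autoImplicit false

namespace Pool.Agent.R270.NB
open Finset

namespace OneAux

/-- average over the children of the atom `j` -/
noncomputable def avg (M : ℕ) (F : ℕ → ℝ) (j : ℕ) : ℝ := (∑ n ∈ range M, F (j * M + n)) / M

theorem sum_split (L M : ℕ) (G : ℕ → ℝ) :
    ∑ i ∈ range (L * M), G i = ∑ j ∈ range L, ∑ n ∈ range M, G (j * M + n) := by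
  induction L with
  | zero => simp
  | succ L ih => rw [Nat.succ_mul, Finset.sum_range_add, ih, Finset.sum_range_succ]

theorem div_mul_add (M j n : ℕ) (hn : n < M) : (j * M + n) / M = j := by
  rw [mul_comm, Nat.mul_add_div (by omega), Nat.div_eq_of_lt hn, add_zero]

/-- Jensen -/
theorem jensen {p : ℝ} (hp : 1 ≤ p) (s : Finset ℕ) (F : ℕ → ℝ) (hs : s.Nonempty) :
    |(∑ n ∈ s, F n) / s.card| ^ p ≤ (∑ n ∈ s, |F n| ^ p) / s.card := by
  have hM : (0 : ℝ) < s.card := by exact_mod_cast hs.card_pos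
  have h := Real.rpow_arith_mean_le_arith_mean_rpow s (fun _ => (1 : ℝ) / s.card)
    (fun n => |F n|) (fun _ _ => by positivity) (by
      rw [Finset.sum_const, nsmul_eq_mul]; field_simp) (fun _ _ => abs_nonneg _) hp
  have h1 : |(∑ n ∈ s, F n) / s.card| ≤ ∑ n ∈ s, (1 : ℝ) / s.card * |F n| := by
    rw [← Finset.mul_sum, abs_div, abs_of_pos hM, one_div, inv_mul_eq_div]
    exact div_le_div_of_nonneg_right (Finset.abs_sum_le_sum_abs _ _) hM.le
  calc |(∑ n ∈ s, F n) / s.card| ^ p ≤ (∑ n ∈ s, (1 : ℝ) / s.card * |F n|) ^ p :=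
        Real.rpow_le_rpow (abs_nonneg _) h1 (by linarith)
    _ ≤ ∑ n ∈ s, (1 : ℝ) / s.card * |F n| ^ p := h
    _ = (∑ n ∈ s, |F n| ^ p) / s.card := by
        rw [← Finset.mul_sum, one_div, inv_mul_eq_div]

theorem jensen_avg {p : ℝ} (hp : 1 ≤ p) (M : ℕ) (hM : 0 < M) (F : ℕ → ℝ) (j : ℕ) :
    |avg M F j| ^ p ≤ (∑ n ∈ range M, |F (j * M + n)| ^ p) / M := by
  have h := jensen hp (range M) (fun n => F (j * M + n)) ⟨0, mem_range.2 hM⟩
  rw [card_range] at h
  exact h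

theorem sum_nonneg' (p : ℝ) (R : ℕ) (F : ℕ → ℝ) : 0 ≤ ∑ i ∈ range R, |F i| ^ p :=
  Finset.sum_nonneg fun _ _ => Real.rpow_nonneg (abs_nonneg _) _

theorem nr_nonneg (p : ℝ) (s R : ℕ) (F : ℕ → ℝ) : 0 ≤ nr p s R F :=
  Real.rpow_nonneg (div_nonneg (sum_nonneg' p R F) (Nat.cast_nonneg _)) _

/-- comparison of sums gives comparison of norms -/
theorem nr_le {p : ℝ} (hp : 0 < p) (s R : ℕ) (F : ℕ → ℝ) (X : ℝ)
    (h : (∑ i ∈ range R, |F i| ^ p) / s ≤ X) : nr p s R F ≤ X ^ (1 / p) :=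
  Real.rpow_le_rpow (div_nonneg (sum_nonneg' p R F) (Nat.cast_nonneg _)) h (by positivity)

/-- Minkowski -/
theorem nr_add {p : ℝ} (hp : 1 ≤ p) (s R : ℕ) (F G : ℕ → ℝ) :
    nr p s R (fun i => F i + G i) ≤ nr p s R F + nr p s R G := by
  unfold nr
  have hs : (0 : ℝ) ≤ s := Nat.cast_nonneg _
  rw [Real.div_rpow (sum_nonneg' p R _) hs, Real.div_rpow (sum_nonneg' p R _) hs,
    Real.div_rpow (sum_nonneg' p R _) hs, ← add_div]
  exact div_le_div_of_nonneg_right (Real.Lp_add_le (range R) F G hp) (Real.rpow_nonneg hs _)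

theorem nr_sub {p : ℝ} (hp : 1 ≤ p) (s R : ℕ) (F G : ℕ → ℝ) :
    nr p s R (fun i => F i - G i) ≤ nr p s R F + nr p s R G := by
  have h := nr_add hp s R F (fun i => -G i)
  have e : nr p s R (fun i => -G i) = nr p s R G := by
    unfold nr; simp only [abs_neg]
  rw [e] at h
  simpa [sub_eq_add_neg] using h

/-- averaging contracts `nr` -/
theorem nr_avg {p : ℝ} (hp : 1 ≤ p) (s L M : ℕ) (hM : 0 < M) (F : ℕ → ℝ) :
    nr p s L (avg M F) ≤ nr p (s * M) (L * M) F := by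
  apply nr_le (by linarith)
  have h1 : ∑ j ∈ range L, |avg M F j| ^ p ≤ (∑ i ∈ range (L * M), |F i| ^ p) / M := by
    rw [sum_split, Finset.sum_div]
    exact Finset.sum_le_sum fun j _ => jensen_avg hp M hM F j
  have hs : (0 : ℝ) ≤ s := Nat.cast_nonneg _
  refine (div_le_div_of_nonneg_right h1 hs).trans (le_of_eq ?_)
  rw [div_div, mul_comm (M : ℝ)]
  push_cast
  rfl

theorem blk_nonneg (p : ℝ) (M D : ℕ) (o : ℕ → ℕ → ℝ) (c : ℕ → ℝ) : 0 ≤ blk p M D o c :=
  Finset.sum_nonneg fun _ _ => Real.rpow_nonneg (abs_nonneg _) _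

theorem outS_nonneg (p : ℝ) (M D : ℕ) (o : ℕ → ℕ → ℝ) (L : ℕ) (c : ℕ → ℝ) :
    0 ≤ outS p M D o L c := Finset.sum_nonneg fun _ _ => blk_nonneg _ _ _ _ _

/-- the factor of one value -/
theorem pow_root {p : ℝ} (hp : 0 < p) (x : ℝ) (N : ℕ) :
    |x * (N : ℝ) ^ (1 / p)| ^ p = |x| ^ p * N := by
  have hN : (0 : ℝ) ≤ N := Nat.cast_nonneg _
  rw [abs_mul, Real.mul_rpow (abs_nonneg _) (abs_nonneg _), abs_of_nonneg (Real.rpow_nonneg hN _),
    ← Real.rpow_mul hN, one_div, inv_mul_cancel₀ hp.ne', Real.rpow_one]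

/-- average of the new values on one atom -/
theorem avg_V {p η : ℝ} {M D : ℕ} {o : ℕ → ℕ → ℝ} (hp : 1 < p) (h : IsF p η M D o) (s : ℕ)
    (c : ℕ → ℝ) (j : ℕ) :
    |avg M (fun i => c i * ((s * M : ℕ) : ℝ) ^ (1 / p)) j| ^ p ≤
      s * (η ^ p * blk p M D o (fun n => c (j * M + n))) := by
  have hM : (0 : ℝ) < M := by
    have := h.two
    exact_mod_cast (by omega : 0 < M)
  have e : avg M (fun i => c i * ((s * M : ℕ) : ℝ) ^ (1 / p)) j =
      ((∑ n ∈ range M, c (j * M + n)) / M) * ((s * M : ℕ) : ℝ) ^ (1 / p) := by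
    unfold avg
    rw [← Finset.sum_mul]; ring
  rw [e, pow_root (by linarith), abs_div, Real.div_rpow (abs_nonneg _) (abs_nonneg _),
    abs_of_pos hM]
  have hf := h.flat (fun n => c (j * M + n))
  have hMp : 0 < (M : ℝ) ^ p := Real.rpow_pos_of_pos hM _
  have e2 : (M : ℝ) ^ (p - 1) * M = (M : ℝ) ^ p := by
    rw [Real.rpow_sub_one hM.ne']; field_simp
  push_cast
  rw [div_mul_eq_mul_div, div_le_iff₀ hMp]
  calc |∑ n ∈ range M, c (j * M + n)| ^ p * (s * M)
      ≤ (η ^ p * (M : ℝ) ^ (p - 1) * blk p M D o (fun n => c (j * M + n))) * (s * M) :=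
        mul_le_mul_of_nonneg_right hf (by positivity)
    _ = s * (η ^ p * blk p M D o (fun n => c (j * M + n))) * ((M : ℝ) ^ (p - 1) * M) := by ring
    _ = _ := by rw [e2]

end OneAux

open OneAux in
theorem stmOne : StmOne := by
  intro p η M D o hp hη hF s L U c hs
  have hM : 0 < M := by have := hF.two; omega
  have hMR : (0 : ℝ) < M := by exact_mod_cast hM
  have hsR : (0 : ℝ) < s := by exact_mod_cast hs
  set V : ℕ → ℝ := fun i => c i * ((s * M : ℕ) : ℝ) ^ (1 / p) with hV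
  have e1 : nr p s L U = nr p s L (fun j => avg M (fun i => U (i / M) + V i) j - avg M V j) := by
    congr 1
    funext j
    unfold avg
    rw [← sub_div, ← Finset.sum_sub_distrib]
    have : ∀ n ∈ range M, U ((j * M + n) / M) + V (j * M + n) - V (j * M + n) = U j := by
      intro n hn
      rw [div_mul_add M j n (mem_range.1 hn)]; ring
    rw [Finset.sum_congr rfl this, Finset.sum_const, card_range, nsmul_eq_mul]
    field_simp
  rw [e1]
  refine (nr_sub hp.le s L _ _).trans ?_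
  apply add_le_add
  · exact nr_avg hp.le s L M hM _
  · have h1 : (∑ j ∈ range L, |avg M V j| ^ p) / s ≤ η ^ p * outS p M D o L c := by
      rw [div_le_iff₀ hsR]
      unfold outS
      rw [Finset.mul_sum, Finset.sum_mul]
      apply Finset.sum_le_sum
      intro j _
      refine (avg_V hp hF s c j).trans (le_of_eq ?_)
      ring
    refine (nr_le (by linarith) s L _ _ h1).trans (le_of_eq ?_)
    rw [Real.mul_rpow (Real.rpow_nonneg hη.le _) (outS_nonneg _ _ _ _ _ _), ← Real.rpow_mul hη.le,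
      mul_one_div_cancel (by linarith), Real.rpow_one]

end Pool.Agent.R270.NB
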