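import Pool.Agent.R270.NB.Stm

/-! Project NB: the case `p = 1`. -/

namespace Pool.Agent.R270.NB
open Finset

namespace P1Aux

theorem sumTwo (m : ℕ) (f : ℕ → ℝ) :
    ∑ n ∈ range (2 * m), f n = ∑ d ∈ range m, (f (2 * d) + f (2 * d + 1)) := by
  induction m with
  | zero => simp
  | succ m ih =>
    rw [show 2 * (m + 1) = 2 * m + 1 + 1 by ring, sum_range_succ, sum_range_succ, sum_range_succ, ih]
    ring

theorem sumMul (L m : ℕ) (f : ℕ → ℝ) :
    ∑ r ∈ range (L * m), f r = ∑ j ∈ range L, ∑ d ∈ range m, f (j * m + d) := by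
  induction L with
  | zero => simp
  | succ L ih =>
    rw [sum_range_succ, Nat.succ_mul, sum_range_add, ih]

theorem sumDiv (L m : ℕ) (hm : 0 < m) (f : ℕ → ℝ) :
    ∑ r ∈ range (L * m), f (r / m) = m * ∑ j ∈ range L, f j := by
  rw [sumMul, mul_sum]
  apply sum_congr rfl
  intro j _
  have : ∀ d ∈ range m, f ((j * m + d) / m) = f j := by
    intro d hd
    rw [mem_range] at hd
    congr 1
    rw [mul_comm j m, Nat.mul_add_div hm, Nat.div_eq_of_lt hd, add_zero]
  rw [sum_congr rfl this, sum_const, card_range, nsmul_eq_mul]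

/-- outer coefficients -/
def oo : ℕ → ℕ → ℝ := fun n d => if n / 2 = d then 1 else 0

theorem blk_eq (m : ℕ) (c : ℕ → ℝ) :
    blk 1 (2 * m) m oo c = ∑ d ∈ range m, |c (2 * d) + c (2 * d + 1)| := by
  unfold blk
  apply sum_congr rfl
  intro d hd
  rw [Real.rpow_one, sumTwo]
  congr 1
  have : ∀ e ∈ range m, c (2 * e) * oo (2 * e) d + c (2 * e + 1) * oo (2 * e + 1) d =
      if e = d then c (2 * e) + c (2 * e + 1) else 0 := by
    intro e _
    unfold oo
    have h1 : 2 * e / 2 = e := by omega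
    have h2 : (2 * e + 1) / 2 = e := by omega
    rw [h1, h2]
    split_ifs <;> simp
  rw [sum_congr rfl this, sum_ite_eq', if_pos hd]

theorem outS_eq (m L : ℕ) (c : ℕ → ℝ) :
    outS 1 (2 * m) m oo L c = ∑ r ∈ range (L * m), |c (2 * r) + c (2 * r + 1)| := by
  unfold outS
  rw [sumMul]
  apply sum_congr rfl
  intro j _
  rw [blk_eq]
  apply sum_congr rfl
  intro d _
  have h1 : j * (2 * m) + 2 * d = 2 * (j * m + d) := by ring
  have h2 : j * (2 * m) + (2 * d + 1) = 2 * (j * m + d) + 1 := by ring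
  rw [h1, h2]

/-- pair energy -/
noncomputable def g (A x y : ℝ) : ℝ := |A + x| + |A + y| + |x + y|

theorem g_ge (A x y : ℝ) : 2 * |A| ≤ g A x y := by
  unfold g
  have h1 : 2 * |A| = |(A + x) + (A + y) - (x + y)| := by
    rw [show (A + x) + (A + y) - (x + y) = 2 * A by ring, abs_mul, abs_two]
  rw [h1]
  have h2 := abs_sub ((A + x) + (A + y)) (x + y)
  have h3 := abs_add_le (A + x) (A + y)
  linarith

theorem g_zero (A : ℝ) : g A 0 0 = 2 * |A| := by
  unfold g; simp; ring

theorem g_half (A x y : ℝ) : g A x 0 ≤ g A x y + 2 * |A| := by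
  unfold g
  have h1 : |x| ≤ |A + y| + |x + y| + |A| := by
    have h2 : x = (x + y) - (A + y) + A := by ring
    have h3 := abs_add_le ((x + y) - (A + y)) A
    have h4 := abs_sub (x + y) (A + y)
    rw [← h2] at h3
    linarith
  rw [add_zero, add_zero]
  linarith

/-- the constant sequence -/
def MM (m : ℕ) : ℕ → ℕ := fun _ => 2 * m

/-- the mass of the inner part at a child -/
noncomputable def A (m : ℕ) (c : ℕ → ℕ → ℝ) (k j : ℕ) : ℝ :=
  inn 1 (MM m) c k j / sc (MM m) (k + 1)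

theorem sc_pos (m : ℕ) (hm : 0 < m) (k : ℕ) : 0 < sc (MM m) k := by
  induction k with
  | zero => exact one_pos
  | succ k ih => exact Nat.mul_pos ih (by unfold MM; omega)

theorem inn_succ (m : ℕ) (c : ℕ → ℕ → ℝ) (k i : ℕ) :
    inn 1 (MM m) c (k + 1) i = inn 1 (MM m) c k (i / (2 * m)) +
      (if i < cnt (MM m) k then c k i * (sc (MM m) (k + 1) : ℝ) else 0) := by
  change inn 1 (MM m) c k (i / (2 * m)) +
      (if i < cnt (MM m) k then c k i * (sc (MM m) (k + 1) : ℝ) ^ (1 / 1 : ℝ) else 0) = _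
  rw [div_one, Real.rpow_one]

theorem inE_succ (m : ℕ) (hm : 0 < m) (c : ℕ → ℕ → ℝ) (k : ℕ) :
    inE 1 (MM m) c (k + 1) = ∑ r ∈ range ((k + 1) * sc (MM m) k * m),
      (|A m c k (r / m) + c k (2 * r)| + |A m c k (r / m) + c k (2 * r + 1)|) := by
  unfold inE
  have hSpos : (0:ℝ) < sc (MM m) (k + 1) := by exact_mod_cast sc_pos m hm (k + 1)
  have hcount : (k + 1) * sc (MM m) (k + 1) = 2 * ((k + 1) * sc (MM m) k * m) := by
    change (k + 1) * (sc (MM m) k * (2 * m)) = _
    ring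
  rw [hcount, sumTwo, sum_div]
  have key : ∀ i, i < cnt (MM m) k → |inn 1 (MM m) c (k + 1) i| ^ (1:ℝ) / (sc (MM m) (k + 1) : ℝ) =
      |A m c k (i / (2 * m)) + c k i| := by
    intro i hi
    rw [Real.rpow_one, inn_succ, if_pos hi]
    nth_rewrite 2 [← abs_of_pos hSpos]
    rw [← abs_div]
    congr 1
    unfold A
    field_simp
  apply sum_congr rfl
  intro r hr
  rw [mem_range] at hr
  have hc : cnt (MM m) k = 2 * ((k + 1) * sc (MM m) k * m) := by
    unfold cnt
    change (k + 1) * sc (MM m) k * (2 * m) = _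
    ring
  have h1 := key (2 * r) (by rw [hc]; omega)
  have h2 := key (2 * r + 1) (by rw [hc]; omega)
  have e1 : 2 * r / (2 * m) = r / m := Nat.mul_div_mul_left _ _ (by norm_num)
  have e2 : (2 * r + 1) / (2 * m) = r / m := by
    rw [← Nat.div_div_eq_div_mul]
    congr 1
    omega
  rw [e1] at h1
  rw [e2] at h2
  rw [add_div, h1, h2]

theorem inn_zero (m : ℕ) (hm : 0 < m) (c : ℕ → ℕ → ℝ) (k i : ℕ) (h : k * sc (MM m) k ≤ i) :
    inn 1 (MM m) c k i = 0 := by
  induction k generalizing i with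
  | zero => rfl
  | succ k ih =>
    have h' : (k + 1) * (sc (MM m) k * (2 * m)) ≤ i := h
    rw [inn_succ, if_neg, ih, add_zero]
    · rw [Nat.le_div_iff_mul_le (by omega)]
      refine le_trans ?_ h'
      have : k * sc (MM m) k * (2 * m) = k * (sc (MM m) k * (2 * m)) := by ring
      rw [this]
      exact Nat.mul_le_mul_right _ (by omega)
    · unfold cnt
      change ¬ i < (k + 1) * sc (MM m) k * (2 * m)
      rw [not_lt, mul_assoc]
      exact h'

theorem inE_eq (m : ℕ) (hm : 0 < m) (c : ℕ → ℕ → ℝ) (k : ℕ) :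
    inE 1 (MM m) c k = ∑ r ∈ range ((k + 1) * sc (MM m) k * m), 2 * |A m c k (r / m)| := by
  have hspos : (0:ℝ) < sc (MM m) k := by exact_mod_cast sc_pos m hm k
  have hmpos : (0:ℝ) < m := by exact_mod_cast hm
  rw [sumDiv ((k + 1) * sc (MM m) k) m hm (fun j => 2 * |A m c k j|)]
  unfold inE
  have hsub : ∑ i ∈ range (k * sc (MM m) k), |inn 1 (MM m) c k i| ^ (1:ℝ) =
      ∑ i ∈ range ((k + 1) * sc (MM m) k), |inn 1 (MM m) c k i| := by
    have h0 : ∀ i, |inn 1 (MM m) c k i| ^ (1:ℝ) = |inn 1 (MM m) c k i| := fun i => Real.rpow_one _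
    rw [sum_congr rfl (fun i _ => h0 i)]
    apply sum_subset
    · apply range_subset_range.2
      exact Nat.mul_le_mul_right _ (by omega)
    · intro i _ hi
      rw [mem_range, not_lt] at hi
      rw [inn_zero m hm c k i hi, abs_zero]
  rw [hsub, sum_div, mul_sum]
  apply sum_congr rfl
  intro j _
  unfold A
  have hS : (sc (MM m) (k + 1) : ℝ) = sc (MM m) k * (2 * m) := by
    change ((sc (MM m) k * (2 * m) : ℕ) : ℝ) = _
    push_cast
    ring
  rw [hS, abs_div, abs_of_pos (mul_pos hspos (mul_pos two_pos hmpos))]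
  field_simp

/-- the constant outer coefficients -/
def O : ℕ → ℕ → ℕ → ℝ := fun _ => oo

theorem outE_succ (m : ℕ) (c : ℕ → ℕ → ℝ) (k : ℕ) :
    outE 1 (MM m) (fun _ => m) O c (k + 1) = outE 1 (MM m) (fun _ => m) O c k +
      ∑ r ∈ range ((k + 1) * sc (MM m) k * m), |c k (2 * r) + c k (2 * r + 1)| := by
  unfold outE
  rw [sum_range_succ]
  congr 1
  exact outS_eq m _ _

theorem en_succ (m : ℕ) (hm : 0 < m) (c : ℕ → ℕ → ℝ) (k : ℕ) :
    en 1 (MM m) (fun _ => m) O c (k + 1) = outE 1 (MM m) (fun _ => m) O c k +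
      ∑ r ∈ range ((k + 1) * sc (MM m) k * m), g (A m c k (r / m)) (c k (2 * r)) (c k (2 * r + 1)) := by
  unfold en
  rw [inE_succ m hm, outE_succ]
  unfold g
  rw [sum_add_distrib (f := fun r => |A m c k (r / m) + c k (2 * r)| + |A m c k (r / m) + c k (2 * r + 1)|)
    (g := fun r => |c k (2 * r) + c k (2 * r + 1)|)]
  ring

theorem en_eq (m : ℕ) (hm : 0 < m) (c : ℕ → ℕ → ℝ) (k : ℕ) :
    en 1 (MM m) (fun _ => m) O c k = outE 1 (MM m) (fun _ => m) O c k +
      ∑ r ∈ range ((k + 1) * sc (MM m) k * m), 2 * |A m c k (r / m)| := by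
  unfold en
  rw [inE_eq m hm]
  ring

theorem outE_nonneg (m : ℕ) (c : ℕ → ℕ → ℝ) (k : ℕ) : 0 ≤ outE 1 (MM m) (fun _ => m) O c k := by
  induction k with
  | zero => unfold outE; simp
  | succ k ih =>
    rw [outE_succ]
    exact add_nonneg ih (sum_nonneg fun _ _ => abs_nonneg _)

theorem en_mono (m : ℕ) (hm : 0 < m) (c : ℕ → ℕ → ℝ) : Monotone (en 1 (MM m) (fun _ => m) O c) := by
  apply monotone_nat_of_le_succ
  intro k
  rw [en_succ m hm, en_eq m hm]
  gcongr
  exact g_ge _ _ _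

theorem inn_congr (m : ℕ) (c c' : ℕ → ℕ → ℝ) (k : ℕ) (h : ∀ l < k, c l = c' l) (i : ℕ) :
    inn 1 (MM m) c k i = inn 1 (MM m) c' k i := by
  induction k generalizing i with
  | zero => rfl
  | succ k ih =>
    rw [inn_succ, inn_succ, ih (fun l hl => h l (by omega)), h k (by omega)]

theorem outE_congr (m : ℕ) (c c' : ℕ → ℕ → ℝ) (k : ℕ) (h : ∀ l < k, c l = c' l) :
    outE 1 (MM m) (fun _ => m) O c k = outE 1 (MM m) (fun _ => m) O c' k := by
  induction k with
  | zero => rfl
  | succ k ih =>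
    rw [outE_succ, outE_succ, ih (fun l hl => h l (by omega)), h k (by omega)]

theorem one_le (m : ℕ) (hm : 0 < m) (L r0 : ℕ) (hr : r0 < L * m) (f : ℕ → ℝ) (hf : ∀ j, 0 ≤ f j) :
    (m : ℝ) * f (r0 / m) ≤ ∑ r ∈ range (L * m), f (r / m) := by
  rw [sumDiv L m hm]
  apply mul_le_mul_of_nonneg_left _ (Nat.cast_nonneg m)
  apply single_le_sum (fun j _ => hf j)
  rw [mem_range]
  exact Nat.div_lt_of_lt_mul (by rwa [mul_comm])

theorem propB (m : ℕ) (hm : 0 < m) (ε : ℝ) (hε : 1 / (m : ℝ) ≤ ε) :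
    PropB 1 (MM m) (fun _ => m) O ε := by
  intro c K k0 J hk hJ
  rw [div_one, Real.rpow_one, Real.rpow_one]
  have hmpos : (0:ℝ) < m := by exact_mod_cast hm
  set c' := cut k0 J c with hc'
  have hlt : ∀ l < k0, c' l = c l := by
    intro l hl
    funext i
    rw [hc']
    unfold cut
    rw [if_pos (Or.inl hl)]
  have hgt : ∀ l, k0 < l → ∀ i, c' l i = 0 := by
    intro l hl i
    rw [hc']
    unfold cut
    rw [if_neg]
    rintro (h | ⟨h, _⟩) <;> omega
  -- later stages
  have hlater : ∀ d, en 1 (MM m) (fun _ => m) O c' (k0 + 1 + d) =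
      en 1 (MM m) (fun _ => m) O c' (k0 + 1) := by
    intro d
    induction d with
    | zero => rfl
    | succ d ih =>
      rw [← ih, ← add_assoc, en_succ m hm, en_eq m hm]
      congr 1
      apply sum_congr rfl
      intro r _
      rw [hgt _ (by omega), hgt _ (by omega), g_zero]
  obtain ⟨d, rfl⟩ : ∃ d, K = k0 + 1 + d := ⟨K - (k0 + 1), by omega⟩
  rw [hlater d]
  have hA : ∀ j, A m c' k0 j = A m c k0 j := by
    intro j
    unfold A
    rw [inn_congr m c' c k0 hlt]
  set R := (k0 + 1) * sc (MM m) k0 * m with hR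
  have hstep : en 1 (MM m) (fun _ => m) O c' (k0 + 1) ≤ en 1 (MM m) (fun _ => m) O c (k0 + 1) +
      ∑ r ∈ range R, (if J = 2 * r + 1 then 2 * |A m c k0 (r / m)| else 0) := by
    rw [en_succ m hm, en_succ m hm, outE_congr m c' c k0 hlt, add_assoc, ← sum_add_distrib]
    gcongr with r hr
    rw [hA]
    have hcut : ∀ i, c' k0 i = if i < J then c k0 i else 0 := by
      intro i
      rw [hc']
      unfold cut
      simp
    rcases lt_trichotomy J (2 * r + 1) with h | h | h
    · rw [hcut, hcut, if_neg (by omega), if_neg (by omega), if_neg (by omega), g_zero, add_zero]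
      exact g_ge _ _ _
    · rw [hcut, hcut, if_pos (by omega), if_neg (by omega), if_pos h]
      exact g_half _ _ _
    · rw [hcut, hcut, if_pos (by omega), if_pos (by omega), if_neg (by omega), add_zero]
  have hsum : ∑ r ∈ range R, (if J = 2 * r + 1 then 2 * |A m c k0 (r / m)| else 0) ≤
      (1 / (m : ℝ)) * en 1 (MM m) (fun _ => m) O c (k0 + 1) := by
    have hen : ∑ r ∈ range R, 2 * |A m c k0 (r / m)| ≤ en 1 (MM m) (fun _ => m) O c (k0 + 1) := by
      have h1 := en_mono m hm c (Nat.le_succ k0)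
      rw [en_eq m hm] at h1
      have h2 := outE_nonneg m c k0
      change _ ≤ en 1 (MM m) (fun _ => m) O c (k0 + 1) at h1
      linarith
    have hen0 : 0 ≤ ∑ r ∈ range R, 2 * |A m c k0 (r / m)| :=
      sum_nonneg fun _ _ => by positivity
    by_cases hex : ∃ r0, r0 < R ∧ J = 2 * r0 + 1
    · obtain ⟨r0, hr0, hJ0⟩ := hex
      have h1 : ∑ r ∈ range R, (if J = 2 * r + 1 then 2 * |A m c k0 (r / m)| else 0) =
          2 * |A m c k0 (r0 / m)| := by
        rw [sum_eq_single r0]
        · rw [if_pos hJ0]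
        · intro b _ hb
          rw [if_neg]
          omega
        · intro h
          rw [mem_range] at h
          exact absurd hr0 h
      rw [h1]
      have h2 := one_le m hm _ r0 hr0 (fun j => 2 * |A m c k0 j|) (fun j => by positivity)
      rw [div_mul_eq_mul_div, one_mul, le_div_iff₀ hmpos, mul_comm]
      exact h2.trans hen
    · have h1 : ∑ r ∈ range R, (if J = 2 * r + 1 then 2 * |A m c k0 (r / m)| else 0) = 0 := by
        apply sum_eq_zero
        intro r hr
        rw [mem_range] at hr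
        rw [if_neg]
        intro h
        exact hex ⟨r, hr, h⟩
      rw [h1]
      exact mul_nonneg (by positivity) (hen0.trans hen)
  have hmono := en_mono m hm c (show k0 + 1 ≤ k0 + 1 + d by omega)
  have hen1 : 0 ≤ en 1 (MM m) (fun _ => m) O c (k0 + 1) := by
    rw [en_eq m hm]
    exact add_nonneg (outE_nonneg m c _) (sum_nonneg fun _ _ => by positivity)
  calc en 1 (MM m) (fun _ => m) O c' (k0 + 1)
      ≤ en 1 (MM m) (fun _ => m) O c (k0 + 1) +
        (1 / (m : ℝ)) * en 1 (MM m) (fun _ => m) O c (k0 + 1) := hstep.trans (by linarith)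
    _ = (1 + 1 / (m : ℝ)) * en 1 (MM m) (fun _ => m) O c (k0 + 1) := by ring
    _ ≤ (1 + ε) * en 1 (MM m) (fun _ => m) O c (k0 + 1 + d) := by
      apply mul_le_mul _ hmono hen1
      · have : 0 < 1 / (m : ℝ) := by positivity
        linarith
      · linarith

end P1Aux

open P1Aux in
theorem stmP1 : StmP1 := by
  intro ε hε
  obtain ⟨n, hn⟩ := exists_nat_gt (1 / ε)
  have hn0 : (0:ℝ) < n := lt_trans (by positivity) hn
  have hm : 0 < n := by exact_mod_cast hn0
  refine ⟨MM n, fun _ => n, O, ?_, ?_, ?_, ?_, ?_⟩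
  · intro k
    exact even_two_mul n
  · intro k
    change 2 ≤ 2 * n
    omega
  · intro k a d
    change 0 ≤ oo a d
    unfold oo
    split_ifs <;> norm_num
  · refine ⟨fun _ => 0, fun _ => le_rfl, fun K => by simp, fun k => ?_⟩
    change blk 1 (2 * n) n oo (fun n => (-1) ^ n) ≤ _
    rw [blk_eq]
    simp [pow_succ, pow_mul]
  · apply propB n hm
    rw [div_le_iff₀ hn0]
    rw [div_lt_iff₀ hε] at hn
    linarith

end Pool.Agent.R270.NB
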